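import Pool.Agent.U985.UT.Anal

/-! The asymptotic formula for the smoothed sums, uniform in the form. -/

set_option autoImplicit false

namespace Pool.Agent.U985.UT

open Complex MeasureTheory Filter Topology
open Pool.Agent.TH949.RES (SphericalCuspForm logL)
open Pool.Agent.TH949.LT (TT Lam cc gauss_line norm_exp_sq)
open Pool.Agent.N846.DT
open Pool.Agent.W189.TP (DS)

variable {n : ℕ}

theorem strip_bound {G : ℂ → ℂ} (hgr : ∀ a b : ℝ, ∃ C A : ℝ, ∀ s : ℂ, a ≤ s.re → s.re ≤ b →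
    ‖G s‖ ≤ C * (1 + |s.im|) ^ A) (a b y : ℝ) :
    ∃ C : ℝ, ∀ w : ℂ, a ≤ w.re → w.re ≤ b → ‖G (1 + w) * cexp (w * y)‖ ≤ C * Real.exp |w.im| := by
  obtain ⟨C1, A1, hCA⟩ := hgr (1 + a) (1 + b)
  obtain ⟨C2, hC20, hC2⟩ := rpow_exp (|A1|)
  refine ⟨|C1| * C2 * Real.exp ((|a| + |b|) * |y|), fun w hw1 hw2 => ?_⟩
  rw [norm_mul]
  have h2 := hCA (1 + w) (by simp; linarith) (by simp; linarith)
  have him : (1 + w).im = w.im := by simp
  rw [him] at h2
  have h3 : ‖cexp (w * y)‖ ≤ Real.exp ((|a| + |b|) * |y|) := by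
    rw [Complex.norm_exp]
    refine Real.exp_le_exp.2 ?_
    simp only [Complex.mul_re, Complex.ofReal_re, Complex.ofReal_im, mul_zero, sub_zero]
    calc w.re * y ≤ |w.re * y| := le_abs_self _
      _ = |w.re| * |y| := abs_mul _ _
      _ ≤ (|a| + |b|) * |y| := by
          refine mul_le_mul_of_nonneg_right ?_ (abs_nonneg y)
          rw [abs_le]
          constructor
          · linarith [neg_abs_le a, abs_nonneg b]
          · linarith [abs_nonneg a, le_abs_self b]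
  have hone : (1 : ℝ) ≤ 1 + |w.im| := by linarith [abs_nonneg w.im]
  have h4 : ‖G (1 + w)‖ ≤ |C1| * (C2 * Real.exp |w.im|) := by
    refine h2.trans (mul_le_mul (le_abs_self _) ?_ (Real.rpow_nonneg (by linarith) _) (abs_nonneg _))
    exact (Real.rpow_le_rpow_of_exponent_le hone (le_abs_self _)).trans (hC2 _ (abs_nonneg _))
  calc _ ≤ (|C1| * (C2 * Real.exp |w.im|)) * Real.exp ((|a| + |b|) * |y|) :=
        mul_le_mul h4 h3 (norm_nonneg _) (by positivity)
    _ = _ := by ring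

theorem asym (hn : 2 ≤ n) {ε₁ : ℝ} (hε : 0 < ε₁) : ∃ A₁ : ℝ, 0 ≤ A₁ ∧
    ∀ (α : Nat.Primes → Fin n → ℂ) (μ : Fin n → ℂ), SphericalCuspForm α μ →
      (∀ (p : Nat.Primes) i, ‖α p i‖ < ((p : ℕ) : ℝ) ^ (1 / 2 : ℝ)) → (∀ i, |(μ i).re| < 1 / 2) →
      ∃ R : ℝ, ∀ y : ℝ, 0 ≤ y → |SS (wX α) LX y - R| ≤
        A₁ * (∏ i, ∏ j, (1 + ‖μ i - μ j‖)) ^ (1 / 2 + ε₁) * Real.exp (-y) := by
  set σ₀ : ℝ := ε₁ / 2 with hσ₀
  have hσ : 0 < σ₀ := by positivity
  obtain ⟨Cl, hCl, hleft⟩ := left_size (n := n) hσ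
  obtain ⟨Cd, hCd, hdiag⟩ := diag n hn σ₀ σ₀ hσ hσ
  set K : ℝ := ((n * n : ℕ) : ℝ) * (1 / 2 + σ₀) with hK
  set a : ℝ := -(1 + σ₀) with ha
  have ha0 : a < 0 := by rw [ha]; linarith
  refine ⟨Cl * Cd * Real.exp (a ^ 2) * JK K, by
    have := JK_nonneg K
    positivity, fun α μ h hα hμ => ?_⟩
  obtain ⟨G, Ξ, hG, hΞ, hGe, hgr, hΞe, hfe⟩ := h.continuation
  have hleft' := hleft α μ h hμ G Ξ hG hΞ hGe hΞe hfe
  obtain ⟨-, hdiag'⟩ := hdiag α μ h hα hμ
  set P : ℝ := ∏ i, ∏ j, (1 + ‖μ i - μ j‖) with hP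
  have hP1 : 1 ≤ P := by
    rw [hP, ← PK_eq μ ⟨0, by omega⟩]
    exact Pool.Agent.TH949.LT.one_le_PK _
  have hP0 : 0 < P := by linarith
  refine ⟨2 * √Real.pi * (G 1).re, fun y hy => ?_⟩
  have hs2 : Summable fun x : PX => wX α x * Real.exp (-(2 * LX x)) := summ_wX h (by norm_num)
  -- the formula
  obtain ⟨C, hC⟩ := strip_bound hgr a 1 y
  have hHd : Differentiable ℂ fun w : ℂ => G (1 + w) * cexp (w * y) :=
    (hG.comp (by fun_prop)).mul (by fun_prop)
  have hcr := cross hHd ha0 (by norm_num : (0 : ℝ) < 1) hC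
  have hex := expandK (c := fun l : TT PX => cc (wX α) l) (Λ := Lam LX) (b := 1)
    (F := fun w => cexp (logL α (1 + w))) (fun l => cc_nonneg' (wX_nonneg α) l) (by
      have := summ_cc (L := LX) (wX_nonneg α) hs2
      refine this.congr fun l => ?_
      norm_num) (fun v => by
      have h1 := Pool.Agent.TH949.LT.cc_sum (d := wX α) (L := LX) (s := 1 + ((1 : ℝ) + v * I)) (by
        refine (summ_wX h (σ := (1 + (((1 : ℝ) : ℂ) + v * I)).re) (by simp)).congr fun x => ?_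
        rw [abs_of_nonneg (wX_nonneg α x)])
      rw [← logL_DS] at h1
      exact h1) y
  have hIb : (∫ v : ℝ, (G (1 + ((1 : ℝ) + v * I)) * cexp (((1 : ℝ) + v * I) * y)) *
      (cexp (((1 : ℝ) + v * I) ^ 2) / ((1 : ℝ) + v * I))) = ((√Real.pi * SS (wX α) LX y : ℝ) : ℂ) := by
    have h1 : (∫ v : ℝ, (G (1 + ((1 : ℝ) + v * I)) * cexp (((1 : ℝ) + v * I) * y)) *
        (cexp (((1 : ℝ) + v * I) ^ 2) / ((1 : ℝ) + v * I))) =
        ∫ v : ℝ, cexp (logL α (1 + ((1 : ℝ) + v * I))) * cexp (((1 : ℝ) + v * I) * y) *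
          cexp (((1 : ℝ) + v * I) ^ 2) := by
      congr 1
      ext v
      have hne : ((1 : ℝ) : ℂ) + v * I ≠ 0 := by
        intro h0
        have := congrArg Complex.re h0
        simp at this
      rw [hGe _ (by simp), add_sub_cancel_left]
      field_simp
    rw [h1, ← hex.tsum_eq, ← Complex.ofReal_tsum]
    congr 1
    rw [tsum_mul_left]
    rfl
  rw [hIb] at hcr
  simp only [add_zero, zero_mul, Complex.exp_zero, mul_one] at hcr
  set Ia : ℂ := ∫ v : ℝ, (G (1 + ((a : ℂ) + v * I)) * cexp (((a : ℂ) + v * I) * y)) *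
      (cexp (((a : ℂ) + v * I) ^ 2) / ((a : ℂ) + v * I)) with hIa
  -- the left integral
  have hIan : ‖Ia‖ ≤ Cl * Cd * Real.exp (a ^ 2) * JK K * P ^ (1 / 2 + ε₁) * Real.exp (-y) := by
    have h1 : ∀ v : ℝ, ‖(G (1 + ((a : ℂ) + v * I)) * cexp (((a : ℂ) + v * I) * y)) *
        (cexp (((a : ℂ) + v * I) ^ 2) / ((a : ℂ) + v * I))‖ ≤
        Cl * Cd * P ^ (1 / 2 + ε₁) * Real.exp (a ^ 2) * Real.exp (-y) * ((1 + |v|) ^ K * Real.exp (-v ^ 2)) := by
      intro v
      have e1 : 1 + ((a : ℂ) + v * I) = ((-σ₀ : ℝ) : ℂ) + v * I := by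
        rw [ha]
        push_cast
        ring
      have e2 : ((a : ℂ) + v * I) = (((-σ₀ : ℝ) : ℂ) + v * I) - 1 := by
        rw [← e1]
        ring
      have e3 : (G (1 + ((a : ℂ) + v * I)) * cexp (((a : ℂ) + v * I) * y)) *
          (cexp (((a : ℂ) + v * I) ^ 2) / ((a : ℂ) + v * I)) =
          (G (((-σ₀ : ℝ) : ℂ) + v * I) / ((((-σ₀ : ℝ) : ℂ) + v * I) - 1)) *
            (cexp (((a : ℂ) + v * I) * y) * cexp (((a : ℂ) + v * I) ^ 2)) := by
        rw [e1, ← e2]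
        ring
      rw [e3, norm_mul, norm_mul, norm_exp_sq, Complex.norm_exp]
      have e4 : (((a : ℂ) + v * I) * y).re = a * y := by simp
      have e5 : ((a : ℂ) + v * I).re ^ 2 - ((a : ℂ) + v * I).im ^ 2 = a ^ 2 - v ^ 2 := by simp
      rw [e4, e5]
      have h2 := hleft' v
      have h3 : Real.exp (∑' x : PX, wX α x * Real.exp (-((1 + σ₀) * LX x))) ≤ Cd * P ^ σ₀ := hdiag'
      have h4 : ((1 + |v|) ^ (n * n) * P) ^ (1 / 2 + σ₀) = (1 + |v|) ^ K * P ^ (1 / 2 + σ₀) := by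
        rw [Real.mul_rpow (by positivity) hP0.le, hK, Real.rpow_mul (by positivity), Real.rpow_natCast]
      rw [h4] at h2
      have h5 : Cl * ((1 + |v|) ^ K * P ^ (1 / 2 + σ₀)) *
          Real.exp (∑' x : PX, wX α x * Real.exp (-((1 + σ₀) * LX x))) ≤
          Cl * Cd * P ^ (1 / 2 + ε₁) * (1 + |v|) ^ K := by
        have h6 : 0 ≤ Cl * ((1 + |v|) ^ K * P ^ (1 / 2 + σ₀)) := by positivity
        refine (mul_le_mul_of_nonneg_left h3 h6).trans (le_of_eq ?_)
        have h7 : P ^ (1 / 2 + ε₁) = P ^ (1 / 2 + σ₀) * P ^ σ₀ := by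
          rw [← Real.rpow_add hP0]
          congr 1
          rw [hσ₀]
          ring
        rw [h7]
        ring
      have h6 : Real.exp (a * y) ≤ Real.exp (-y) := by
        refine Real.exp_le_exp.2 ?_
        rw [ha]
        nlinarith
      have h7 : Real.exp (a ^ 2 - v ^ 2) = Real.exp (a ^ 2) * Real.exp (-v ^ 2) := by
        rw [← Real.exp_add, sub_eq_add_neg]
      rw [h7]
      calc _ ≤ (Cl * Cd * P ^ (1 / 2 + ε₁) * (1 + |v|) ^ K) *
            (Real.exp (-y) * (Real.exp (a ^ 2) * Real.exp (-v ^ 2))) := by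
            refine mul_le_mul (h2.trans h5) (mul_le_mul_of_nonneg_right h6 (by positivity)) (by positivity)
              (by positivity)
        _ = _ := by ring
    refine (norm_integral_le_of_norm_le ((JK_int K).const_mul _) (Eventually.of_forall h1)).trans (le_of_eq ?_)
    rw [integral_const_mul]
    unfold JK
    ring
  -- conclusion
  have hpi : 0 < √Real.pi := Real.sqrt_pos.2 Real.pi_pos
  have hre := congrArg Complex.re hcr
  rw [Complex.sub_re, Complex.ofReal_re] at hre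
  have h2 : (2 * (Real.pi : ℂ) * G 1).re = 2 * Real.pi * (G 1).re := by
    have : (2 * (Real.pi : ℂ) * G 1) = ((2 * Real.pi : ℝ) : ℂ) * G 1 := by push_cast; ring
    rw [this, Complex.re_ofReal_mul]
  rw [h2] at hre
  have h3 : √Real.pi * (SS (wX α) LX y - 2 * √Real.pi * (G 1).re) = Ia.re := by
    have h4 : √Real.pi * √Real.pi = Real.pi := Real.mul_self_sqrt Real.pi_pos.le
    linear_combination hre - 2 * (G 1).re * h4
  have h4 : √Real.pi * |SS (wX α) LX y - 2 * √Real.pi * (G 1).re| = |Ia.re| := by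
    rw [← h3, abs_mul, abs_of_pos hpi]
  have h5 : 1 ≤ √Real.pi := by
    rw [Real.one_le_sqrt]
    linarith [Real.pi_gt_three]
  have h6 := abs_nonneg (SS (wX α) LX y - 2 * √Real.pi * (G 1).re)
  have h7 := Complex.abs_re_le_norm Ia
  calc |SS (wX α) LX y - 2 * √Real.pi * (G 1).re| ≤ √Real.pi * |SS (wX α) LX y - 2 * √Real.pi * (G 1).re| := by
        nlinarith
    _ ≤ _ := by rw [h4]; exact h7.trans hIan

end Pool.Agent.U985.UT
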