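import Pool.Agent.U985.UT.Three

/-! The inequality of `Three.lean` integrated against a Gaussian. -/

set_option autoImplicit false

namespace Pool.Agent.U985.UT

open Complex MeasureTheory Filter Topology
open Pool.Agent.W189.TP (DS)

theorem gauss_cos {b : ℝ} (hb : 0 < b) (t : ℝ) :
    ∫ x : ℝ, Real.exp (-b * x ^ 2) * Real.cos (x * t) = √(Real.pi / b) * Real.exp (-t ^ 2 / (4 * b)) := by
  have h1 := fourierIntegral_gaussian (b := (b : ℂ)) (by simpa using hb) (t : ℂ)
  have h2 : Integrable fun x : ℝ => cexp (I * t * x) * cexp (-(b : ℂ) * (x : ℂ) ^ 2) := by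
    have := integrable_cexp_quadratic (b := (b : ℂ)) (by simpa using hb) (I * t) 0
    refine this.congr (Eventually.of_forall fun x => ?_)
    simp only
    rw [← Complex.exp_add]
    congr 1
    ring
  have h3 := congrArg Complex.re h1
  have h4 : (∫ x : ℝ, cexp (I * t * x) * cexp (-(b : ℂ) * (x : ℂ) ^ 2)).re =
      ∫ x : ℝ, (cexp (I * t * x) * cexp (-(b : ℂ) * (x : ℂ) ^ 2)).re := by
    have := Complex.reCLM.integral_comp_comm h2
    simpa using this.symm
  rw [h4] at h3
  have h5 : ∀ x : ℝ, (cexp (I * t * x) * cexp (-(b : ℂ) * (x : ℂ) ^ 2)).re =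
      Real.exp (-b * x ^ 2) * Real.cos (x * t) := by
    intro x
    have e1 : cexp (-(b : ℂ) * (x : ℂ) ^ 2) = ((Real.exp (-b * x ^ 2) : ℝ) : ℂ) := by
      push_cast
      rfl
    rw [e1, mul_comm, Complex.re_ofReal_mul, Complex.exp_re]
    have e2 : (I * t * x).re = 0 := by simp
    have e3 : (I * t * x).im = x * t := by
      simp
      ring
    rw [e2, e3, Real.exp_zero, one_mul]
  simp_rw [h5] at h3
  rw [h3]
  have h6 : ((Real.pi : ℂ) / b) ^ (1 / 2 : ℂ) * cexp (-(t : ℂ) ^ 2 / (4 * b)) =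
      ((√(Real.pi / b) * Real.exp (-t ^ 2 / (4 * b)) : ℝ) : ℂ) := by
    have e1 : ((Real.pi : ℂ) / b) = ((Real.pi / b : ℝ) : ℂ) := by push_cast; rfl
    have e2 : (1 / 2 : ℂ) = ((1 / 2 : ℝ) : ℂ) := by push_cast; rfl
    rw [e1, e2, ← Complex.ofReal_cpow (by positivity), ← Real.sqrt_eq_rpow]
    push_cast
    rfl
  rw [h6, Complex.ofReal_re]

theorem cauchy_int {κ : ℝ} (hκ : 0 < κ) : Integrable (fun x : ℝ => 1 / (κ ^ 2 + x ^ 2)) ∧
    ∫ x : ℝ, 1 / (κ ^ 2 + x ^ 2) = Real.pi / κ := by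
  have h0 : ∀ x : ℝ, 1 / (κ ^ 2 + x ^ 2) = (κ ^ 2)⁻¹ * (1 + (κ⁻¹ * x) ^ 2)⁻¹ := by
    intro x
    have h1 : 0 < κ ^ 2 + x ^ 2 := by positivity
    have h2 : 0 < 1 + (κ⁻¹ * x) ^ 2 := by positivity
    rw [← mul_inv, one_div]
    congr 1
    field_simp
  constructor
  · simp_rw [h0]
    refine Integrable.const_mul ?_ _
    exact integrable_inv_one_add_sq.comp_mul_left' (inv_ne_zero hκ.ne')
  · simp_rw [h0]
    rw [integral_const_mul, Measure.integral_comp_mul_left (fun x => (1 + x ^ 2)⁻¹) κ⁻¹, integral_univ_inv_one_add_sq,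
      inv_inv, abs_of_pos hκ, smul_eq_mul]
    field_simp

/-- the constant for the growth in the imaginary part -/
noncomputable def JG : ℝ := ∫ v : ℝ, |v| * Real.exp (-(1 / 2) * v ^ 2)

theorem JG_nonneg : 0 ≤ JG := integral_nonneg fun v => by positivity

theorem abs_int {b : ℝ} (hb : 0 < b) : Integrable fun x : ℝ => |x| * Real.exp (-b * x ^ 2) := by
  have := (integrable_mul_exp_neg_mul_sq hb).norm
  refine this.congr (Eventually.of_forall fun x => ?_)
  simp only
  rw [norm_mul, Real.norm_of_nonneg (Real.exp_pos _).le, Real.norm_eq_abs]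

theorem abs_integral {s : ℝ} (hs : 0 < s) : ∫ x : ℝ, |x| * Real.exp (-(s ^ 2 / 2) * x ^ 2) = JG / s ^ 2 := by
  have h0 : ∀ x : ℝ, |x| * Real.exp (-(s ^ 2 / 2) * x ^ 2) =
      s⁻¹ * (|s * x| * Real.exp (-(1 / 2) * (s * x) ^ 2)) := by
    intro x
    rw [abs_mul, abs_of_pos hs]
    have : -(s ^ 2 / 2) * x ^ 2 = -(1 / 2) * (s * x) ^ 2 := by ring
    rw [this]
    field_simp
  simp_rw [h0]
  rw [integral_const_mul, Measure.integral_comp_mul_left (fun v => |v| * Real.exp (-(1 / 2) * v ^ 2)) s,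
    abs_of_pos (inv_pos.2 hs), smul_eq_mul]
  unfold JG
  field_simp

section

variable {X : Type} {d L : X → ℝ}

theorem gaussB (hd : ∀ x, 0 ≤ d x) (hL : ∀ x, 0 ≤ L x) [Countable X]
    (hs : ∀ σ : ℝ, 1 < σ → Summable fun x => d x * Real.exp (-(σ * L x)))
    {c₀ K : ℝ} (hK : 0 ≤ K)
    (hfd : ∀ δ η ξ : ℝ, 0 < η → η < δ → δ ≤ 1 →
      ∑' x, d x * (Real.exp (-((1 + δ - η) * L x)) - Real.exp (-((1 + δ + η) * L x))) * Real.cos (ξ * L x) ≤
      η * (c₀ + K * Real.log (1 + |ξ|)) + 2 * δ * η / ((δ - η) ^ 2 + ξ ^ 2))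
    {s : ℝ} (hs1 : 1 ≤ s) (T : Finset X) :
    ∑ x ∈ T, d x * L x * Real.exp (-L x) * Real.exp (-(L x) ^ 2 / (2 * s ^ 2)) ≤
      (c₀ + K * JG) / 2 + √(Real.pi / 2) * s := by
  have hs0 : 0 < s := by linarith
  set b : ℝ := s ^ 2 / 2 with hb
  have hb0 : 0 < b := by positivity
  set W : ℝ → ℝ := fun ξ => Real.exp (-b * ξ ^ 2) with hW
  have hWi : Integrable W := integrable_exp_neg_mul_sq hb0
  have hW0 : ∀ ξ, 0 < W ξ := fun ξ => Real.exp_pos _
  have hW1 : ∀ ξ, W ξ ≤ 1 := fun ξ => Real.exp_le_one_iff.2 (by nlinarith [sq_nonneg ξ])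
  have hWint : ∫ ξ, W ξ = √(Real.pi / b) := integral_gaussian b
  set N : ℝ := √(Real.pi / b) with hN
  have hN0 : 0 < N := Real.sqrt_pos.2 (by positivity)
  set g : ℝ → ℝ := fun t => Real.exp (-t ^ 2 / (2 * s ^ 2)) with hg
  have hg4 : ∀ t : ℝ, Real.exp (-t ^ 2 / (4 * b)) = g t := by
    intro t
    simp only [hg, hb]
    congr 1
    ring
  -- the inequality for fixed δ, η
  have key : ∀ δ η : ℝ, 0 < η → η < δ → δ ≤ 1 →
      2 * η * ∑ x ∈ T, d x * L x * Real.exp (-((1 + δ) * L x)) * g (L x) ≤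
        η * (c₀ + K * JG) + 2 * η * (√(Real.pi / 2) * s) * (δ / (δ - η)) := by
    intro δ η hη hηδ hδ
    have hδ0 : 0 < δ := hη.trans hηδ
    set c : X → ℝ := fun x => d x * (Real.exp (-((1 + δ - η) * L x)) - Real.exp (-((1 + δ + η) * L x))) with hc
    have hc0 : ∀ x, 0 ≤ c x := by
      intro x
      refine mul_nonneg (hd x) (sub_nonneg.2 (Real.exp_le_exp.2 ?_))
      nlinarith [hL x]
    have hcs : Summable c := by
      refine Summable.of_nonneg_of_le hc0 (fun x => ?_) (hs (1 + δ - η) (by linarith))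
      exact mul_le_mul_of_nonneg_left (by linarith [Real.exp_pos (-((1 + δ + η) * L x))]) (hd x)
    -- the integral of the left side
    have hFi : ∀ x, Integrable fun ξ : ℝ => W ξ * (c x * Real.cos (ξ * L x)) := by
      intro x
      refine (hWi.mul_const (c x)).mono' (by
        refine Continuous.aestronglyMeasurable ?_
        simp only [hW]
        fun_prop) (Eventually.of_forall fun ξ => ?_)
      rw [norm_mul, norm_mul, Real.norm_of_nonneg (hW0 ξ).le, Real.norm_of_nonneg (hc0 x), Real.norm_eq_abs]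
      exact mul_le_mul_of_nonneg_left (mul_le_of_le_one_right (hc0 x) (Real.abs_cos_le_one _)) (hW0 ξ).le
    have hFn : ∀ x, ∫ ξ : ℝ, ‖W ξ * (c x * Real.cos (ξ * L x))‖ ≤ c x * N := by
      intro x
      have h1 : ∫ ξ : ℝ, ‖W ξ * (c x * Real.cos (ξ * L x))‖ ≤ ∫ ξ : ℝ, W ξ * c x := by
        refine integral_mono (hFi x).norm (hWi.mul_const _) fun ξ => ?_
        simp only
        rw [norm_mul, norm_mul, Real.norm_of_nonneg (hW0 ξ).le, Real.norm_of_nonneg (hc0 x), Real.norm_eq_abs]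
        exact mul_le_mul_of_nonneg_left (mul_le_of_le_one_right (hc0 x) (Real.abs_cos_le_one _)) (hW0 ξ).le
      refine h1.trans (le_of_eq ?_)
      rw [integral_mul_const, hWint, mul_comm]
    have hsum : Summable fun x => ∫ ξ : ℝ, ‖W ξ * (c x * Real.cos (ξ * L x))‖ :=
      Summable.of_nonneg_of_le (fun x => integral_nonneg fun ξ => norm_nonneg _) hFn (hcs.mul_right N)
    have hhs := hasSum_integral_of_summable_integral_norm hFi hsum
    have hterm : ∀ x, ∫ ξ : ℝ, W ξ * (c x * Real.cos (ξ * L x)) = N * (c x * g (L x)) := by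
      intro x
      have h1 : ∀ ξ : ℝ, W ξ * (c x * Real.cos (ξ * L x)) = c x * (W ξ * Real.cos (ξ * L x)) := fun ξ => by ring
      simp_rw [h1]
      rw [integral_const_mul, gauss_cos hb0, hg4]
      ring
    simp_rw [hterm] at hhs
    have htm : ∀ ξ : ℝ, ∑' x, W ξ * (c x * Real.cos (ξ * L x)) = W ξ * ∑' x, c x * Real.cos (ξ * L x) :=
      fun ξ => tsum_mul_left
    simp_rw [htm] at hhs
    -- the integral of the right side
    have hcont : Continuous fun ξ : ℝ => ∑' x, c x * Real.cos (ξ * L x) := by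
      refine continuous_tsum (fun x => by fun_prop) hcs fun x ξ => ?_
      rw [norm_mul, Real.norm_of_nonneg (hc0 x), Real.norm_eq_abs]
      exact mul_le_of_le_one_right (hc0 x) (Real.abs_cos_le_one _)
    have hint1 : Integrable fun ξ : ℝ => W ξ * ∑' x, c x * Real.cos (ξ * L x) := by
      refine (hWi.mul_const (∑' x, c x)).mono' (by
        refine Continuous.aestronglyMeasurable ?_
        simp only [hW]
        fun_prop) (Eventually.of_forall fun ξ => ?_)
      rw [norm_mul, Real.norm_of_nonneg (hW0 ξ).le]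
      refine mul_le_mul_of_nonneg_left ?_ (hW0 ξ).le
      refine tsum_of_norm_bounded hcs.hasSum fun x => ?_
      rw [norm_mul, Real.norm_of_nonneg (hc0 x), Real.norm_eq_abs]
      exact mul_le_of_le_one_right (hc0 x) (Real.abs_cos_le_one _)
    obtain ⟨hci, hcv⟩ := cauchy_int (sub_pos.2 hηδ)
    have hint2 : Integrable fun ξ : ℝ => (η * c₀) * W ξ + (η * K) * (|ξ| * Real.exp (-b * ξ ^ 2)) +
        (2 * δ * η) * (1 / ((δ - η) ^ 2 + ξ ^ 2)) :=
      ((hWi.const_mul _).add ((abs_int hb0).const_mul _)).add (hci.const_mul _)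
    have hle : ∫ ξ : ℝ, W ξ * ∑' x, c x * Real.cos (ξ * L x) ≤
        ∫ ξ : ℝ, ((η * c₀) * W ξ + (η * K) * (|ξ| * Real.exp (-b * ξ ^ 2)) +
        (2 * δ * η) * (1 / ((δ - η) ^ 2 + ξ ^ 2))) := by
      refine integral_mono hint1 hint2 fun ξ => ?_
      simp only
      have h1 := hfd δ η ξ hη hηδ hδ
      have h2 : Real.log (1 + |ξ|) ≤ |ξ| := by
        have := Real.log_le_sub_one_of_pos (show 0 < 1 + |ξ| by positivity)
        linarith
      have h3 : 0 < (δ - η) ^ 2 + ξ ^ 2 := by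
        have := sub_pos.2 hηδ
        positivity
      calc W ξ * ∑' x, c x * Real.cos (ξ * L x) ≤ W ξ * (η * (c₀ + K * Real.log (1 + |ξ|)) +
            2 * δ * η / ((δ - η) ^ 2 + ξ ^ 2)) := mul_le_mul_of_nonneg_left h1 (hW0 ξ).le
        _ = (η * c₀) * W ξ + (η * K) * (Real.log (1 + |ξ|) * W ξ) + W ξ * (2 * δ * η / ((δ - η) ^ 2 + ξ ^ 2)) := by
            ring
        _ ≤ (η * c₀) * W ξ + (η * K) * (|ξ| * W ξ) + 1 * (2 * δ * η / ((δ - η) ^ 2 + ξ ^ 2)) := by
            have h4 : 0 ≤ 2 * δ * η / ((δ - η) ^ 2 + ξ ^ 2) := by positivity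
            have h5 : Real.log (1 + |ξ|) * W ξ ≤ |ξ| * W ξ := mul_le_mul_of_nonneg_right h2 (hW0 ξ).le
            have h6 : (η * K) * (Real.log (1 + |ξ|) * W ξ) ≤ (η * K) * (|ξ| * W ξ) :=
              mul_le_mul_of_nonneg_left h5 (mul_nonneg hη.le hK)
            have h7 : W ξ * (2 * δ * η / ((δ - η) ^ 2 + ξ ^ 2)) ≤ 1 * (2 * δ * η / ((δ - η) ^ 2 + ξ ^ 2)) :=
              mul_le_mul_of_nonneg_right (hW1 ξ) h4
            linarith
        _ = _ := by
            simp only [hW]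
            ring
    have hIA : Integrable fun ξ : ℝ => (η * c₀) * W ξ := hWi.const_mul _
    have hIB : Integrable fun ξ : ℝ => (η * K) * (|ξ| * Real.exp (-b * ξ ^ 2)) := (abs_int hb0).const_mul _
    have hIC : Integrable fun ξ : ℝ => (2 * δ * η) * (1 / ((δ - η) ^ 2 + ξ ^ 2)) := hci.const_mul _
    have hIAB : Integrable fun ξ : ℝ => (η * c₀) * W ξ + (η * K) * (|ξ| * Real.exp (-b * ξ ^ 2)) := hIA.add hIB
    have habs : ∫ ξ : ℝ, |ξ| * Real.exp (-b * ξ ^ 2) = JG / s ^ 2 := by
      rw [hb]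
      exact abs_integral hs0
    rw [← hhs.tsum_eq, integral_add hIAB hIC, integral_add hIA hIB, integral_const_mul, integral_const_mul,
      integral_const_mul, hWint, hcv, habs, tsum_mul_left] at hle
    -- the finite sum
    have hgs : Summable fun x => c x * g (L x) := by
      refine Summable.of_nonneg_of_le (fun x => mul_nonneg (hc0 x) (Real.exp_pos _).le) (fun x => ?_) hcs
      refine mul_le_of_le_one_right (hc0 x) (Real.exp_le_one_iff.2 ?_)
      rw [neg_div]
      exact neg_nonpos.2 (by positivity)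
    have hfin : 2 * η * ∑ x ∈ T, d x * L x * Real.exp (-((1 + δ) * L x)) * g (L x) ≤ ∑' x, c x * g (L x) := by
      refine le_trans ?_ (hgs.sum_le_tsum T fun x _ => mul_nonneg (hc0 x) (Real.exp_pos _).le)
      rw [Finset.mul_sum]
      refine Finset.sum_le_sum fun x _ => ?_
      have h1 : Real.exp (-((1 + δ - η) * L x)) - Real.exp (-((1 + δ + η) * L x)) =
          Real.exp (-((1 + δ) * L x)) * (2 * Real.sinh (η * L x)) := by
        rw [Real.sinh_eq]
        have e1 : -((1 + δ - η) * L x) = -((1 + δ) * L x) + η * L x := by ring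
        have e2 : -((1 + δ + η) * L x) = -((1 + δ) * L x) + -(η * L x) := by ring
        rw [e1, e2, Real.exp_add, Real.exp_add]
        ring
      have h2 : η * L x ≤ Real.sinh (η * L x) := Real.self_le_sinh_iff.2 (mul_nonneg hη.le (hL x))
      have h3 : 0 ≤ d x * Real.exp (-((1 + δ) * L x)) * g (L x) :=
        mul_nonneg (mul_nonneg (hd x) (Real.exp_pos _).le) (Real.exp_pos _).le
      calc 2 * η * (d x * L x * Real.exp (-((1 + δ) * L x)) * g (L x)) =
            (d x * Real.exp (-((1 + δ) * L x)) * g (L x)) * (2 * (η * L x)) := by ring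
        _ ≤ (d x * Real.exp (-((1 + δ) * L x)) * g (L x)) * (2 * Real.sinh (η * L x)) :=
            mul_le_mul_of_nonneg_left (by linarith) h3
        _ = c x * g (L x) := by
            simp only [hc]
            rw [h1]
            ring
    -- conclusion
    have hNv : N = √(2 * Real.pi) / s := by
      rw [hN, hb]
      have : Real.pi / (s ^ 2 / 2) = (2 * Real.pi) / s ^ 2 := by
        field_simp
      rw [this, Real.sqrt_div (by positivity), Real.sqrt_sq hs0.le]
    have hN2 : 2 * Real.pi = N * (2 * (√(Real.pi / 2) * s)) := by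
      rw [hNv]
      have h1 : √(2 * Real.pi) * √(Real.pi / 2) = Real.pi := by
        rw [← Real.sqrt_mul (by positivity)]
        have : 2 * Real.pi * (Real.pi / 2) = Real.pi ^ 2 := by ring
        rw [this, Real.sqrt_sq Real.pi_pos.le]
      have h2 : √(2 * Real.pi) / s * (2 * (√(Real.pi / 2) * s)) = 2 * (√(2 * Real.pi) * √(Real.pi / 2)) := by
        field_simp
      rw [h2, h1]
    have hN3 : 1 / s ^ 2 ≤ N := by
      rw [hNv]
      have h1 : 1 ≤ √(2 * Real.pi) := by
        rw [Real.one_le_sqrt]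
        linarith [Real.pi_gt_three]
      rw [div_le_div_iff₀ (by positivity) hs0]
      nlinarith [mul_nonneg hs0.le (sub_nonneg.2 h1), mul_nonneg hs0.le (sub_nonneg.2 hs1),
        mul_le_mul_of_nonneg_left hs1 hs0.le]
    have h8 : N * ∑' x, c x * g (L x) ≤ N * (η * (c₀ + K * JG) + 2 * η * (√(Real.pi / 2) * s) * (δ / (δ - η))) := by
      refine hle.trans ?_
      have h9 : η * K * (JG / s ^ 2) ≤ N * (η * K * JG) := by
        have : η * K * (JG / s ^ 2) = (1 / s ^ 2) * (η * K * JG) := by ring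
        rw [this]
        exact mul_le_mul_of_nonneg_right hN3 (mul_nonneg (mul_nonneg hη.le hK) JG_nonneg)
      have h10 : 2 * δ * η * (Real.pi / (δ - η)) = N * (2 * η * (√(Real.pi / 2) * s) * (δ / (δ - η))) := by
        have : 2 * δ * η * (Real.pi / (δ - η)) = (2 * Real.pi) * (η * (δ / (δ - η))) := by
          ring
        rw [this, hN2]
        ring
      rw [h10]
      nlinarith
    have h12 := le_of_mul_le_mul_left h8 hN0
    exact hfin.trans h12
  -- the limit
  have key2 : ∀ δ : ℝ, 0 < δ → δ < 1 →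
      ∑ x ∈ T, d x * L x * Real.exp (-((1 + δ) * L x)) * g (L x) ≤
        (c₀ + K * JG) / 2 + (√(Real.pi / 2) * s) * (1 / (1 - δ)) := by
    intro δ hδ hδ1
    have h1 := key δ (δ ^ 2) (by positivity) (by nlinarith) hδ1.le
    have h2 : δ / (δ - δ ^ 2) = 1 / (1 - δ) := by
      have h3 : 1 - δ ≠ 0 := by linarith
      have h4 : δ - δ ^ 2 ≠ 0 := by
        have : δ - δ ^ 2 = δ * (1 - δ) := by ring
        rw [this]
        exact mul_ne_zero hδ.ne' h3
      rw [div_eq_div_iff h4 h3]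
      ring
    rw [h2] at h1
    have h3 : 0 < 2 * δ ^ 2 := by positivity
    refine le_of_mul_le_mul_left (h1.trans (le_of_eq ?_)) h3
    ring
  have hlim1 : Tendsto (fun δ : ℝ => ∑ x ∈ T, d x * L x * Real.exp (-((1 + δ) * L x)) * g (L x)) (𝓝[>] 0)
      (𝓝 (∑ x ∈ T, d x * L x * Real.exp (-((1 + 0) * L x)) * g (L x))) := by
    refine Tendsto.mono_left ?_ nhdsWithin_le_nhds
    refine tendsto_finsetSum _ fun x _ => ?_
    exact (Continuous.tendsto (by fun_prop) 0)
  have hlim2 : Tendsto (fun δ : ℝ => (c₀ + K * JG) / 2 + (√(Real.pi / 2) * s) * (1 / (1 - δ))) (𝓝[>] 0)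
      (𝓝 ((c₀ + K * JG) / 2 + (√(Real.pi / 2) * s) * (1 / (1 - 0)))) := by
    refine Tendsto.mono_left ?_ nhdsWithin_le_nhds
    have : ContinuousAt (fun δ : ℝ => (c₀ + K * JG) / 2 + (√(Real.pi / 2) * s) * (1 / (1 - δ))) 0 := by
      refine ContinuousAt.add continuousAt_const (ContinuousAt.mul continuousAt_const ?_)
      exact ContinuousAt.div continuousAt_const (by fun_prop) (by norm_num)
    exact this
  have hfinal := le_of_tendsto_of_tendsto hlim1 hlim2 (by
    filter_upwards [Ioo_mem_nhdsGT (zero_lt_one (α := ℝ))] with δ hδ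
    exact key2 δ hδ.1 hδ.2)
  simp only [add_zero, one_mul, sub_zero, div_one, mul_one] at hfinal
  exact hfinal

end

end Pool.Agent.U985.UT
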