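import Pool.Agent.U985.UT.Low

/-! `n = 2` (with the symmetric square) and `n = 3`. -/

set_option autoImplicit false

namespace Pool.Agent.U985.UT

open Filter Topology MeasureTheory
open Pool.Agent.TH949.RES (SphericalCuspForm)
open Pool.Agent.N846.DT

theorem II_tendsto : Tendsto II atTop (𝓝 √(Real.pi / 2)) := by
  have h1 : Integrable fun t : ℝ => Real.exp (-(1 / 2) * t ^ 2) := integrable_exp_neg_mul_sq (by norm_num)
  have h2 := intervalIntegral_tendsto_integral_Ioi (μ := volume) (f := fun t : ℝ => Real.exp (-(1 / 2) * t ^ 2)) 0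
    h1.integrableOn tendsto_id
  rw [integral_gaussian_Ioi] at h2
  have h3 : √(Real.pi / (1 / 2)) / 2 = √(Real.pi / 2) := by
    rw [div_eq_iff (by norm_num)]
    have h4 : Real.pi / (1 / 2) = (Real.pi / 2) * 2 ^ 2 := by ring
    rw [h4, Real.sqrt_mul (by positivity), Real.sqrt_sq (by norm_num)]
  rw [h3] at h2
  refine h2.congr fun x => ?_
  unfold II
  refine intervalIntegral.integral_congr fun t _ => ?_
  congr 1
  ring

/-- the Satake parameters of the symmetric square -/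
noncomputable def sq2 (α : Nat.Primes → Fin 2 → ℂ) : Nat.Primes → Fin 3 → ℂ := fun p => ![α p 0 ^ 2, 1, α p 1 ^ 2]

/-- the Langlands parameters of the symmetric square -/
noncomputable def sqμ (μ : Fin 2 → ℂ) : Fin 3 → ℂ := ![2 * μ 0, 0, 2 * μ 1]

/-- a spherical cusp form on `PGL_2` and its symmetric square -/
structure FormSym (α : Nat.Primes → Fin 2 → ℂ) (μ : Fin 2 → ℂ) : Prop where
  form : SphericalCuspForm α μ
  det : ∀ p, α p 0 * α p 1 = 1
  tr : μ 0 + μ 1 = 0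
  bound : ∀ (p : Nat.Primes) i, ‖α p i‖ < ((p : ℕ) : ℝ) ^ (1 / 4 : ℝ)
  bound_real : ∀ i, |(μ i).re| < 1 / 4
  symSq : SphericalCuspForm (sq2 α) (sqμ μ)

section

variable {α : Nat.Primes → Fin 2 → ℂ} {μ : Fin 2 → ℂ}

theorem FormSym.b2 (h : FormSym α μ) (p : Nat.Primes) (i : Fin 2) :
    ‖α p i‖ < ((p : ℕ) : ℝ) ^ (1 / 2 : ℝ) := by
  refine (h.bound p i).trans_le (Real.rpow_le_rpow_of_exponent_le ?_ (by norm_num))
  exact_mod_cast p.2.one_lt.le

theorem FormSym.b3 (h : FormSym α μ) (p : Nat.Primes) (i : Fin 3) :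
    ‖sq2 α p i‖ < ((p : ℕ) : ℝ) ^ (1 / 2 : ℝ) := by
  have hp : (1 : ℝ) < ((p : ℕ) : ℝ) := by exact_mod_cast p.2.one_lt
  have h1 : ∀ j, ‖α p j ^ 2‖ < ((p : ℕ) : ℝ) ^ (1 / 2 : ℝ) := by
    intro j
    rw [norm_pow]
    have h2 : ((p : ℕ) : ℝ) ^ (1 / 2 : ℝ) = (((p : ℕ) : ℝ) ^ (1 / 4 : ℝ)) ^ 2 := by
      rw [← Real.rpow_natCast, ← Real.rpow_mul (by linarith)]
      norm_num
    rw [h2]
    exact pow_lt_pow_left₀ (h.bound p j) (norm_nonneg _) (by norm_num)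
  fin_cases i
  · exact h1 0
  · show ‖(1 : ℂ)‖ < _
    rw [norm_one]
    exact Real.one_lt_rpow hp (by norm_num)
  · exact h1 1

theorem FormSym.r2 (h : FormSym α μ) (i : Fin 2) : |(μ i).re| < 1 / 2 := by
  linarith [h.bound_real i]

theorem FormSym.r3 (h : FormSym α μ) (i : Fin 3) : |(sqμ μ i).re| < 1 / 2 := by
  have h1 : ∀ j, |(2 * μ j).re| < 1 / 2 := by
    intro j
    have h2 : (2 * μ j).re = 2 * (μ j).re := by simp
    rw [h2, abs_mul, abs_of_pos (by norm_num : (0 : ℝ) < 2)]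
    linarith [h.bound_real j]
  fin_cases i
  · exact h1 0
  · show |(0 : ℂ).re| < 1 / 2
    simp
  · exact h1 1

/-- the trace of the symmetric square -/
theorem FormSym.trace (h : FormSym α μ) (p : Nat.Primes) :
    ∃ t : ℝ, ∑ i, α p i = t ∧ ∑ i, sq2 α p i = ((t ^ 2 - 1 : ℝ) : ℂ) := by
  obtain ⟨t, ht⟩ := two_real (h.form.ne_zero p) (h.form.unitary p) (h.det p)
  refine ⟨t, by rw [Fin.sum_univ_two, ht], ?_⟩
  have h1 : ∑ i, sq2 α p i = α p 0 ^ 2 + 1 + α p 1 ^ 2 := by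
    rw [Fin.sum_univ_three]
    rfl
  rw [h1]
  push_cast
  rw [← ht]
  linear_combination (-2) * h.det p

theorem condC2 : ∏ i, ∏ j, (1 + ‖μ i - μ j‖) = (1 + ‖μ 0 - μ 1‖) ^ 2 := by
  rw [Fin.prod_univ_two, Fin.prod_univ_two, Fin.prod_univ_two, sub_self, sub_self, norm_zero, norm_sub_rev (μ 1)]
  ring

theorem condC3 (htr : μ 0 + μ 1 = 0) :
    ∏ i, ∏ j, (1 + ‖sqμ μ i - sqμ μ j‖) ≤ 4 * (1 + ‖μ 0 - μ 1‖) ^ 6 := by
  have h1 : μ 1 = -μ 0 := by linear_combination htr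
  set m : ℝ := ‖μ 0 - μ 1‖ with hm
  have hm0 : 0 ≤ m := norm_nonneg _
  have e0 : sqμ μ 0 = μ 0 - μ 1 := by
    show 2 * μ 0 = _
    rw [h1]; ring
  have e1 : sqμ μ 1 = 0 := rfl
  have e2 : sqμ μ 2 = -(μ 0 - μ 1) := by
    show 2 * μ 1 = _
    rw [h1]; ring
  have n01 : ‖(μ 0 - μ 1) - 0‖ = m := by rw [sub_zero]
  have n10 : ‖0 - (μ 0 - μ 1)‖ = m := by rw [zero_sub, norm_neg]
  have n02 : ‖(μ 0 - μ 1) - -(μ 0 - μ 1)‖ = 2 * m := by
    rw [sub_neg_eq_add, ← two_mul, norm_mul]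
    simp [hm]
  have n20 : ‖-(μ 0 - μ 1) - (μ 0 - μ 1)‖ = 2 * m := by
    rw [norm_sub_rev, n02]
  have n12 : ‖0 - -(μ 0 - μ 1)‖ = m := by rw [sub_neg_eq_add, zero_add]
  have n21 : ‖-(μ 0 - μ 1) - 0‖ = m := by rw [sub_zero, norm_neg]
  rw [Fin.prod_univ_three, Fin.prod_univ_three, Fin.prod_univ_three, Fin.prod_univ_three, e0, e1, e2, n01, n10, n02,
    n20, n12, n21, sub_self, sub_self, sub_self, norm_zero]
  have h2 : (1 + 0) * (1 + m) * (1 + 2 * m) * ((1 + m) * (1 + 0) * (1 + m)) * ((1 + 2 * m) * (1 + m) * (1 + 0)) =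
      (1 + m) ^ 4 * (1 + 2 * m) ^ 2 := by ring
  rw [h2]
  have h3 : (1 + 2 * m) ^ 2 ≤ 4 * (1 + m) ^ 2 := by nlinarith
  calc (1 + m) ^ 4 * (1 + 2 * m) ^ 2 ≤ (1 + m) ^ 4 * (4 * (1 + m) ^ 2) :=
        mul_le_mul_of_nonneg_left h3 (by positivity)
    _ = _ := by ring

theorem logC3 (htr : μ 0 + μ 1 = 0) :
    Real.log (∏ i, ∏ j, (1 + ‖sqμ μ i - sqμ μ j‖)) ≤ 6 * Real.log (1 + ‖μ 0 - μ 1‖) + 2 := by
  have hT : 0 < 1 + ‖μ 0 - μ 1‖ := by positivity
  have h1 := Real.log_le_log (by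
    have := one_le_C (n := 3) (by norm_num) (sqμ μ)
    linarith) (condC3 htr)
  rw [Real.log_mul (by norm_num) (by positivity), Real.log_pow] at h1
  have h2 : Real.log 4 ≤ 2 := by
    have : (4 : ℝ) = 2 ^ 2 := by norm_num
    rw [this, Real.log_pow]
    have := Real.log_two_lt_d9
    norm_num
    linarith
  push_cast at h1
  linarith

end

theorem sym_gen {x c : ℝ} (hx0 : 0 < x) (hD0' : 0 < 841 / 80 * II x - 89 / 80 * √(Real.pi / 2))
    (hcD : x * (17 / 10) < c * (841 / 80 * II x - 89 / 80 * √(Real.pi / 2))) : ∃ A : ℝ, 0 < A ∧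
    ∀ (α : Nat.Primes → Fin 2 → ℂ) (μ : Fin 2 → ℂ), FormSym α μ →
    ∃ p : Nat.Primes, ((p : ℕ) : ℝ) ≤ A * (1 + ‖μ 0 - μ 1‖) ^ c ∧ ∀ i, ‖α p i‖ = 1 := by
  set κ : ℝ := √(Real.pi / 2) with hκ
  set D : ℝ := 841 / 80 * II x - 89 / 80 * κ with hD
  have hD0 : 0 < D := hD0'
  have hc0 : 0 < c := by
    by_contra h
    have h1 : c * D ≤ 0 := mul_nonpos_of_nonpos_of_nonneg (not_lt.1 h) hD0.le
    linarith
  set ε : ℝ := c * D / (x * (34 / 5)) - 1 / 4 with hε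
  have hε0 : 0 < ε := by
    rw [hε, sub_pos, lt_div_iff₀ (by positivity)]
    linarith
  obtain ⟨A₂, hA2, hB2⟩ := primeB (n := 2) le_rfl hε0
  obtain ⟨A₃, hA3, hB3⟩ := primeB (n := 3) (by norm_num) hε0
  obtain ⟨A₀, hA0, hG⟩ := mert_gauss
  set A₁ : ℝ := A₂ + 4 / 5 * A₃ + (1 / 4 + ε) * 2 + 12 * A₀ + 1 with hA₁
  have hA1 : 0 < A₁ := by positivity
  set A : ℝ := Real.exp (x * (1 + A₁ / D) + x) with hA
  refine ⟨A, Real.exp_pos _, fun α μ h => ?_⟩
  set T : ℝ := 1 + ‖μ 0 - μ 1‖ with hT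
  have hT1 : 1 ≤ T := by rw [hT]; linarith [norm_nonneg (μ 0 - μ 1)]
  have hT0 : 0 < T := by linarith
  have hlT : 0 ≤ Real.log T := Real.log_nonneg hT1
  by_contra hcon
  push Not at hcon
  set P : ℝ := A * T ^ c with hP
  have hlP : Real.log P = (x * (1 + A₁ / D) + x) + c * Real.log T := by
    rw [hP, Real.log_mul (Real.exp_pos _).ne' (by positivity), Real.log_exp, Real.log_rpow hT0]
  have hlPx : x * (1 + A₁ / D) + x ≤ Real.log P := by
    rw [hlP]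
    have := mul_nonneg hc0.le hlT
    linarith
  have hAD : 0 ≤ A₁ / D := by positivity
  have hlP0 : x ≤ Real.log P := by
    have := mul_nonneg hx0.le (add_nonneg zero_le_one hAD)
    linarith
  have hPpos : 0 < P := by positivity
  have hP1 : 1 ≤ P := by
    by_contra h2
    have := Real.log_neg hPpos (not_le.1 h2)
    linarith
  have hs : 1 ≤ Real.log P / x := by rwa [one_le_div hx0]
  set s : ℝ := Real.log P / x with hsd
  have hs0 : 0 < s := by linarith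
  have hLs : Real.log P / s = x := by
    have : Real.log P ≠ 0 := by linarith
    rw [hsd]
    field_simp
  set w : Nat.Primes → ℝ := fun p => Real.log ((p : ℕ) : ℝ) / ((p : ℕ) : ℝ) *
        Real.exp (-(Real.log ((p : ℕ) : ℝ)) ^ 2 / (2 * s ^ 2)) with hw
  have hw0 : ∀ p, 0 ≤ w p := fun p =>
    mul_nonneg (div_nonneg (log_prime_nonneg p) (prime_pos p).le) (Real.exp_pos _).le
  -- the main inequality for all cutoffs
  have hmain : ∀ u : ℝ, x ≤ u → 11 / 16 * (s * II u) + 841 / 80 * (s * II x) ≤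
      9 / 5 * κ * s + (1 / 4 + ε) * (34 / 5) * Real.log T + A₁ := by
    intro u hu
    set P' : ℝ := Real.exp (u * s) with hP'
    have hPP' : P ≤ P' := by
      rw [← Real.exp_log hPpos, hP']
      refine Real.exp_le_exp.2 ?_
      have : Real.log P = x * s := by
        rw [hsd]
        field_simp
      rw [this]
      exact mul_le_mul_of_nonneg_right hu hs0.le
    have hP'1 : 1 ≤ P' := hP1.trans hPP'
    have hlP' : Real.log P' / s = u := by
      rw [hP', Real.log_exp]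
      field_simp
    have h2 := hB2 α μ h.form h.b2 h.r2 s hs (pf P')
    have h3 := hB3 (sq2 α) (sqμ μ) h.symSq h.b3 h.r3 s hs (pf P')
    have g1 := hG s hs0 P hP1
    have g2 := hG s hs0 P' hP'1
    rw [II_scale hs0, hLs] at g1
    rw [II_scale hs0, hlP'] at g2
    have hsub : pf P ⊆ pf P' := fun p hp => by
      rw [mem_pf] at hp ⊢
      exact hp.trans hPP'
    have hkey : 11 / 16 * ∑ p ∈ pf P', w p + 841 / 80 * ∑ p ∈ pf P, w p ≤
        ∑ p ∈ pf P', ‖∑ i, α p i‖ ^ 2 * (Real.log ((p : ℕ) : ℝ) / ((p : ℕ) : ℝ)) *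
            Real.exp (-(Real.log ((p : ℕ) : ℝ)) ^ 2 / (2 * s ^ 2)) +
        4 / 5 * ∑ p ∈ pf P', ‖∑ i, sq2 α p i‖ ^ 2 * (Real.log ((p : ℕ) : ℝ) / ((p : ℕ) : ℝ)) *
            Real.exp (-(Real.log ((p : ℕ) : ℝ)) ^ 2 / (2 * s ^ 2)) := by
      have h4 : ∑ p ∈ pf P, w p = ∑ p ∈ pf P', if p ∈ pf P then w p else 0 := by
        rw [← Finset.sum_filter]
        congr 1
        ext p
        simp only [Finset.mem_filter]
        exact ⟨fun hp => ⟨hsub hp, hp⟩, fun hp => hp.2⟩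
      rw [h4, Finset.mul_sum, Finset.mul_sum, Finset.mul_sum, ← Finset.sum_add_distrib, ← Finset.sum_add_distrib]
      refine Finset.sum_le_sum fun p _ => ?_
      obtain ⟨t, ht1, ht2⟩ := h.trace p
      rw [ht1, ht2, Complex.norm_real, Complex.norm_real, Real.norm_eq_abs, Real.norm_eq_abs, sq_abs, sq_abs]
      have h5 : t ^ 2 * (Real.log ((p : ℕ) : ℝ) / ((p : ℕ) : ℝ)) *
            Real.exp (-(Real.log ((p : ℕ) : ℝ)) ^ 2 / (2 * s ^ 2)) +
          4 / 5 * ((t ^ 2 - 1) ^ 2 * (Real.log ((p : ℕ) : ℝ) / ((p : ℕ) : ℝ)) *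
            Real.exp (-(Real.log ((p : ℕ) : ℝ)) ^ 2 / (2 * s ^ 2))) =
          (11 / 16 + 4 / 5 * (t ^ 2 - 3 / 8) ^ 2) * w p := by
        simp only [hw]
        ring
      rw [h5]
      split_ifs with hp
      · have h6 : 4 ≤ t ^ 2 := by
          by_contra h7
          push Not at h7
          rw [mem_pf] at hp
          obtain ⟨i, hi⟩ := hcon p hp
          refine hi (two_tempered (h.form.ne_zero p) (h.form.unitary p) (h.det p) ?_ i)
          rw [Fin.sum_univ_two] at ht1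
          rw [ht1, Complex.norm_real, Real.norm_eq_abs]
          refine abs_lt_of_sq_lt_sq (by linarith) (by norm_num)
        have h7 : 841 / 64 ≤ (t ^ 2 - 3 / 8) ^ 2 := by nlinarith
        have h8 := mul_le_mul_of_nonneg_right h7 (hw0 p)
        nlinarith [hw0 p]
      · have h8 := mul_nonneg (sq_nonneg (t ^ 2 - 3 / 8)) (hw0 p)
        nlinarith [hw0 p]
    have hC2 : Real.log (∏ i, ∏ j, (1 + ‖μ i - μ j‖)) = 2 * Real.log T := by
      rw [condC2, ← hT, Real.log_pow]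
      norm_num
    have hC3 := logC3 h.tr
    rw [← hT] at hC3
    rw [hC2] at h2
    have h5 : (1 / 4 + ε) * Real.log (∏ i, ∏ j, (1 + ‖sqμ μ i - sqμ μ j‖)) ≤
        (1 / 4 + ε) * (6 * Real.log T + 2) := mul_le_mul_of_nonneg_left hC3 (by linarith)
    simp only [hw] at hkey
    rw [← hκ] at h2 h3
    linarith
  -- the limit
  have hlim : 11 / 16 * (s * κ) + 841 / 80 * (s * II x) ≤
      9 / 5 * κ * s + (1 / 4 + ε) * (34 / 5) * Real.log T + A₁ := by
    have h1 : Tendsto (fun u => 11 / 16 * (s * II u) + 841 / 80 * (s * II x)) atTop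
        (𝓝 (11 / 16 * (s * κ) + 841 / 80 * (s * II x))) :=
      ((II_tendsto.const_mul s).const_mul _).add_const _
    refine le_of_tendsto h1 ?_
    filter_upwards [eventually_ge_atTop x] with u hu
    exact hmain u hu
  have h4 : s * D ≤ (1 / 4 + ε) * (34 / 5) * Real.log T + A₁ := by
    rw [hD]
    linarith
  have h5 : s * D = ((x * (1 + A₁ / D) + x) + c * Real.log T) * D / x := by
    rw [hsd, hlP]
    ring
  have h6 : (1 / 4 + ε) * (34 / 5) = c * D / x := by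
    have e1 : 1 / 4 + ε = c * D / (x * (34 / 5)) := by rw [hε]; ring
    rw [e1]
    field_simp
  rw [h5, h6] at h4
  have h7 : ((x * (1 + A₁ / D) + x) + c * Real.log T) * D / x = D + A₁ + D + c * D / x * Real.log T := by
    have hx1 : x ≠ 0 := hx0.ne'
    have hD1 : D ≠ 0 := hD0.ne'
    clear_value D
    field_simp
  rw [h7] at h4
  linarith

/-- **The least tempered prime for `n = 2`** -/
theorem sym_least : ∃ A : ℝ, 0 < A ∧ ∀ (α : Nat.Primes → Fin 2 → ℂ) (μ : Fin 2 → ℂ), FormSym α μ →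
    ∃ p : Nat.Primes, ((p : ℕ) : ℝ) ≤ A * (1 + ‖μ 0 - μ 1‖) ^ (439 / 2000 : ℝ) ∧ ∀ i, ‖α p i‖ = 1 := by
  have hκ1 := sqrt_pi_half
  have hII : 0.7076 ≤ II (39 / 50) := by
    refine le_trans ?_ (II_ge (by norm_num))
    norm_num
  have hD1 : 6.0442 ≤ 841 / 80 * II (39 / 50) - 89 / 80 * √(Real.pi / 2) := by
    norm_num at hII hκ1 ⊢
    linarith
  refine sym_gen (x := 39 / 50) (by norm_num) (by linarith) ?_
  norm_num at hD1 ⊢
  linarith

/-- the mass of the primes with a small eigenvalue -/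
theorem mass {n : ℕ} (hn : 2 ≤ n) {M ε : ℝ} (hM : 1 ≤ M) (hε : 0 < ε) : ∃ A : ℝ, 0 < A ∧
    ∀ (α : Nat.Primes → Fin n → ℂ) (μ : Fin n → ℂ), SphericalCuspForm α μ →
      (∀ (p : Nat.Primes) i, ‖α p i‖ < ((p : ℕ) : ℝ) ^ (1 / 2 : ℝ)) → (∀ i, |(μ i).re| < 1 / 2) →
      ∀ P : ℝ, 1 ≤ P → ∀ S : Finset Nat.Primes, (∀ p : Nat.Primes, ((p : ℕ) : ℝ) ≤ P → ‖∑ i, α p i‖ < M → p ∈ S) →
        (1 - 1 / M ^ 2) * Real.log P - 1 / (2 * M ^ 2) * Real.log (∏ i, ∏ j, (1 + ‖μ i - μ j‖)) -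
          ε * Real.log (P * ∏ i, ∏ j, (1 + ‖μ i - μ j‖)) - A ≤
        ∑ p ∈ S, Real.log ((p : ℕ) : ℝ) / ((p : ℕ) : ℝ) := by
  have hM0 : 0 < M := by linarith
  obtain ⟨A, hA, h1⟩ := main hn hM (ε := M ^ 2 * ε) (by positivity)
  refine ⟨A / M ^ 2, by positivity, fun α μ h hα hμ P hP S hS => ?_⟩
  have h2 := h1 α μ h hα hμ P hP
  have h3 : ∑ p ∈ pf P, max 0 (M ^ 2 - ‖∑ i, α p i‖ ^ 2) * (Real.log ((p : ℕ) : ℝ) / ((p : ℕ) : ℝ)) ≤
      M ^ 2 * ∑ p ∈ S, Real.log ((p : ℕ) : ℝ) / ((p : ℕ) : ℝ) := by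
    classical
    have h4 : ∀ p : Nat.Primes, 0 ≤ Real.log ((p : ℕ) : ℝ) / ((p : ℕ) : ℝ) := fun p =>
      div_nonneg (log_prime_nonneg p) (prime_pos p).le
    rw [Finset.mul_sum, ← Finset.sum_filter_add_sum_filter_not (pf P) fun p => ‖∑ i, α p i‖ < M]
    have h5 : ∑ p ∈ (pf P).filter (fun p => ¬ ‖∑ i, α p i‖ < M), max 0 (M ^ 2 - ‖∑ i, α p i‖ ^ 2) *
        (Real.log ((p : ℕ) : ℝ) / ((p : ℕ) : ℝ)) = 0 := by
      refine Finset.sum_eq_zero fun p hp => ?_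
      have h6 := not_lt.1 (Finset.mem_filter.1 hp).2
      have h7 : max 0 (M ^ 2 - ‖∑ i, α p i‖ ^ 2) = 0 := max_eq_left (by nlinarith)
      rw [h7, zero_mul]
    rw [h5, add_zero]
    refine (Finset.sum_le_sum (g := fun p : Nat.Primes => M ^ 2 * (Real.log ((p : ℕ) : ℝ) / ((p : ℕ) : ℝ)))
      fun p hp => ?_).trans (Finset.sum_le_sum_of_subset_of_nonneg (fun p hp => ?_) fun p _ _ =>
        mul_nonneg (by positivity) (h4 p))
    · refine mul_le_mul_of_nonneg_right (max_le (by positivity) ?_) (h4 p)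
      linarith [sq_nonneg ‖∑ i, α p i‖]
    · rw [Finset.mem_filter, mem_pf] at hp
      exact hS p hp.1 hp.2
  have h4 := h2.trans h3
  have h5 : 0 < M ^ 2 := by positivity
  refine le_of_mul_le_mul_left (le_trans (le_of_eq ?_) h4) h5
  field_simp

end Pool.Agent.U985.UT
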