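import Pool.Agent.U985.UT.Mark
import Pool.Agent.TH949.LT.ExpSum

/-! Smoothed sums of the coefficients of the exponential of a Dirichlet series with nonnegative coefficients. -/

set_option autoImplicit false

namespace Pool.Agent.U985.UT

open scoped ENNReal
open Pool.Agent.TH949.LT (TT Lam cc)

variable {X : Type}

/-- the kernel -/
noncomputable def KK (v : ℝ) : ℝ := Real.exp (-(v ^ 2 / 4))

theorem KK_pos (v : ℝ) : 0 < KK v := Real.exp_pos _

/-- the smoothed sums -/
noncomputable def SS (w L : X → ℝ) (y : ℝ) : ℝ :=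
  ∑' l : TT X, cc w l * (Real.exp (-Lam L l) * KK (y - Lam L l))

theorem kk_shift {v : ℝ} : -v * KK v ≤ 3 * KK (v + 1) := by
  rcases le_or_gt 0 v with h | h
  · have h1 := KK_pos v
    have h2 := KK_pos (v + 1)
    nlinarith
  · have e : KK (v + 1) = KK v * Real.exp (-v / 2 - 1 / 4) := by
      unfold KK
      rw [← Real.exp_add]
      congr 1
      ring
    rw [e]
    have h1 := KK_pos v
    have h2 : Real.exp (-v / 2 - 1 / 4) ≥ (-v / 2 - 1 / 4) + 1 := Real.add_one_le_exp _
    have h3 : -v ≤ 3 * Real.exp (-v / 2 - 1 / 4) := by linarith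
    calc -v * KK v ≤ (3 * Real.exp (-v / 2 - 1 / 4)) * KK v := mul_le_mul_of_nonneg_right h3 h1.le
      _ = _ := by ring

theorem kk_bound (y t : ℝ) : Real.exp (-t) * KK (y - t) ≤ Real.exp (y + 1) * Real.exp (-(2 * t)) := by
  unfold KK
  rw [← Real.exp_add, ← Real.exp_add]
  refine Real.exp_le_exp.2 ?_
  nlinarith [sq_nonneg (y - t + 2)]

theorem cc_nonneg' {w : X → ℝ} (hw : ∀ x, 0 ≤ w x) (l : TT X) : 0 ≤ cc w l := by
  unfold cc
  exact div_nonneg (Finset.prod_nonneg fun i _ => hw _) (Nat.cast_nonneg _)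

theorem summ_cc {w L : X → ℝ} (hw : ∀ x, 0 ≤ w x) {σ : ℝ}
    (hs : Summable fun x => w x * Real.exp (-(σ * L x))) :
    Summable fun l : TT X => cc w l * Real.exp (-(σ * Lam L l)) := by
  have h1 := (Pool.Agent.TH949.LT.cc_abs (d := w) (L := L) (σ := σ) (hs.congr fun x => by
    rw [abs_of_nonneg (hw x)])).summable
  refine h1.congr fun l => ?_
  rw [abs_of_nonneg (cc_nonneg' hw l)]

theorem summ_SS {w L : X → ℝ} (hw : ∀ x, 0 ≤ w x)
    (hs : Summable fun x => w x * Real.exp (-(2 * L x))) (y : ℝ) :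
    Summable fun l : TT X => cc w l * (Real.exp (-Lam L l) * KK (y - Lam L l)) := by
  refine Summable.of_nonneg_of_le (fun l => ?_) (fun l => ?_) ((summ_cc hw hs).mul_left (Real.exp (y + 1)))
  · have := cc_nonneg' hw l
    have := KK_pos (y - Lam L l)
    positivity
  · have h1 := mul_le_mul_of_nonneg_left (kk_bound y (Lam L l)) (cc_nonneg' hw l)
    calc _ ≤ _ := h1
      _ = _ := by ring

theorem SS_nonneg {w : X → ℝ} (L : X → ℝ) (hw : ∀ x, 0 ≤ w x) (y : ℝ) : 0 ≤ SS w L y :=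
  tsum_nonneg fun l => by
    have := cc_nonneg' hw l
    have := KK_pos (y - Lam L l)
    positivity

theorem ofReal_cc {w : X → ℝ} (hw : ∀ x, 0 ≤ w x) (l : TT X) :
    (∏ i, ENNReal.ofReal (w (l.2 i))) / (l.1.factorial : ℝ≥0∞) = ENNReal.ofReal (cc w l) := by
  unfold cc
  rw [ENNReal.ofReal_div_of_pos (by positivity), ENNReal.ofReal_prod_of_nonneg fun i _ => hw _,
    ENNReal.ofReal_natCast]

/-- **Lemma A** -/
theorem lemA {w L : X → ℝ} (hw : ∀ x, 0 ≤ w x) (hL : ∀ x, 0 ≤ L x)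
    (hs : Summable fun x => w x * Real.exp (-(2 * L x))) (T : Finset X) {y : ℝ} (hy : 0 ≤ y) :
    ∑ x ∈ T, w x * L x * Real.exp (-L x) * SS w L (y - L x) ≤ y * SS w L y + 3 * SS w L (y + 1) := by
  set g : ℝ → ℝ≥0∞ := fun t => ENNReal.ofReal (Real.exp (-t) * KK (y - t)) with hg
  have hm := mark (fun x => ENNReal.ofReal (w x)) (fun x => ENNReal.ofReal (L x)) L g
  have hLam : ∀ l : TT X, 0 ≤ Lam L l := fun l => Finset.sum_nonneg fun _ _ => hL _
  -- the right side
  have hR : ∀ x, ∑' l : (Σ k : ℕ, (Fin k → X)), (∏ i, ENNReal.ofReal (w (l.2 i))) / (l.1.factorial : ℝ≥0∞) *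
      g (L x + ∑ i, L (l.2 i)) = ENNReal.ofReal (Real.exp (-L x) * SS w L (y - L x)) := by
    intro x
    unfold SS
    rw [← tsum_mul_left, ENNReal.ofReal_tsum_of_nonneg (fun l => by
      have := cc_nonneg' hw l
      have := KK_pos (y - L x - Lam L l)
      positivity) ((summ_SS hw hs (y - L x)).mul_left _)]
    refine tsum_congr fun l => ?_
    rw [ofReal_cc hw l, hg]
    simp only
    rw [← ENNReal.ofReal_mul (cc_nonneg' hw l)]
    congr 1
    have e1 : Real.exp (-(L x + ∑ i, L (l.2 i))) = Real.exp (-L x) * Real.exp (-Lam L l) := by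
      rw [← Real.exp_add]
      congr 1
      unfold Lam
      ring
    have e2 : y - (L x + ∑ i, L (l.2 i)) = y - L x - Lam L l := by
      unfold Lam
      ring
    rw [e1, e2]
    ring
  simp_rw [hR] at hm
  -- the left side
  have hnn : 0 ≤ y * SS w L y + 3 * SS w L (y + 1) := by
    have := SS_nonneg L hw y
    have := SS_nonneg L hw (y + 1)
    positivity
  have hLft : ∑' l : (Σ k : ℕ, (Fin k → X)), (∏ i, ENNReal.ofReal (w (l.2 i))) / (l.1.factorial : ℝ≥0∞) *
      (∑ i, ENNReal.ofReal (L (l.2 i))) * g (∑ i, L (l.2 i)) ≤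
        ENNReal.ofReal (y * SS w L y + 3 * SS w L (y + 1)) := by
    have h1 : y * SS w L y + 3 * SS w L (y + 1) = ∑' l : TT X,
        (y * (cc w l * (Real.exp (-Lam L l) * KK (y - Lam L l))) +
          3 * (cc w l * (Real.exp (-Lam L l) * KK (y + 1 - Lam L l)))) := by
      unfold SS
      rw [((summ_SS hw hs y).mul_left y).tsum_add ((summ_SS hw hs (y + 1)).mul_left 3), tsum_mul_left, tsum_mul_left]
    rw [h1, ENNReal.ofReal_tsum_of_nonneg (fun l => by
      have := cc_nonneg' hw l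
      have := KK_pos (y - Lam L l)
      have := KK_pos (y + 1 - Lam L l)
      positivity) (((summ_SS hw hs y).mul_left y).add ((summ_SS hw hs (y + 1)).mul_left 3))]
    refine ENNReal.tsum_le_tsum fun l => ?_
    rw [ofReal_cc hw l, ← ENNReal.ofReal_sum_of_nonneg fun i _ => hL _, hg]
    simp only
    have eL : ∑ i, L (l.2 i) = Lam L l := rfl
    rw [eL, ← ENNReal.ofReal_mul (cc_nonneg' hw l), ← ENNReal.ofReal_mul (mul_nonneg (cc_nonneg' hw l) (hLam l))]
    refine ENNReal.ofReal_le_ofReal ?_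
    change cc w l * Lam L l * (Real.exp (-Lam L l) * KK (y - Lam L l)) ≤ _
    have h2 := kk_shift (v := y - Lam L l)
    have e : y - Lam L l + 1 = y + 1 - Lam L l := by ring
    rw [e] at h2
    have h3 : Lam L l * KK (y - Lam L l) ≤ y * KK (y - Lam L l) + 3 * KK (y + 1 - Lam L l) := by linarith
    have h4 : 0 ≤ cc w l * Real.exp (-Lam L l) := mul_nonneg (cc_nonneg' hw l) (Real.exp_pos _).le
    calc _ = cc w l * Real.exp (-Lam L l) * (Lam L l * KK (y - Lam L l)) := by ring
      _ ≤ cc w l * Real.exp (-Lam L l) * (y * KK (y - Lam L l) + 3 * KK (y + 1 - Lam L l)) :=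
          mul_le_mul_of_nonneg_left h3 h4
      _ = _ := by ring
  rw [hm] at hLft
  have hfin := (ENNReal.sum_le_tsum T).trans hLft
  have h5 : ∑ x ∈ T, ENNReal.ofReal (w x) * ENNReal.ofReal (L x) *
      ENNReal.ofReal (Real.exp (-L x) * SS w L (y - L x)) =
      ENNReal.ofReal (∑ x ∈ T, w x * L x * Real.exp (-L x) * SS w L (y - L x)) := by
    rw [ENNReal.ofReal_sum_of_nonneg fun x _ => by
      have := hw x
      have := hL x
      have := SS_nonneg L hw (y - L x)
      positivity]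
    refine Finset.sum_congr rfl fun x _ => ?_
    rw [← ENNReal.ofReal_mul (hw x), ← ENNReal.ofReal_mul (mul_nonneg (hw x) (hL x))]
    congr 1
    ring
  rw [h5] at hfin
  exact (ENNReal.ofReal_le_ofReal_iff hnn).1 hfin

/-- **Lemma B** -/
theorem lemB {w L : X → ℝ} (hw : ∀ x, 0 ≤ w x) (hL : ∀ x, 0 ≤ L x)
    (hs : Summable fun x => w x * Real.exp (-(2 * L x))) (T : Finset X) {u : ℝ} (hT : ∀ x ∈ T, L x ≤ u)
    (k : ℕ) : Real.exp (-(1 / 4)) * ((∑ x ∈ T, w x) ^ k / (k.factorial : ℝ)) * Real.exp (-(k * u)) ≤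
      ∑ j ∈ Finset.range (⌊k * u⌋₊ + 1), Real.exp (-(j : ℝ)) * SS w L (k * u - j) := by
  classical
  set y : ℝ := k * u with hy
  set A : Finset (TT X) := (Fintype.piFinset fun _ : Fin k => T).map
    ⟨fun x => (⟨k, x⟩ : TT X), fun a b h => by simpa using h⟩ with hA
  have hlen : ∀ l ∈ A, Lam L l ≤ y := by
    intro l hl
    rw [hA, Finset.mem_map] at hl
    obtain ⟨x, hx, rfl⟩ := hl
    rw [Fintype.mem_piFinset] at hx
    change ∑ i, L (x i) ≤ y
    calc ∑ i, L (x i) ≤ ∑ _i : Fin k, u := Finset.sum_le_sum fun i _ => hT _ (hx i)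
      _ = y := by simp [hy]
  have hsum : ∑ l ∈ A, cc w l = (∑ x ∈ T, w x) ^ k / (k.factorial : ℝ) := by
    rw [hA, Finset.sum_map]
    change ∑ x ∈ Fintype.piFinset (fun _ : Fin k => T), (∏ i, w (x i)) / (k.factorial : ℝ) = _
    rw [← Finset.sum_div]
    congr 1
    have h1 := Finset.prod_univ_sum (fun _ : Fin k => T) (fun _ x => w x)
    rw [← h1]
    simp
  rw [← hsum, Finset.mul_sum, Finset.sum_mul]
  have hpt : ∀ l ∈ A, Real.exp (-(1 / 4)) * cc w l * Real.exp (-y) ≤
      ∑ j ∈ Finset.range (⌊y⌋₊ + 1), Real.exp (-(j : ℝ)) *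
        (cc w l * (Real.exp (-Lam L l) * KK (y - j - Lam L l))) := by
    intro l hl
    have h0 : 0 ≤ y - Lam L l := by linarith [hlen l hl]
    have hLl : 0 ≤ Lam L l := Finset.sum_nonneg fun _ _ => hL _
    set j0 : ℕ := ⌊y - Lam L l⌋₊ with hj0
    have h1 : (j0 : ℝ) ≤ y - Lam L l := Nat.floor_le h0
    have h2 : y - Lam L l < j0 + 1 := Nat.lt_floor_add_one _
    have hj : j0 ∈ Finset.range (⌊y⌋₊ + 1) := by
      rw [Finset.mem_range, Nat.lt_succ_iff]
      exact Nat.floor_mono (by linarith)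
    refine le_trans ?_ (Finset.single_le_sum (f := fun j : ℕ => Real.exp (-(j : ℝ)) *
        (cc w l * (Real.exp (-Lam L l) * KK (y - j - Lam L l)))) (fun j _ => by
      have := cc_nonneg' hw l
      have := KK_pos (y - j - Lam L l)
      positivity) hj)
    have h3 : Real.exp (-(1 / 4)) ≤ KK (y - j0 - Lam L l) := by
      unfold KK
      refine Real.exp_le_exp.2 ?_
      nlinarith
    have h4 : Real.exp (-y) ≤ Real.exp (-(j0 : ℝ)) * Real.exp (-Lam L l) := by
      rw [← Real.exp_add]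
      exact Real.exp_le_exp.2 (by linarith)
    have h5 := cc_nonneg' hw l
    calc Real.exp (-(1 / 4)) * cc w l * Real.exp (-y)
        ≤ KK (y - j0 - Lam L l) * cc w l * (Real.exp (-(j0 : ℝ)) * Real.exp (-Lam L l)) := by
          refine mul_le_mul (mul_le_mul_of_nonneg_right h3 h5) h4 (Real.exp_pos _).le
            (mul_nonneg (KK_pos _).le h5)
      _ = _ := by ring
  refine (Finset.sum_le_sum hpt).trans ?_
  rw [Finset.sum_comm]
  refine Finset.sum_le_sum fun j _ => ?_
  rw [← Finset.mul_sum]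
  refine mul_le_mul_of_nonneg_left ?_ (Real.exp_pos _).le
  exact (summ_SS hw hs (y - j)).sum_le_tsum A fun l _ => by
    have := cc_nonneg' hw l
    have := KK_pos (y - j - Lam L l)
    positivity

end Pool.Agent.U985.UT
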