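import Pool.Agent.N846.DT.Diag
import Pool.Agent.N846.DT.Gam
import Pool.Agent.N846.DT.Master
import Pool.Agent.N846.DT.Pair
import Pool.Agent.U985.UT.Sums

/-! The smoothed sums of the coefficients of `L(s, π × π~)`. -/

set_option autoImplicit false

namespace Pool.Agent.U985.UT

open Complex MeasureTheory Filter Topology
open Pool.Agent.TH949.RES (SphericalCuspForm logL)
open Pool.Agent.TH949.LT (TT Lam cc gauss_line norm_exp_sq)
open Pool.Agent.N846.DT
open Pool.Agent.W189.TP (DS)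

section expand

variable {ι : Type} {c Λ : ι → ℝ}

theorem gauss_int (b : ℝ) : Integrable fun v : ℝ => Real.exp (b ^ 2 - v ^ 2) := by
  have h1 : Integrable fun v : ℝ => Real.exp (b ^ 2) * Real.exp (-1 * v ^ 2) :=
    (integrable_exp_neg_mul_sq one_pos).const_mul _
  refine h1.congr (Eventually.of_forall fun v => ?_)
  simp only
  rw [← Real.exp_add]
  congr 1
  ring

theorem expandK [Countable ι] (hc : ∀ l, 0 ≤ c l) {b : ℝ} {F : ℂ → ℂ}
    (hs : Summable fun l => c l * Real.exp (-((1 + b) * Λ l)))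
    (hF : ∀ v : ℝ, HasSum (fun l => (c l : ℂ) * cexp (-((1 + ((b : ℂ) + v * I)) * Λ l))) (F (b + v * I)))
    (y : ℝ) :
    HasSum (fun l => ((√Real.pi * (c l * (Real.exp (-Λ l) * KK (y - Λ l))) : ℝ) : ℂ))
      (∫ v : ℝ, F (b + v * I) * cexp ((b + v * I) * y) * cexp ((b + v * I) ^ 2)) := by
  set G : ι → ℝ → ℂ := fun l v => ((c l : ℂ) * cexp (-((1 + ((b : ℂ) + v * I)) * Λ l))) *
    cexp ((b + v * I) * y) * cexp ((b + v * I) ^ 2) with hG
  have hGn : ∀ l v, ‖G l v‖ = c l * Real.exp (-((1 + b) * Λ l)) * (Real.exp (b * y) * Real.exp (b ^ 2 - v ^ 2)) := by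
    intro l v
    rw [hG]
    simp only
    rw [norm_mul, norm_mul, norm_mul, Complex.norm_real, Real.norm_of_nonneg (hc l), norm_exp_sq,
      Complex.norm_exp, Complex.norm_exp]
    have e1 : (-((1 + ((b : ℂ) + v * I)) * Λ l)).re = -((1 + b) * Λ l) := by simp
    have e2 : (((b : ℂ) + v * I) * y).re = b * y := by simp
    have e3 : ((b : ℂ) + v * I).re ^ 2 - ((b : ℂ) + v * I).im ^ 2 = b ^ 2 - v ^ 2 := by simp
    rw [e1, e2, e3]
    ring
  have hGi : ∀ l, Integrable (G l) := by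
    intro l
    have h1 : Integrable fun v : ℝ =>
        c l * Real.exp (-((1 + b) * Λ l)) * (Real.exp (b * y) * Real.exp (b ^ 2 - v ^ 2)) :=
      ((gauss_int b).const_mul _).const_mul _
    refine h1.mono' ?_ (Eventually.of_forall fun v => (hGn l v).le)
    refine Continuous.aestronglyMeasurable ?_
    rw [hG]
    fun_prop
  have h2 : Summable fun l => ∫ v : ℝ, ‖G l v‖ := by
    have : ∀ l, ∫ v : ℝ, ‖G l v‖ =
        c l * Real.exp (-((1 + b) * Λ l)) * ∫ v : ℝ, Real.exp (b * y) * Real.exp (b ^ 2 - v ^ 2) := by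
      intro l
      rw [← integral_const_mul]
      congr 1
      ext v
      exact hGn l v
    simp_rw [this]
    exact hs.mul_right _
  have h3 := hasSum_integral_of_summable_integral_norm hGi h2
  have h4 : ∀ v : ℝ, ∑' l, G l v = F (b + v * I) * cexp ((b + v * I) * y) * cexp ((b + v * I) ^ 2) := by
    intro v
    exact (((hF v).mul_right (cexp ((b + v * I) * y))).mul_right (cexp ((b + v * I) ^ 2))).tsum_eq
  simp_rw [h4] at h3
  refine h3.congr_fun fun l => ?_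
  have h6 := gauss_line b (y - Λ l)
  have h7 : ∀ v : ℝ, G l v = (c l : ℂ) * cexp (-(Λ l : ℂ)) *
      cexp (((b : ℂ) + v * I) ^ 2 + (b + v * I) * (y - Λ l : ℝ)) := by
    intro v
    rw [hG]
    simp only
    rw [mul_assoc (c l : ℂ), mul_assoc (c l : ℂ), mul_assoc (c l : ℂ), ← Complex.exp_add, ← Complex.exp_add,
      ← Complex.exp_add]
    congr 2
    push_cast
    ring
  simp_rw [h7]
  rw [integral_const_mul, h6]
  unfold KK
  push_cast
  have e : -((y : ℂ) - Λ l) ^ 2 / 4 = -(((y : ℂ) - Λ l) ^ 2 / 4) := by ring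
  rw [e]
  ring

end expand

variable {n : ℕ}

/-- the weights -/
noncomputable def wX (α : Nat.Primes → Fin n → ℂ) (x : PX) : ℝ := ‖uX α x‖ ^ 2

theorem wX_nonneg (α : Nat.Primes → Fin n → ℂ) (x : PX) : 0 ≤ wX α x := sq_nonneg _

theorem logL_DS (α : Nat.Primes → Fin n → ℂ) (s : ℂ) : logL α s = DS (wX α) LX s := by
  unfold logL DS wX
  refine tsum_congr fun x => ?_
  rw [PairAux.exp_LX, uX_sq]

theorem summ_wX {α : Nat.Primes → Fin n → ℂ} {μ : Fin n → ℂ} (h : SphericalCuspForm α μ) {σ : ℝ} (hσ : 1 < σ) :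
    Summable fun x : PX => wX α x * Real.exp (-(σ * LX x)) := summable_uX h hσ

theorem norm_Gammaℝ_conj (z : ℂ) : ‖Gammaℝ ((starRingEnd ℂ) z)‖ = ‖Gammaℝ z‖ := by
  rw [Complex.Gammaℝ_def, Complex.Gammaℝ_def, norm_mul, norm_mul]
  have hpi : (0 : ℝ) < Real.pi := Real.pi_pos
  rw [Complex.norm_cpow_eq_rpow_re_of_pos hpi, Complex.norm_cpow_eq_rpow_re_of_pos hpi]
  have h2 : (starRingEnd ℂ) (2 : ℂ) = 2 := by
    apply Complex.ext <;> simp
  have e1 : (starRingEnd ℂ) z / 2 = (starRingEnd ℂ) (z / 2) := by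
    rw [map_div₀, h2]
  have e2 : (-(starRingEnd ℂ) z / 2).re = (-z / 2).re := by
    have : -(starRingEnd ℂ) z / 2 = (starRingEnd ℂ) (-z / 2) := by
      rw [map_div₀, map_neg, h2]
    rw [this, Complex.conj_re]
  rw [e1, e2, Complex.Gamma_conj, RCLike.norm_conj]

/-- the size of `L(s, π × π~)` on the left -/
theorem left_size {σ₀ : ℝ} (hσ : 0 < σ₀) : ∃ C : ℝ, 0 < C ∧ ∀ (α : Nat.Primes → Fin n → ℂ) (μ : Fin n → ℂ),
    SphericalCuspForm α μ → (∀ i, |(μ i).re| < 1 / 2) →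
    ∀ G Ξ : ℂ → ℂ, Differentiable ℂ G → Differentiable ℂ Ξ →
    (∀ s : ℂ, 1 < s.re → G s = (s - 1) * cexp (logL α s)) →
    (∀ s : ℂ, 1 < s.re → Ξ s = s * G s * ∏ i, ∏ j, Gammaℝ (s + (μ i - μ j))) →
    (∀ s : ℂ, Ξ (1 - s) = Ξ s) → ∀ t : ℝ,
    ‖G (((-σ₀ : ℝ) : ℂ) + t * I) / ((((-σ₀ : ℝ) : ℂ) + t * I) - 1)‖ ≤
      C * ((1 + |t|) ^ (n * n) * ∏ i, ∏ j, (1 + ‖μ i - μ j‖)) ^ (1 / 2 + σ₀) *
        Real.exp (∑' x : PX, wX α x * Real.exp (-((1 + σ₀) * LX x))) := by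
  obtain ⟨C, hC, hGam⟩ := gam σ₀ hσ
  refine ⟨C ^ (n * n), pow_pos hC _, ?_⟩
  intro α μ hα hμ G Ξ hG hΞ hGe hΞe hfe t
  have hκ1 : ∀ i j, -1 < (μ i - μ j).re := by
    intro i j
    have h1 := abs_lt.1 (hμ i)
    have h2 := abs_lt.1 (hμ j)
    rw [Complex.sub_re]
    linarith
  have hκ2 : ∀ i j, (μ i - μ j).re < 1 := by
    intro i j
    have h1 := abs_lt.1 (hμ i)
    have h2 := abs_lt.1 (hμ j)
    rw [Complex.sub_re]
    linarith
  -- the identity everywhere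
  have key : ∀ s : ℂ, s * G s = Ξ s * ∏ i, ∏ j, (Gammaℝ (s + (μ i - μ j)))⁻¹ := by
    set H : ℂ → ℂ := fun s => Ξ s * ∏ i, ∏ j, (Gammaℝ (s + (μ i - μ j)))⁻¹ with hH
    have hHd : Differentiable ℂ H := by
      refine hΞ.mul ?_
      refine Differentiable.fun_finsetProd fun i _ => ?_
      refine Differentiable.fun_finsetProd fun j _ => ?_
      exact differentiable_Gammaℝ_inv.comp (by fun_prop)
    have hFd : Differentiable ℂ fun s => s * G s := differentiable_id.mul hG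
    have hev : (fun s => s * G s) =ᶠ[𝓝 (3 : ℂ)] H := by
      have hopen : IsOpen {s : ℂ | 1 < s.re} := isOpen_lt continuous_const Complex.continuous_re
      filter_upwards [hopen.mem_nhds (show (3 : ℂ) ∈ {s : ℂ | 1 < s.re} by simp)] with s hs
      have hs' : 1 < s.re := hs
      simp only [hH]
      rw [hΞe s hs']
      have hp : ∏ i, ∏ j, Gammaℝ (s + (μ i - μ j)) ≠ 0 := by
        refine Finset.prod_ne_zero_iff.2 fun i _ => Finset.prod_ne_zero_iff.2 fun j _ =>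
          Gammaℝ_ne_zero_of_re_pos ?_
        have := hκ1 i j
        rw [Complex.add_re]
        linarith
      have e : ∏ i, ∏ j, (Gammaℝ (s + (μ i - μ j)))⁻¹ = (∏ i, ∏ j, Gammaℝ (s + (μ i - μ j)))⁻¹ := by
        simp_rw [Finset.prod_inv_distrib]
      rw [e, mul_assoc, mul_inv_cancel₀ hp, mul_one]
    have hFa : AnalyticOnNhd ℂ (fun s => s * G s) Set.univ := hFd.differentiableOn.analyticOnNhd isOpen_univ
    have hGa : AnalyticOnNhd ℂ H Set.univ := hHd.differentiableOn.analyticOnNhd isOpen_univ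
    have := hFa.eq_of_eventuallyEq hGa hev
    intro s
    exact congrFun this s
  set s : ℂ := ((-σ₀ : ℝ) : ℂ) + t * I with hs
  set w : ℂ := ((1 + σ₀ : ℝ) : ℂ) + t * I with hw
  have hwre : w.re = 1 + σ₀ := by simp [hw]
  have hsre : s.re = -σ₀ := by simp [hs]
  have hsim : s.im = t := by simp [hs]
  have hs0 : s ≠ 0 := fun h0 => by
    rw [h0] at hsre
    simp at hsre
    linarith
  have hs1 : s - 1 ≠ 0 := fun h0 => by
    have := congrArg Complex.re h0
    rw [Complex.sub_re, hsre] at this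
    simp at this
    linarith
  have hconj : (starRingEnd ℂ) (1 - s) = w := by
    apply Complex.ext
    · simp [hs, hw]
    · simp [hs, hw]
  -- the other side
  have hre1 : 1 < (1 - s).re := by
    rw [Complex.sub_re, hsre]
    simp
    linarith
  obtain ⟨τ, hτ⟩ := hα.unitary_real
  have hprod : ∏ i, ∏ j, ‖Gammaℝ (1 - s + (μ i - μ j))‖ = ∏ i, ∏ j, ‖Gammaℝ (w + (μ i - μ j))‖ := by
    have h1 : ∀ i j, ‖Gammaℝ (1 - s + (μ i - μ j))‖ = ‖Gammaℝ (w + (μ (τ j) - μ (τ i)))‖ := by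
      intro i j
      have h2 : w + (μ (τ j) - μ (τ i)) = (starRingEnd ℂ) (1 - s + (μ i - μ j)) := by
        rw [map_add (starRingEnd ℂ) (1 - s) (μ i - μ j), hconj, map_sub, hτ, hτ]
        ring
      rw [h2, norm_Gammaℝ_conj]
    simp_rw [h1]
    rw [Finset.prod_comm]
    rw [Equiv.prod_comp τ (fun j' => ∏ i, ‖Gammaℝ (w + (μ j' - μ (τ i)))‖)]
    refine Finset.prod_congr rfl fun i _ => ?_
    exact Equiv.prod_comp τ (fun j' => ‖Gammaℝ (w + (μ i - μ j'))‖)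
  have hΞn : ‖Ξ s‖ = ‖1 - s‖ * (‖s‖ * ‖cexp (logL α (1 - s))‖) * ∏ i, ∏ j, ‖Gammaℝ (w + (μ i - μ j))‖ := by
    rw [← hfe s, hΞe (1 - s) hre1, hGe (1 - s) hre1, norm_mul, norm_mul, norm_mul, norm_prod]
    simp_rw [norm_prod]
    rw [hprod]
    have : ‖1 - s - 1‖ = ‖s‖ := by
      rw [show 1 - s - 1 = -s by ring, norm_neg]
    rw [this]
  have hGn : ‖G s / (s - 1)‖ = ‖cexp (logL α (1 - s))‖ * ∏ i, ∏ j,
      ‖Gammaℝ (s + (μ i - μ j) + ((1 + 2 * σ₀ : ℝ) : ℂ)) * (Gammaℝ (s + (μ i - μ j)))⁻¹‖ := by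
    have h1 : ‖s‖ * ‖G s‖ = ‖Ξ s‖ * ∏ i, ∏ j, ‖(Gammaℝ (s + (μ i - μ j)))⁻¹‖ := by
      rw [← norm_mul, key s, norm_mul, norm_prod]
      simp_rw [norm_prod]
    have hsn : 0 < ‖s‖ := norm_pos_iff.2 hs0
    have hsn1 : 0 < ‖s - 1‖ := norm_pos_iff.2 hs1
    have h2 : ∏ i, ∏ j, ‖Gammaℝ (s + (μ i - μ j) + ((1 + 2 * σ₀ : ℝ) : ℂ)) * (Gammaℝ (s + (μ i - μ j)))⁻¹‖ =
        (∏ i, ∏ j, ‖Gammaℝ (w + (μ i - μ j))‖) * ∏ i, ∏ j, ‖(Gammaℝ (s + (μ i - μ j)))⁻¹‖ := by
      rw [← Finset.prod_mul_distrib]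
      refine Finset.prod_congr rfl fun i _ => ?_
      rw [← Finset.prod_mul_distrib]
      refine Finset.prod_congr rfl fun j _ => ?_
      rw [norm_mul]
      congr 3
      rw [hs, hw]
      push_cast
      ring
    rw [h2, norm_div, div_eq_iff hsn1.ne']
    have h3 : ‖1 - s‖ = ‖s - 1‖ := norm_sub_rev _ _
    rw [hΞn, h3] at h1
    have h4 : ‖s‖ * ‖G s‖ = ‖s‖ * (‖cexp (logL α (1 - s))‖ *
        ((∏ i, ∏ j, ‖Gammaℝ (w + (μ i - μ j))‖) * ∏ i, ∏ j, ‖(Gammaℝ (s + (μ i - μ j)))⁻¹‖) * ‖s - 1‖) := by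
      rw [h1]
      ring
    exact mul_left_cancel₀ hsn.ne' h4
  have h4 : ∏ i, ∏ j, ‖Gammaℝ (s + (μ i - μ j) + ((1 + 2 * σ₀ : ℝ) : ℂ)) *
      (Gammaℝ (s + (μ i - μ j)))⁻¹‖ ≤
      C ^ (n * n) * ((1 + |t|) ^ (n * n) * ∏ i, ∏ j, (1 + ‖μ i - μ j‖)) ^ (1 / 2 + σ₀) := by
    have h5 : ∏ i, ∏ j, ‖Gammaℝ (s + (μ i - μ j) + ((1 + 2 * σ₀ : ℝ) : ℂ)) *
        (Gammaℝ (s + (μ i - μ j)))⁻¹‖ ≤
        ∏ i : Fin n, ∏ j : Fin n, (C * ((1 + |t|) * (1 + ‖μ i - μ j‖)) ^ (1 / 2 + σ₀)) := by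
      refine Finset.prod_le_prod (fun i _ => Finset.prod_nonneg fun j _ => norm_nonneg _)
        fun i _ => Finset.prod_le_prod (fun j _ => norm_nonneg _) fun j _ => ?_
      have h6 := hGam (s + (μ i - μ j)) (by
        rw [Complex.add_re, hsre]
        linarith [hκ1 i j]) (by
        rw [Complex.add_re, hsre]
        linarith [hκ2 i j])
      refine h6.trans (mul_le_mul_of_nonneg_left (Real.rpow_le_rpow (by positivity) ?_ (by positivity)) hC.le)
      rw [Complex.add_im, hsim]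
      have h7 := abs_add_le t (μ i - μ j).im
      have h8 := Complex.abs_im_le_norm (μ i - μ j)
      nlinarith [abs_nonneg t, norm_nonneg (μ i - μ j), abs_nonneg (μ i - μ j).im,
        mul_nonneg (abs_nonneg t) (norm_nonneg (μ i - μ j))]
    refine h5.trans (le_of_eq ?_)
    have e1 : ∀ i : Fin n, ∏ j : Fin n, (C * ((1 + |t|) * (1 + ‖μ i - μ j‖)) ^ (1 / 2 + σ₀)) =
        C ^ n * ((1 + |t|) ^ n * ∏ j : Fin n, (1 + ‖μ i - μ j‖)) ^ (1 / 2 + σ₀) := by
      intro i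
      rw [Finset.prod_mul_distrib, Finset.prod_const, Finset.card_univ, Fintype.card_fin,
        Real.finsetProd_rpow _ _ fun j _ => by positivity, Finset.prod_mul_distrib, Finset.prod_const,
        Finset.card_univ, Fintype.card_fin]
    rw [Finset.prod_congr rfl fun i _ => e1 i, Finset.prod_mul_distrib, Finset.prod_const,
      Finset.card_univ, Fintype.card_fin, ← pow_mul,
      Real.finsetProd_rpow _ _ fun j _ => mul_nonneg (by positivity) (Finset.prod_nonneg fun k _ => by positivity),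
      Finset.prod_mul_distrib, Finset.prod_const, Finset.card_univ, Fintype.card_fin, ← pow_mul]
  have h5 : ‖cexp (logL α (1 - s))‖ ≤ Real.exp (∑' x : PX, wX α x * Real.exp (-((1 + σ₀) * LX x))) := by
    rw [Complex.norm_exp]
    refine Real.exp_le_exp.2 ((Complex.re_le_norm _).trans ?_)
    rw [logL_DS]
    unfold DS
    have h6 : ∀ x : PX, ‖(wX α x : ℂ) * cexp (-((1 - s) * LX x))‖ = wX α x * Real.exp (-((1 + σ₀) * LX x)) := by
      intro x
      rw [Pool.Agent.W189.TP.norm_term, abs_of_nonneg (wX_nonneg α x)]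
      congr 3
      rw [Complex.sub_re, hsre]
      simp
    refine (norm_tsum_le_tsum_norm ((summ_wX hα (by linarith)).congr fun x => (h6 x).symm)).trans (le_of_eq ?_)
    exact tsum_congr h6
  rw [hGn, mul_comm]
  exact mul_le_mul h4 h5 (norm_nonneg _) (by
    refine mul_nonneg (pow_nonneg hC.le _) (Real.rpow_nonneg (mul_nonneg (by positivity)
      (Finset.prod_nonneg fun i _ => Finset.prod_nonneg fun j _ => by positivity)) _))

end Pool.Agent.U985.UT
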