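import Mathlib
import Pool.Agent.Erdos456.Mertens

/-! From the smoothed sums to the primes with small weight. -/

set_option autoImplicit false

namespace Pool.Agent.U985.UT

open Filter Topology

theorem pfin (P : ℝ) : {p : Nat.Primes | ((p : ℕ) : ℝ) ≤ P}.Finite := by
  have h1 : {n : ℕ | (n : ℝ) ≤ P}.Finite := by
    refine (Set.finite_Iic ⌊P⌋₊).subset fun n hn => ?_
    exact Nat.le_floor hn
  exact h1.preimage (Subtype.val_injective.injOn)

/-- the primes up to `P` -/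
noncomputable def pf (P : ℝ) : Finset Nat.Primes := (pfin P).toFinset

theorem mem_pf {P : ℝ} {p : Nat.Primes} : p ∈ pf P ↔ ((p : ℕ) : ℝ) ≤ P := by
  simp [pf]

theorem mertens_pf : ∃ A₀ : ℝ, 0 ≤ A₀ ∧ ∀ P : ℝ, 1 ≤ P →
    |∑ p ∈ pf P, Real.log ((p : ℕ) : ℝ) / ((p : ℕ) : ℝ) - Real.log P| ≤ A₀ := by
  obtain ⟨C, hC⟩ := Pool.Agent.Erdos456.Mert.mertens_log
  refine ⟨|C| + Real.log 2, by positivity, fun P hP => ?_⟩
  set N : ℕ := ⌊P⌋₊ with hN
  have hN1 : 1 ≤ N := (Nat.one_le_floor_iff P).2 hP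
  have h1 := hC N hN1
  have h2 : ∑ p ∈ pf P, Real.log ((p : ℕ) : ℝ) / ((p : ℕ) : ℝ) =
      ∑ p ∈ (Finset.Icc 1 N).filter Nat.Prime, Real.log p / p := by
    have h3 : (Finset.Icc 1 N).filter Nat.Prime = (pf P).map ⟨fun p : Nat.Primes => (p : ℕ), Subtype.val_injective⟩ := by
      ext n
      simp only [Finset.mem_filter, Finset.mem_Icc, Finset.mem_map, mem_pf]
      constructor
      · rintro ⟨⟨-, h⟩, hp⟩
        exact ⟨⟨n, hp⟩, (Nat.le_floor_iff (by linarith)).1 h, rfl⟩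
      · rintro ⟨p, h, rfl⟩
        exact ⟨⟨p.2.one_lt.le, Nat.le_floor h⟩, p.2⟩
    rw [h3, Finset.sum_map]
    rfl
  rw [h2]
  have hNpos : (0 : ℝ) < N := by exact_mod_cast hN1
  have h4 : (N : ℝ) ≤ P := Nat.floor_le (by linarith)
  have h5 : P ≤ 2 * N := by
    have h6 : P < N + 1 := Nat.lt_floor_add_one P
    have h7 : (1 : ℝ) ≤ N := by exact_mod_cast hN1
    linarith
  have h6 : Real.log N ≤ Real.log P := Real.log_le_log hNpos h4
  have h7 : Real.log P ≤ Real.log 2 + Real.log N := by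
    rw [← Real.log_mul (by norm_num) hNpos.ne']
    exact Real.log_le_log (by linarith) h5
  have h8 := abs_le.1 h1
  have h9 := le_abs_self C
  rw [abs_le]
  have h10 : 0 ≤ Real.log 2 := Real.log_nonneg (by norm_num)
  constructor <;> linarith [h8.1, h8.2]

/-- what is used of the smoothed sums -/
structure Data (q : Nat.Primes → ℝ) (S : ℝ → ℝ) : Prop where
  q_nonneg : ∀ p, 0 ≤ q p
  S_nonneg : ∀ y, 0 ≤ S y
  HA : ∀ (T : Finset Nat.Primes) (y : ℝ), 0 ≤ y →
    ∑ p ∈ T, q p * Real.log ((p : ℕ) : ℝ) * Real.exp (-Real.log ((p : ℕ) : ℝ)) *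
      S (y - Real.log ((p : ℕ) : ℝ)) ≤ y * S y + 3 * S (y + 1)
  HB : ∀ (T : Finset Nat.Primes) (u : ℝ) (k : ℕ), (∀ p ∈ T, Real.log ((p : ℕ) : ℝ) ≤ u) →
    Real.exp (-(1 / 4)) * ((∑ p ∈ T, q p) ^ k / (k.factorial : ℝ)) * Real.exp (-(k * u)) ≤
      ∑ j ∈ Finset.range (⌊k * u⌋₊ + 1), Real.exp (-(j : ℝ)) * S (k * u - j)

theorem log_prime_nonneg (p : Nat.Primes) : 0 ≤ Real.log ((p : ℕ) : ℝ) :=
  Real.log_nonneg (by exact_mod_cast p.2.one_lt.le)

theorem prime_pos (p : Nat.Primes) : (0 : ℝ) < ((p : ℕ) : ℝ) := by exact_mod_cast p.2.pos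

theorem exp_sum_le (N : ℕ) : ∑ j ∈ Finset.range N, Real.exp (-(j : ℝ)) ≤ 2 := by
  refine le_trans (Finset.sum_le_sum fun j _ => ?_) (sum_geometric_two_le N)
  have h1 : Real.exp (-(j : ℝ)) = (Real.exp (-1)) ^ j := by
    rw [← Real.exp_nat_mul]
    congr 1
    ring
  rw [h1]
  refine pow_le_pow_left₀ (Real.exp_pos _).le ?_ j
  rw [Real.exp_neg, one_div]
  refine inv_anti₀ (by norm_num) ?_
  linarith [Real.add_one_le_exp (1 : ℝ)]

section
variable {q : Nat.Primes → ℝ} {S : ℝ → ℝ}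

/-- the residue is not small if there are many primes with large weight at some scale -/
theorem rich (D : Data q S) {η c Z A₁ R : ℝ} {K0 : ℕ} (hη : 0 < η) (hη1 : η ≤ 1 / 10) (hc : 0 ≤ c) (hZ : 0 ≤ Z)
    (hR : ∀ y : ℝ, 0 ≤ y → |S y - R| ≤ A₁ * Real.exp ((1 / 2 + η) * c) * Real.exp (-y)) (hA1 : 0 ≤ A₁)
    (hK0 : 1 / (2 * η) + 6 ≤ K0) (h1 : A₁ ≤ Real.exp (η * (Z + c)))
    (h2 : Real.exp (-(η * (Z + c))) ≤ Real.exp (-(1 / 4)) *
      ((1 / (2 * Real.exp 1 * (Z + c + 1))) ^ K0 / (K0.factorial : ℝ)))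
    (h3 : 2 * (Z + c) + 2 ≤ Real.exp (η * (Z + c))) (h4 : 3 ≤ η * (Z + c))
    {m : ℕ} (hm : η * (Z + c) ≤ m + 1)
    (hmass : 1 / 2 ≤ ∑ p ∈ (pf (Real.exp Z)).filter (fun p : Nat.Primes => ⌊Real.log ((p : ℕ) : ℝ)⌋₊ = m),
      q p * (Real.log ((p : ℕ) : ℝ) / ((p : ℕ) : ℝ))) :
    Real.exp (-(2 * (η * (Z + c)))) ≤ R := by
  set G : ℝ := Z + c with hG
  have hcG : c ≤ G := by linarith
  have hZG : Z ≤ G := by linarith
  have hG0 : 0 < G := by
    rcases le_or_gt G 0 with h | h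
    · nlinarith
    · exact h
  set B := (pf (Real.exp Z)).filter (fun p : Nat.Primes => ⌊Real.log ((p : ℕ) : ℝ)⌋₊ = m) with hB
  have hBne : B.Nonempty := by
    by_contra h
    rw [Finset.not_nonempty_iff_eq_empty] at h
    rw [h, Finset.sum_empty] at hmass
    norm_num at hmass
  have hBlog : ∀ p ∈ B, (m : ℝ) ≤ Real.log ((p : ℕ) : ℝ) ∧ Real.log ((p : ℕ) : ℝ) ≤ (m : ℝ) + 1 ∧
      Real.log ((p : ℕ) : ℝ) ≤ Z := by
    intro p hp
    rw [hB, Finset.mem_filter, mem_pf] at hp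
    refine ⟨?_, ?_, ?_⟩
    · rw [← hp.2]
      exact Nat.floor_le (log_prime_nonneg p)
    · rw [← hp.2]
      exact (Nat.lt_floor_add_one _).le
    · have := Real.log_le_log (prime_pos p) hp.1
      rwa [Real.log_exp] at this
  obtain ⟨p0, hp0⟩ := hBne
  have hmZ : (m : ℝ) ≤ Z := (hBlog p0 hp0).1.trans (hBlog p0 hp0).2.2
  set u : ℝ := (m : ℝ) + 1 with hu
  have hu0 : 0 < u := by positivity
  set W : ℝ := ∑ p ∈ B, q p with hW
  have hW1 : 1 / 2 ≤ u * Real.exp (-(m : ℝ)) * W := by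
    refine hmass.trans ?_
    rw [hW, Finset.mul_sum]
    refine Finset.sum_le_sum fun p hp => ?_
    obtain ⟨a1, a2, a3⟩ := hBlog p hp
    have hp := prime_pos p
    have h5 : Real.log ((p : ℕ) : ℝ) / ((p : ℕ) : ℝ) ≤ u * Real.exp (-(m : ℝ)) := by
      have h6 : Real.exp (m : ℝ) ≤ ((p : ℕ) : ℝ) := by
        rw [← Real.exp_log hp]
        exact Real.exp_le_exp.2 a1
      rw [div_le_iff₀ hp, Real.exp_neg]
      have h7 : 1 ≤ (Real.exp (m : ℝ))⁻¹ * ((p : ℕ) : ℝ) := by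
        rw [inv_mul_eq_div, le_div_iff₀ (Real.exp_pos _), one_mul]
        exact h6
      calc Real.log ((p : ℕ) : ℝ) ≤ u * 1 := by rw [mul_one]; exact a2
        _ ≤ u * ((Real.exp (m : ℝ))⁻¹ * ((p : ℕ) : ℝ)) := mul_le_mul_of_nonneg_left h7 hu0.le
        _ = _ := by ring
    calc q p * (Real.log ((p : ℕ) : ℝ) / ((p : ℕ) : ℝ)) ≤ q p * (u * Real.exp (-(m : ℝ))) :=
          mul_le_mul_of_nonneg_left h5 (D.q_nonneg p)
      _ = _ := by ring
  have hW0 : 0 ≤ W := Finset.sum_nonneg fun p _ => D.q_nonneg p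
  set b : ℝ := 1 / (2 * Real.exp 1 * (G + 1)) with hb
  have hb0 : 0 < b := by positivity
  have he1 : 2 ≤ Real.exp 1 := by linarith [Real.add_one_le_exp (1 : ℝ)]
  have hb1 : b ≤ 1 := by
    rw [hb, div_le_one (by positivity)]
    nlinarith
  have hWu : b ≤ W * Real.exp (-u) := by
    have h5 : Real.exp (-u) = Real.exp (-(m : ℝ)) * (Real.exp 1)⁻¹ := by
      rw [← Real.exp_neg, ← Real.exp_add]
      congr 1
      rw [hu]
      ring
    rw [h5, hb, div_le_iff₀ (by positivity)]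
    have h6 : W * (Real.exp (-(m : ℝ)) * (Real.exp 1)⁻¹) * (2 * Real.exp 1 * (G + 1)) =
        2 * (W * Real.exp (-(m : ℝ)) * (G + 1)) := by
      field_simp
    rw [h6]
    have h7 : 0 ≤ W * Real.exp (-(m : ℝ)) := by positivity
    have h8 : u ≤ G + 1 := by linarith
    have h9 : u * (W * Real.exp (-(m : ℝ))) ≤ (G + 1) * (W * Real.exp (-(m : ℝ))) :=
      mul_le_mul_of_nonneg_right h8 h7
    linarith
  -- the number of factors
  set k : ℕ := ⌈(c / 2 + 5 * (η * G)) / u⌉₊ with hk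
  have hk1 : (c / 2 + 5 * (η * G)) / u ≤ k := Nat.le_ceil _
  have hnn : 0 ≤ (c / 2 + 5 * (η * G)) / u := by positivity
  have hk2 : (k : ℝ) < (c / 2 + 5 * (η * G)) / u + 1 := Nat.ceil_lt_add_one hnn
  have hy1 : c / 2 + 5 * (η * G) ≤ k * u := by
    rw [div_le_iff₀ hu0] at hk1
    exact hk1
  have hy2 : k * u ≤ c / 2 + 5 * (η * G) + u := by
    have h5 := mul_lt_mul_of_pos_right hk2 hu0
    rw [add_mul, div_mul_cancel₀ _ hu0.ne', one_mul] at h5
    exact h5.le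
  have hkK : k ≤ K0 := by
    have h5 : (c / 2 + 5 * (η * G)) / u ≤ 1 / (2 * η) + 5 := by
      rw [div_le_iff₀ hu0]
      have h6 : (1 / (2 * η) + 5) * (η * G) ≤ (1 / (2 * η) + 5) * u :=
        mul_le_mul_of_nonneg_left hm (by positivity)
      have h7 : (1 / (2 * η) + 5) * (η * G) = G / 2 + 5 * (η * G) := by
        field_simp
      linarith
    have h6 : (k : ℝ) < K0 := by linarith
    exact_mod_cast h6.le
  have hkpos : 0 ≤ k * u := by positivity
  -- lower bound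
  have hHB := D.HB B u k fun p hp => (hBlog p hp).2.1
  have hlow : Real.exp (-(η * G)) ≤ Real.exp (-(1 / 4)) * (W ^ k / (k.factorial : ℝ)) * Real.exp (-(k * u)) := by
    refine h2.trans ?_
    have h5 : Real.exp (-(k * u)) = (Real.exp (-u)) ^ k := by
      rw [← Real.exp_nat_mul]
      congr 1
      ring
    rw [h5]
    have h6 : Real.exp (-(1 / 4)) * (W ^ k / (k.factorial : ℝ)) * (Real.exp (-u)) ^ k =
        Real.exp (-(1 / 4)) * ((W * Real.exp (-u)) ^ k / (k.factorial : ℝ)) := by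
      rw [mul_pow]
      ring
    rw [h6]
    refine mul_le_mul_of_nonneg_left ?_ (Real.exp_pos _).le
    have h7 : b ^ K0 ≤ b ^ k := pow_le_pow_of_le_one hb0.le hb1 hkK
    have h8 : b ^ k ≤ (W * Real.exp (-u)) ^ k := pow_le_pow_left₀ hb0.le hWu k
    have h9 : (k.factorial : ℝ) ≤ K0.factorial := by exact_mod_cast Nat.factorial_le hkK
    have h10 : (0 : ℝ) < k.factorial := by exact_mod_cast k.factorial_pos
    exact div_le_div₀ (by positivity) (h7.trans h8) h10 h9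
  -- upper bound
  set Rp : ℝ := max R 0 with hRp
  set E : ℝ := A₁ * Real.exp ((1 / 2 + η) * c) with hE
  have hE0 : 0 ≤ E := by positivity
  have hup : ∑ j ∈ Finset.range (⌊k * u⌋₊ + 1), Real.exp (-(j : ℝ)) * S (k * u - j) ≤
      2 * Rp + (k * u + 1) * (E * Real.exp (-(k * u))) := by
    have h5 : ∀ j ∈ Finset.range (⌊k * u⌋₊ + 1), Real.exp (-(j : ℝ)) * S (k * u - j) ≤
        Real.exp (-(j : ℝ)) * Rp + E * Real.exp (-(k * u)) := by
      intro j hj
      rw [Finset.mem_range, Nat.lt_succ_iff] at hj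
      have h6 : (j : ℝ) ≤ k * u := (Nat.cast_le.2 hj).trans (Nat.floor_le hkpos)
      have h7 := hR (k * u - j) (by linarith)
      have h8 := (abs_le.1 h7).2
      have h9 : S (k * u - j) ≤ Rp + E * Real.exp (-(k * u - j)) := by
        have := le_max_left R 0
        linarith
      calc _ ≤ Real.exp (-(j : ℝ)) * (Rp + E * Real.exp (-(k * u - j))) :=
            mul_le_mul_of_nonneg_left h9 (Real.exp_pos _).le
        _ = Real.exp (-(j : ℝ)) * Rp + E * (Real.exp (-(j : ℝ)) * Real.exp (-(k * u - j))) := by ring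
        _ = _ := by
            rw [← Real.exp_add]
            congr 3
            ring
    refine (Finset.sum_le_sum h5).trans ?_
    rw [Finset.sum_add_distrib, ← Finset.sum_mul, Finset.sum_const, Finset.card_range, nsmul_eq_mul]
    have h6 := exp_sum_le (⌊k * u⌋₊ + 1)
    have h7 : 0 ≤ Rp := le_max_right _ _
    have h8 : ((⌊k * u⌋₊ + 1 : ℕ) : ℝ) ≤ k * u + 1 := by
      push_cast
      linarith [Nat.floor_le hkpos]
    have h9 : 0 ≤ E * Real.exp (-(k * u)) := by positivity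
    have h10 := mul_le_mul_of_nonneg_right h6 h7
    have h11 := mul_le_mul_of_nonneg_right h8 h9
    linarith
  have herr : (k * u + 1) * (E * Real.exp (-(k * u))) ≤ Real.exp (-(2 * (η * G))) := by
    have h5 : k * u + 1 ≤ Real.exp (η * G) := by
      refine le_trans ?_ h3
      have : η * G ≤ 1 / 10 * G := mul_le_mul_of_nonneg_right hη1 hG0.le
      linarith
    have h6 : E * Real.exp (-(k * u)) ≤ Real.exp (η * G) * Real.exp (c / 2 + η * G) *
        Real.exp (-(c / 2 + 5 * (η * G))) := by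
      rw [hE]
      refine mul_le_mul (mul_le_mul h1 (Real.exp_le_exp.2 ?_) (Real.exp_pos _).le (Real.exp_pos _).le)
        (Real.exp_le_exp.2 (by linarith)) (Real.exp_pos _).le (by positivity)
      nlinarith
    calc _ ≤ Real.exp (η * G) * (Real.exp (η * G) * Real.exp (c / 2 + η * G) *
        Real.exp (-(c / 2 + 5 * (η * G)))) := mul_le_mul h5 h6 (by positivity) (Real.exp_pos _).le
      _ = _ := by
          rw [← Real.exp_add, ← Real.exp_add, ← Real.exp_add]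
          congr 1
          ring
  have hfin : Real.exp (-(η * G)) ≤ 2 * Rp + Real.exp (-(2 * (η * G))) := by
    linarith [hlow.trans hHB]
  have h5 : Real.exp (-(2 * (η * G))) = Real.exp (-(η * G)) * Real.exp (-(η * G)) := by
    rw [← Real.exp_add]
    congr 1
    ring
  have h6 : Real.exp (-(η * G)) ≤ 1 / 4 := by
    have h7 : (4 : ℝ) ≤ Real.exp (η * G) := by
      have := Real.add_one_le_exp (η * G)
      linarith
    rw [Real.exp_neg, one_div]
    exact inv_anti₀ (by norm_num) h7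
  have h7 := Real.exp_pos (-(η * G))
  have h8 : Real.exp (-(2 * (η * G))) ≤ Rp := by
    rw [h5] at hfin ⊢
    have h9 := mul_le_mul_of_nonneg_left h6 h7.le
    linarith
  rcases max_cases R 0 with ⟨h9, -⟩ | ⟨h9, -⟩
  · rw [hRp, h9] at h8
    exact h8
  · rw [hRp, h9] at h8
    have := Real.exp_pos (-(2 * (η * G)))
    linarith

/-- the main inequality for large conductor or large `P` -/
theorem large (D : Data q S) {M η c Z A₀ A₁ R : ℝ} {K0 : ℕ} (hM : 1 ≤ M) (hη : 0 < η) (hη1 : η ≤ 1 / 10)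
    (hc : 0 ≤ c) (hZ : 0 ≤ Z) (hA₀ : 0 ≤ A₀)
    (hMert : ∀ P : ℝ, 1 ≤ P →
      |∑ p ∈ pf P, Real.log ((p : ℕ) : ℝ) / ((p : ℕ) : ℝ) - Real.log P| ≤ A₀)
    (hR : ∀ y : ℝ, 0 ≤ y → |S y - R| ≤ A₁ * Real.exp ((1 / 2 + η) * c) * Real.exp (-y)) (hA1 : 0 ≤ A₁)
    (hK0 : 1 / (2 * η) + 6 ≤ K0) (h1 : A₁ ≤ Real.exp (η * (Z + c)))
    (h2 : Real.exp (-(η * (Z + c))) ≤ Real.exp (-(1 / 4)) *
      ((1 / (2 * Real.exp 1 * (Z + c + 1))) ^ K0 / (K0.factorial : ℝ)))
    (h3 : 2 * (Z + c) + 2 ≤ Real.exp (η * (Z + c))) (h4 : 3 ≤ η * (Z + c))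
    (h5 : Real.exp (-(2 * (η * (Z + c)))) ≤ η) (h6 : 2 * M ^ 2 * A₀ + 1 / 2 ≤ η * (Z + c)) :
    (M ^ 2 - 1) * Z - c / 2 - (14 + M ^ 2) * (η * (Z + c)) ≤
      ∑ p ∈ pf (Real.exp Z), max 0 (M ^ 2 - q p) * (Real.log ((p : ℕ) : ℝ) / ((p : ℕ) : ℝ)) := by
  have hM2 : 1 ≤ M ^ 2 := one_le_pow₀ hM
  have hP1 : 1 ≤ Real.exp Z := Real.one_le_exp hZ
  have hG0 : 0 < Z + c := by
    rcases le_or_gt (Z + c) 0 with h | h
    · nlinarith
    · exact h
  have hwt : ∀ p : Nat.Primes, 0 ≤ Real.log ((p : ℕ) : ℝ) / ((p : ℕ) : ℝ) := fun p =>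
    div_nonneg (log_prime_nonneg p) (prime_pos p).le
  have hmert := hMert (Real.exp Z) hP1
  rw [Real.log_exp] at hmert
  have hmert' := (abs_le.1 hmert).1
  by_cases hrich : ∃ m : ℕ, η * (Z + c) ≤ m + 1 ∧ 1 / 2 ≤
      ∑ p ∈ (pf (Real.exp Z)).filter (fun p : Nat.Primes => ⌊Real.log ((p : ℕ) : ℝ)⌋₊ = m),
        q p * (Real.log ((p : ℕ) : ℝ) / ((p : ℕ) : ℝ))
  · obtain ⟨m, hm, hmass⟩ := hrich
    have hRlow := rich D hη hη1 hc hZ hR hA1 hK0 h1 h2 h3 h4 hm hmass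
    set G : ℝ := Z + c with hG
    have hcG : c ≤ G := by linarith
    have hR0 : 0 < R := (Real.exp_pos _).trans_le hRlow
    set z : ℝ := c / 2 + 6 * (η * G) with hz
    have hz0 : 0 ≤ z := by positivity
    set y : ℝ := Z + z with hy
    have hy0 : 0 ≤ y := by positivity
    set E : ℝ := A₁ * Real.exp ((1 / 2 + η) * c) with hE
    have hE0 : 0 ≤ E := by positivity
    have hEz : E * Real.exp (-z) ≤ η * R := by
      have h7 : E * Real.exp (-z) ≤ Real.exp (η * G) * Real.exp (c / 2 + η * G) *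
          Real.exp (-(c / 2 + 6 * (η * G))) := by
        rw [hE]
        refine mul_le_mul (mul_le_mul h1 (Real.exp_le_exp.2 ?_) (Real.exp_pos _).le (Real.exp_pos _).le)
          le_rfl (Real.exp_pos _).le (by positivity)
        nlinarith
      have h8 : Real.exp (η * G) * Real.exp (c / 2 + η * G) * Real.exp (-(c / 2 + 6 * (η * G))) =
          Real.exp (-(2 * (η * G))) * Real.exp (-(2 * (η * G))) := by
        rw [← Real.exp_add, ← Real.exp_add, ← Real.exp_add]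
        congr 1
        ring
      rw [h8] at h7
      exact h7.trans (mul_le_mul h5 hRlow (Real.exp_pos _).le hη.le)
    have hHA := D.HA (pf (Real.exp Z)) y hy0
    set Lm : ℝ := ∑ p ∈ pf (Real.exp Z), q p * (Real.log ((p : ℕ) : ℝ) / ((p : ℕ) : ℝ)) with hLm
    have hlow : Lm * (R * (1 - η)) ≤ ∑ p ∈ pf (Real.exp Z), q p * Real.log ((p : ℕ) : ℝ) *
        Real.exp (-Real.log ((p : ℕ) : ℝ)) * S (y - Real.log ((p : ℕ) : ℝ)) := by
      rw [hLm, Finset.sum_mul]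
      refine Finset.sum_le_sum fun p hp => ?_
      rw [mem_pf] at hp
      have h7 : Real.log ((p : ℕ) : ℝ) ≤ Z := by
        have := Real.log_le_log (prime_pos p) hp
        rwa [Real.log_exp] at this
      have h8 : Real.exp (-Real.log ((p : ℕ) : ℝ)) = (((p : ℕ) : ℝ))⁻¹ := by
        rw [Real.exp_neg, Real.exp_log (prime_pos p)]
      rw [h8]
      have h9 := (abs_le.1 (hR (y - Real.log ((p : ℕ) : ℝ)) (by linarith))).1
      have h10 : E * Real.exp (-(y - Real.log ((p : ℕ) : ℝ))) ≤ E * Real.exp (-z) :=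
        mul_le_mul_of_nonneg_left (Real.exp_le_exp.2 (by linarith)) hE0
      have h11 : R * (1 - η) ≤ S (y - Real.log ((p : ℕ) : ℝ)) := by linarith
      have h12 : 0 ≤ q p * (Real.log ((p : ℕ) : ℝ) / ((p : ℕ) : ℝ)) := mul_nonneg (D.q_nonneg p) (hwt p)
      calc _ ≤ q p * (Real.log ((p : ℕ) : ℝ) / ((p : ℕ) : ℝ)) * S (y - Real.log ((p : ℕ) : ℝ)) :=
            mul_le_mul_of_nonneg_left h11 h12
        _ = _ := by rw [div_eq_mul_inv]; ring
    have hupp : y * S y + 3 * S (y + 1) ≤ (y + 3) * (R * (1 + η)) := by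
      have h7 := (abs_le.1 (hR y hy0)).2
      have h8 := (abs_le.1 (hR (y + 1) (by linarith))).2
      have h9 : E * Real.exp (-y) ≤ E * Real.exp (-z) :=
        mul_le_mul_of_nonneg_left (Real.exp_le_exp.2 (by linarith)) hE0
      have h10 : E * Real.exp (-(y + 1)) ≤ E * Real.exp (-z) :=
        mul_le_mul_of_nonneg_left (Real.exp_le_exp.2 (by linarith)) hE0
      have h11 : S y ≤ R * (1 + η) := by linarith
      have h12 : S (y + 1) ≤ R * (1 + η) := by linarith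
      have h13 := mul_le_mul_of_nonneg_left h11 hy0
      linarith
    have hmain : Lm * (1 - η) ≤ (y + 3) * (1 + η) := by
      have h7 := hlow.trans (hHA.trans hupp)
      have h8 : R * (Lm * (1 - η)) ≤ R * ((y + 3) * (1 + η)) := by linarith
      exact le_of_mul_le_mul_left h8 hR0
    have hyb : y + 3 ≤ Z + c / 2 + 7 * (η * G) := by linarith
    have hLm2 : Lm ≤ (y + 3) * (1 + 3 * η) := by
      have h7 : (y + 3) * (1 + η) ≤ (y + 3) * (1 + 3 * η) * (1 - η) := by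
        rw [mul_assoc]
        refine mul_le_mul_of_nonneg_left ?_ (by linarith)
        nlinarith
      have h8 : Lm * (1 - η) ≤ (y + 3) * (1 + 3 * η) * (1 - η) := hmain.trans h7
      exact le_of_mul_le_mul_right h8 (by linarith)
    have hLm3 : Lm ≤ Z + c / 2 + 13 * (η * G) := by
      have h7 : (y + 3) * (1 + 3 * η) ≤ (Z + c / 2 + 7 * (η * G)) * (1 + 3 * η) :=
        mul_le_mul_of_nonneg_right hyb (by positivity)
      have h8 : (Z + c / 2 + 7 * (η * G)) ≤ 2 * G := by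
        have : η * G ≤ 1 / 10 * G := mul_le_mul_of_nonneg_right hη1 hG0.le
        linarith
      have h9 : (Z + c / 2 + 7 * (η * G)) * (3 * η) ≤ 2 * G * (3 * η) :=
        mul_le_mul_of_nonneg_right h8 (by positivity)
      have h10 : (Z + c / 2 + 7 * (η * G)) * (1 + 3 * η) =
          (Z + c / 2 + 7 * (η * G)) + (Z + c / 2 + 7 * (η * G)) * (3 * η) := by ring
      have h11 : 2 * G * (3 * η) = 6 * (η * G) := by ring
      linarith
    have hD : M ^ 2 * (Z - A₀) - Lm ≤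
        ∑ p ∈ pf (Real.exp Z), max 0 (M ^ 2 - q p) * (Real.log ((p : ℕ) : ℝ) / ((p : ℕ) : ℝ)) := by
      have h7 : M ^ 2 * (Z - A₀) ≤ M ^ 2 * ∑ p ∈ pf (Real.exp Z), Real.log ((p : ℕ) : ℝ) / ((p : ℕ) : ℝ) :=
        mul_le_mul_of_nonneg_left (by linarith) (by positivity)
      refine (sub_le_sub_right h7 _).trans ?_
      rw [hLm, Finset.mul_sum, ← Finset.sum_sub_distrib]
      refine Finset.sum_le_sum fun p _ => ?_
      rw [← sub_mul]
      exact mul_le_mul_of_nonneg_right (le_max_right _ _) (hwt p)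
    have h7 : M ^ 2 * A₀ ≤ η * G := by linarith [mul_nonneg (sq_nonneg M) hA₀]
    have h8 : 0 ≤ M ^ 2 * (η * G) := by positivity
    refine le_trans ?_ hD
    have h9 : M ^ 2 * (Z - A₀) = M ^ 2 * Z - M ^ 2 * A₀ := by ring
    have h10 : (M ^ 2 - 1) * Z - c / 2 - (14 + M ^ 2) * (η * G) =
        M ^ 2 * Z - Z - c / 2 - 14 * (η * G) - M ^ 2 * (η * G) := by ring
    linarith
  · push Not at hrich
    set G : ℝ := Z + c with hG
    have hηG0 : 0 ≤ η * G := by positivity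
    -- the primes at the large scales
    set T := (pf (Real.exp Z)).filter (fun p : Nat.Primes => η * G ≤ (⌊Real.log ((p : ℕ) : ℝ)⌋₊ : ℝ) + 1) with hT
    have hTq : ∑ p ∈ T, q p * (Real.log ((p : ℕ) : ℝ) / ((p : ℕ) : ℝ)) ≤ (Z + 1) / 2 := by
      have hmaps : ∀ p ∈ T, ⌊Real.log ((p : ℕ) : ℝ)⌋₊ ∈ Finset.range (⌊Z⌋₊ + 1) := by
        intro p hp
        rw [hT, Finset.mem_filter, mem_pf] at hp
        rw [Finset.mem_range, Nat.lt_succ_iff]
        refine Nat.floor_mono ?_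
        have := Real.log_le_log (prime_pos p) hp.1
        rwa [Real.log_exp] at this
      rw [← Finset.sum_fiberwise_of_maps_to hmaps]
      have h7 : ∀ m ∈ Finset.range (⌊Z⌋₊ + 1), ∑ p ∈ T.filter (fun p : Nat.Primes => ⌊Real.log ((p : ℕ) : ℝ)⌋₊ = m),
          q p * (Real.log ((p : ℕ) : ℝ) / ((p : ℕ) : ℝ)) ≤ 1 / 2 := by
        intro m _
        by_cases hm : η * G ≤ m + 1
        · refine le_trans (Finset.sum_le_sum_of_subset_of_nonneg ?_ fun p _ _ =>
            mul_nonneg (D.q_nonneg p) (hwt p)) (hrich m hm).le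
          intro p hp
          rw [Finset.mem_filter, hT, Finset.mem_filter] at hp
          rw [Finset.mem_filter]
          exact ⟨hp.1.1, hp.2⟩
        · have h8 : T.filter (fun p : Nat.Primes => ⌊Real.log ((p : ℕ) : ℝ)⌋₊ = m) = ∅ := by
            rw [Finset.filter_eq_empty_iff]
            intro p hp hpm
            rw [hT, Finset.mem_filter, hpm] at hp
            exact hm hp.2
          rw [h8, Finset.sum_empty]
          norm_num
      refine (Finset.sum_le_sum h7).trans ?_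
      rw [Finset.sum_const, Finset.card_range, nsmul_eq_mul]
      have h8 : (⌊Z⌋₊ : ℝ) ≤ Z := Nat.floor_le hZ
      push_cast
      linarith
    have hsmall : ∑ p ∈ (pf (Real.exp Z)).filter (fun p : Nat.Primes => ¬ η * G ≤ (⌊Real.log ((p : ℕ) : ℝ)⌋₊ : ℝ) + 1),
        Real.log ((p : ℕ) : ℝ) / ((p : ℕ) : ℝ) ≤ η * G + A₀ := by
      have h7 := (abs_le.1 (hMert (Real.exp (η * G)) (Real.one_le_exp hηG0))).2
      rw [Real.log_exp] at h7
      refine le_trans (Finset.sum_le_sum_of_subset_of_nonneg (t := pf (Real.exp (η * G))) ?_ fun p _ _ => hwt p)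
        (by linarith)
      intro p hp
      rw [Finset.mem_filter] at hp
      rw [mem_pf]
      have h8 : Real.log ((p : ℕ) : ℝ) ≤ η * G := by
        have h9 := Nat.lt_floor_add_one (Real.log ((p : ℕ) : ℝ))
        have h10 := not_le.1 hp.2
        linarith
      calc ((p : ℕ) : ℝ) = Real.exp (Real.log ((p : ℕ) : ℝ)) := (Real.exp_log (prime_pos p)).symm
        _ ≤ _ := Real.exp_le_exp.2 h8
    have hsplit := Finset.sum_filter_add_sum_filter_not (pf (Real.exp Z))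
      (fun p : Nat.Primes => η * G ≤ (⌊Real.log ((p : ℕ) : ℝ)⌋₊ : ℝ) + 1)
      (fun p : Nat.Primes => Real.log ((p : ℕ) : ℝ) / ((p : ℕ) : ℝ))
    rw [← hT] at hsplit
    have hTlog : Z - 2 * A₀ - η * G ≤ ∑ p ∈ T, Real.log ((p : ℕ) : ℝ) / ((p : ℕ) : ℝ) := by linarith
    have hD1 : M ^ 2 * (∑ p ∈ T, Real.log ((p : ℕ) : ℝ) / ((p : ℕ) : ℝ)) -
        ∑ p ∈ T, q p * (Real.log ((p : ℕ) : ℝ) / ((p : ℕ) : ℝ)) ≤
        ∑ p ∈ pf (Real.exp Z), max 0 (M ^ 2 - q p) * (Real.log ((p : ℕ) : ℝ) / ((p : ℕ) : ℝ)) := by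
      rw [Finset.mul_sum, ← Finset.sum_sub_distrib]
      refine le_trans (Finset.sum_le_sum (g := fun p => max 0 (M ^ 2 - q p) *
        (Real.log ((p : ℕ) : ℝ) / ((p : ℕ) : ℝ))) fun p _ => ?_)
        (Finset.sum_le_sum_of_subset_of_nonneg (Finset.filter_subset _ _) fun p _ _ =>
          mul_nonneg (le_max_left _ _) (hwt p))
      rw [← sub_mul]
      exact mul_le_mul_of_nonneg_right (le_max_right _ _) (hwt p)
    have h7 : M ^ 2 * (Z - 2 * A₀ - η * G) ≤ M ^ 2 * ∑ p ∈ T, Real.log ((p : ℕ) : ℝ) / ((p : ℕ) : ℝ) :=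
      mul_le_mul_of_nonneg_left hTlog (by positivity)
    refine le_trans ?_ hD1
    have h9 : M ^ 2 * (Z - 2 * A₀ - η * G) = M ^ 2 * Z - 2 * M ^ 2 * A₀ - M ^ 2 * (η * G) := by ring
    have h10 : (M ^ 2 - 1) * Z - c / 2 - (14 + M ^ 2) * (η * G) =
        M ^ 2 * Z - Z - c / 2 - 14 * (η * G) - M ^ 2 * (η * G) := by ring
    linarith

end

/-- the auxiliary exponent -/
noncomputable def eta (M ε : ℝ) : ℝ := min (1 / 10) (ε / (14 + M ^ 2))

theorem eta_pos {M ε : ℝ} (hε : 0 < ε) : 0 < eta M ε := by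
  unfold eta
  positivity

theorem eventually_large {η A₀ A₁ M : ℝ} (K0 : ℕ) (hη : 0 < η) : ∀ᶠ G : ℝ in atTop,
    0 ≤ G ∧ A₁ ≤ Real.exp (η * G) ∧
    Real.exp (-(η * G)) ≤ Real.exp (-(1 / 4)) * ((1 / (2 * Real.exp 1 * (G + 1))) ^ K0 / (K0.factorial : ℝ)) ∧
    2 * G + 2 ≤ Real.exp (η * G) ∧ 3 ≤ η * G ∧ Real.exp (-(2 * (η * G))) ≤ η ∧
    2 * M ^ 2 * A₀ + 1 / 2 ≤ η * G := by
  have hlin : Tendsto (fun G : ℝ => η * G) atTop atTop := tendsto_id.const_mul_atTop hη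
  have hexp : Tendsto (fun G : ℝ => Real.exp (η * G)) atTop atTop := Real.tendsto_exp_atTop.comp hlin
  have hexp2 : Tendsto (fun G : ℝ => Real.exp (-(2 * (η * G)))) atTop (𝓝 0) := by
    refine Real.tendsto_exp_atBot.comp ?_
    refine tendsto_neg_atTop_atBot.comp ?_
    exact hlin.const_mul_atTop (by norm_num)
  have hlo : ∀ k : ℕ, (fun x : ℝ => x ^ k) =o[atTop] fun x : ℝ => Real.exp (η * x) := fun k =>
    isLittleO_pow_exp_pos_mul_atTop k hη
  have h1 : ∀ᶠ G : ℝ in atTop, A₁ ≤ Real.exp (η * G) := hexp.eventually_ge_atTop _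
  have h4 : ∀ᶠ G : ℝ in atTop, 3 ≤ η * G := hlin.eventually_ge_atTop _
  have h6 : ∀ᶠ G : ℝ in atTop, 2 * M ^ 2 * A₀ + 1 / 2 ≤ η * G := hlin.eventually_ge_atTop _
  have h5 : ∀ᶠ G : ℝ in atTop, Real.exp (-(2 * (η * G))) ≤ η := (hexp2.eventually_lt_const hη).mono fun _ h => h.le
  have h3 : ∀ᶠ G : ℝ in atTop, G ^ 1 ≤ 1 / 4 * Real.exp (η * G) := by
    filter_upwards [(hlo 1).def (show (0 : ℝ) < 1 / 4 by norm_num), eventually_ge_atTop 0] with G h h0
    rw [Real.norm_of_nonneg (by positivity), Real.norm_of_nonneg (Real.exp_pos _).le] at h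
    exact h
  set B : ℝ := Real.exp (1 / 4) * (4 * Real.exp 1) ^ K0 * (K0.factorial : ℝ) with hB
  have hB0 : 0 < B := by
    have : (0 : ℝ) < K0.factorial := by exact_mod_cast K0.factorial_pos
    positivity
  have h2 : ∀ᶠ G : ℝ in atTop, G ^ K0 ≤ 1 / B * Real.exp (η * G) := by
    filter_upwards [(hlo K0).def (show (0 : ℝ) < 1 / B by positivity), eventually_ge_atTop 0] with G h h0
    rw [Real.norm_of_nonneg (by positivity), Real.norm_of_nonneg (Real.exp_pos _).le] at h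
    exact h
  filter_upwards [h1, h2, h3, h4, h5, h6, eventually_ge_atTop 1] with G a1 a2 a3 a4 a5 a6 a7
  refine ⟨by linarith, a1, ?_, ?_, a4, a5, a6⟩
  · have hf : (0 : ℝ) < K0.factorial := by exact_mod_cast K0.factorial_pos
    have e1 : Real.exp (-(1 / 4)) * ((1 / (2 * Real.exp 1 * (G + 1))) ^ K0 / (K0.factorial : ℝ)) =
        (Real.exp (1 / 4) * (2 * Real.exp 1 * (G + 1)) ^ K0 * (K0.factorial : ℝ))⁻¹ := by
      rw [Real.exp_neg, one_div_pow, mul_inv, mul_inv]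
      field_simp
    rw [e1, Real.exp_neg]
    refine inv_anti₀ (by positivity) ?_
    have e2 : (2 * Real.exp 1 * (G + 1)) ^ K0 ≤ (4 * Real.exp 1) ^ K0 * G ^ K0 := by
      rw [← mul_pow]
      refine pow_le_pow_left₀ (by positivity) ?_ K0
      have := Real.exp_pos (1 : ℝ)
      nlinarith
    calc Real.exp (1 / 4) * (2 * Real.exp 1 * (G + 1)) ^ K0 * (K0.factorial : ℝ) ≤
          Real.exp (1 / 4) * ((4 * Real.exp 1) ^ K0 * G ^ K0) * (K0.factorial : ℝ) := by gcongr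
      _ = B * G ^ K0 := by rw [hB]; ring
      _ ≤ B * (1 / B * Real.exp (η * G)) := mul_le_mul_of_nonneg_left a2 hB0.le
      _ = Real.exp (η * G) := by field_simp
  · have h8 : (4 : ℝ) ≤ Real.exp (η * G) := by linarith [Real.add_one_le_exp (η * G)]
    rw [pow_one] at a3
    linarith

/-- **the abstract theorem** -/
theorem core {M ε A₁ : ℝ} (hM : 1 ≤ M) (hε : 0 < ε) (hA1 : 0 ≤ A₁) : ∃ A : ℝ, 0 < A ∧
    ∀ (q : Nat.Primes → ℝ) (S : ℝ → ℝ), Data q S → ∀ R c : ℝ, 0 ≤ c →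
      (∀ y : ℝ, 0 ≤ y → |S y - R| ≤ A₁ * Real.exp ((1 / 2 + eta M ε) * c) * Real.exp (-y)) →
      ∀ P : ℝ, 1 ≤ P → (M ^ 2 - 1) * Real.log P - c / 2 - ε * (Real.log P + c) - A ≤
        ∑ p ∈ pf P, max 0 (M ^ 2 - q p) * (Real.log ((p : ℕ) : ℝ) / ((p : ℕ) : ℝ)) := by
  obtain ⟨A₀, hA₀, hMert⟩ := mertens_pf
  have hη := eta_pos (M := M) hε
  obtain ⟨K0, hK0⟩ := exists_nat_ge (1 / (2 * eta M ε) + 6)
  obtain ⟨G0, hG0⟩ := eventually_atTop.1 (eventually_large (A₀ := A₀) (A₁ := A₁) (M := M) K0 hη)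
  refine ⟨M ^ 2 * |G0| + 1, by positivity, fun q S D R c hc hR P hP => ?_⟩
  have hZ : 0 ≤ Real.log P := Real.log_nonneg hP
  have hM2 : 1 ≤ M ^ 2 := one_le_pow₀ hM
  rcases le_or_gt G0 (Real.log P + c) with h | h
  · obtain ⟨b0, b1, b2, b3, b4, b5, b6⟩ := hG0 _ h
    have h1 := large D hM hη (min_le_left _ _) hc hZ hA₀ hMert hR hA1 hK0 b1 b2 b3 b4 b5 b6
    rw [Real.exp_log (by linarith)] at h1
    refine le_trans ?_ h1
    have h2 : (14 + M ^ 2) * eta M ε ≤ ε := by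
      have h3 : eta M ε ≤ ε / (14 + M ^ 2) := min_le_right _ _
      rw [le_div_iff₀ (by positivity)] at h3
      linarith
    have h3 := mul_le_mul_of_nonneg_right h2 b0
    have h4 : 0 ≤ M ^ 2 * |G0| := by positivity
    have h5 : (14 + M ^ 2) * eta M ε * (Real.log P + c) = (14 + M ^ 2) * (eta M ε * (Real.log P + c)) := by ring
    linarith
  · refine le_trans ?_ (Finset.sum_nonneg fun p _ => mul_nonneg (le_max_left _ _)
      (div_nonneg (log_prime_nonneg p) (prime_pos p).le))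
    have h1 : Real.log P ≤ |G0| := by linarith [le_abs_self G0]
    have h2 : (M ^ 2 - 1) * Real.log P ≤ M ^ 2 * |G0| :=
      mul_le_mul (by linarith) h1 hZ (by positivity)
    have h3 : 0 ≤ ε * (Real.log P + c) := by positivity
    linarith

end Pool.Agent.U985.UT
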