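import Pool.Agent.U985.UT.Asym
import Pool.Agent.U985.UT.Core

/-! The uniform lower bound for the primes with a small Hecke eigenvalue. -/

set_option autoImplicit false

namespace Pool.Agent.U985.UT

open Pool.Agent.TH949.RES (SphericalCuspForm)
open Pool.Agent.N846.DT

variable {n : ℕ}

theorem wX_prime (α : Nat.Primes → Fin n → ℂ) (p : Nat.Primes) : wX α (p, 0) = ‖∑ i, α p i‖ ^ 2 := by
  unfold wX
  rw [uX_sq]
  simp

theorem LX_prime (p : Nat.Primes) : LX (p, 0) = Real.log ((p : ℕ) : ℝ) := by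
  unfold LX
  simp

theorem data {α : Nat.Primes → Fin n → ℂ} {μ : Fin n → ℂ} (h : SphericalCuspForm α μ) :
    Data (fun p => ‖∑ i, α p i‖ ^ 2) (SS (wX α) LX) := by
  have hs2 : Summable fun x : PX => wX α x * Real.exp (-(2 * LX x)) := summ_wX h (by norm_num)
  let e : Nat.Primes ↪ PX := ⟨fun p => (p, 0), fun a b hab => by simpa using hab⟩
  refine ⟨fun p => sq_nonneg _, fun y => SS_nonneg LX (wX_nonneg α) y, fun T y hy => ?_, fun T u k hT => ?_⟩
  · have h1 := lemA (wX_nonneg α) LX_nonneg hs2 (T.map e) hy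
    rw [Finset.sum_map] at h1
    refine le_trans (le_of_eq ?_) h1
    refine Finset.sum_congr rfl fun p _ => ?_
    change _ = wX α (p, 0) * LX (p, 0) * Real.exp (-LX (p, 0)) * SS (wX α) LX (y - LX (p, 0))
    rw [wX_prime, LX_prime]
  · have h1 := lemB (wX_nonneg α) LX_nonneg hs2 (T.map e) (u := u) (by
      intro x hx
      rw [Finset.mem_map] at hx
      obtain ⟨p, hp, rfl⟩ := hx
      change LX (p, 0) ≤ u
      rw [LX_prime]
      exact hT p hp) k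
    rw [Finset.sum_map] at h1
    have h2 : ∑ x ∈ T, wX α (e x) = ∑ p ∈ T, ‖∑ i, α p i‖ ^ 2 := by
      refine Finset.sum_congr rfl fun p _ => ?_
      change wX α (p, 0) = _
      rw [wX_prime]
    rw [h2] at h1
    exact h1

/-- **main theorem** -/
theorem main (hn : 2 ≤ n) {M ε : ℝ} (hM : 1 ≤ M) (hε : 0 < ε) : ∃ A : ℝ, 0 < A ∧
    ∀ (α : Nat.Primes → Fin n → ℂ) (μ : Fin n → ℂ), SphericalCuspForm α μ →
      (∀ (p : Nat.Primes) i, ‖α p i‖ < ((p : ℕ) : ℝ) ^ (1 / 2 : ℝ)) → (∀ i, |(μ i).re| < 1 / 2) →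
      ∀ P : ℝ, 1 ≤ P →
        (M ^ 2 - 1) * Real.log P - 1 / 2 * Real.log (∏ i, ∏ j, (1 + ‖μ i - μ j‖)) -
          ε * Real.log (P * ∏ i, ∏ j, (1 + ‖μ i - μ j‖)) - A ≤
        ∑ p ∈ pf P, max 0 (M ^ 2 - ‖∑ i, α p i‖ ^ 2) * (Real.log ((p : ℕ) : ℝ) / ((p : ℕ) : ℝ)) := by
  obtain ⟨A₁, hA1, hasym⟩ := asym hn (eta_pos (M := M) hε)
  obtain ⟨A, hA, hcore⟩ := core hM hε hA1
  refine ⟨A, hA, fun α μ h hα hμ P hP => ?_⟩
  set C : ℝ := ∏ i, ∏ j, (1 + ‖μ i - μ j‖) with hC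
  have hC1 : 1 ≤ C := by
    rw [hC, ← PK_eq μ ⟨0, by omega⟩]
    exact Pool.Agent.TH949.LT.one_le_PK _
  have hC0 : 0 < C := by linarith
  obtain ⟨R, hR⟩ := hasym α μ h hα hμ
  have h1 := hcore (fun p => ‖∑ i, α p i‖ ^ 2) (SS (wX α) LX) (data h) R (Real.log C) (Real.log_nonneg hC1)
    (fun y hy => by
      have h2 := hR y hy
      rw [Real.rpow_def_of_pos hC0, mul_comm (Real.log C)] at h2
      exact h2) P hP
  rw [Real.log_mul (by positivity) hC0.ne']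
  linarith

end Pool.Agent.U985.UT
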