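import Pool.Agent.U985.UT.Gauss
import Pool.Agent.U985.UT.Main

/-! Gaussian averages of the squares of the Hecke eigenvalues: an upper bound, uniform in the form. -/

set_option autoImplicit false

namespace Pool.Agent.U985.UT

open Complex MeasureTheory Filter Topology
open Pool.Agent.TH949.RES (SphericalCuspForm logL)
open Pool.Agent.N846.DT
open Pool.Agent.W189.TP (DS)

variable {n : ℕ}

theorem formB (hn : 2 ≤ n) {ε : ℝ} (hε : 0 < ε) : ∃ A : ℝ, 0 ≤ A ∧
    ∀ (α : Nat.Primes → Fin n → ℂ) (μ : Fin n → ℂ), SphericalCuspForm α μ →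
      (∀ (p : Nat.Primes) i, ‖α p i‖ < ((p : ℕ) : ℝ) ^ (1 / 2 : ℝ)) → (∀ i, |(μ i).re| < 1 / 2) →
      ∀ s : ℝ, 1 ≤ s → ∀ T : Finset PX,
        ∑ x ∈ T, wX α x * LX x * Real.exp (-LX x) * Real.exp (-(LX x) ^ 2 / (2 * s ^ 2)) ≤
          √(Real.pi / 2) * s + (1 / 4 + ε) * Real.log (∏ i, ∏ j, (1 + ‖μ i - μ j‖)) + A := by
  set σ₁ : ℝ := min 1 (ε / 2) with hσ₁
  have hσ : 0 < σ₁ := lt_min one_pos (by positivity)
  have hσ1 : σ₁ ≤ 1 := min_le_left _ _
  have hσε : σ₁ ≤ ε / 2 := min_le_right _ _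
  obtain ⟨Cl, hCl, hleft⟩ := left_size (n := n) hσ
  obtain ⟨Cd, hCd, hdiag⟩ := diag n hn σ₁ σ₁ hσ hσ
  set K : ℝ := ((n * n : ℕ) : ℝ) * (1 / 2 + σ₁) with hK
  have hK0 : 0 ≤ K := by positivity
  obtain ⟨CK, hCK0, hCK⟩ := rpow_exp K
  set Cl' : ℝ := max 1 Cl with hCl'
  set Cd' : ℝ := max 1 Cd with hCd'
  set E : ℝ := Real.log (max 1 CK) + 10 with hE
  have h1Cl : 1 ≤ Cl' := le_max_left _ _
  have h1Cd : 1 ≤ Cd' := le_max_left _ _
  have h1CK : 1 ≤ max 1 CK := le_max_left _ _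
  have hE0 : 0 ≤ E := by
    have := Real.log_nonneg h1CK
    linarith
  have hEv : ∀ v : ℝ, (1 + |v|) ^ K * Real.exp (9 - v ^ 2) ≤ Real.exp E := by
    intro v
    rw [hE, Real.exp_add, Real.exp_log (by linarith)]
    calc (1 + |v|) ^ K * Real.exp (9 - v ^ 2) ≤ (CK * Real.exp |v|) * Real.exp (9 - v ^ 2) :=
          mul_le_mul_of_nonneg_right (hCK _ (abs_nonneg _)) (Real.exp_pos _).le
      _ = CK * Real.exp (|v| + (9 - v ^ 2)) := by rw [Real.exp_add]; ring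
      _ ≤ max 1 CK * Real.exp 10 := by
          refine mul_le_mul (le_max_right _ _) (Real.exp_le_exp.2 ?_) (Real.exp_pos _).le (by linarith)
          have : v ^ 2 = |v| ^ 2 := (sq_abs v).symm
          nlinarith [sq_nonneg (|v| - 1 / 2)]
  refine ⟨(Real.log Cl' + 2 * Real.log Cd' + E + K * JG) / 2, by
    have h1 := Real.log_nonneg h1Cl
    have h2 := Real.log_nonneg h1Cd
    have h3 := mul_nonneg hK0 JG_nonneg
    linarith, fun α μ h hα hμ s hs T => ?_⟩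
  obtain ⟨G, Ξ, hG, hΞ, hGe, hgr, hΞe, hfe⟩ := h.continuation
  have hleft' := hleft α μ h hμ G Ξ hG hΞ hGe hΞe hfe
  obtain ⟨-, hdiag'⟩ := hdiag α μ h hα hμ
  set P : ℝ := ∏ i, ∏ j, (1 + ‖μ i - μ j‖) with hP
  have hP1 : 1 ≤ P := by
    rw [hP, ← PK_eq μ ⟨0, by omega⟩]
    exact Pool.Agent.TH949.LT.one_le_PK _
  have hP0 : 0 < P := by linarith
  have hlP : 0 ≤ Real.log P := Real.log_nonneg hP1
  set D : ℝ := Real.log (Cd' * P ^ σ₁) with hD
  have hDv : D = Real.log Cd' + σ₁ * Real.log P := by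
    rw [hD, Real.log_mul (by linarith) (by positivity), Real.log_rpow hP0]
  have hdiag2 : Real.exp (∑' x : PX, wX α x * Real.exp (-((1 + σ₁) * LX x))) ≤ Cd' * P ^ σ₁ :=
    le_trans hdiag' (mul_le_mul_of_nonneg_right (le_max_right _ _) (by positivity))
  set B : ℝ := Cl' * P ^ (1 / 2 + σ₁) * (Cd' * P ^ σ₁) with hB
  have hB0 : 0 < B := by positivity
  have hBv : Real.log B = Real.log Cl' + (1 / 2 + σ₁) * Real.log P + D := by
    rw [hB, Real.log_mul (by positivity) (by positivity), Real.log_mul (by positivity) (by positivity),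
      Real.log_rpow hP0, hD]
  have hmain := gaussB (d := wX α) (L := LX) (c₀ := Real.log B + D + E) (K := K) (wX_nonneg α) LX_nonneg
    (fun σ hσ => summ_wX h hσ) hK0 (fun δ η ξ hη hηδ hδ =>
      fd (wX_nonneg α) LX_nonneg (fun σ hσ => summ_wX h hσ) hG
        (fun s hs => by rw [hGe s hs, logL_DS]) hgr hσ hσ1 hB0 hK0 hEv
        (fun t => by
          refine (hleft' t).trans ?_
          have h4 : ((1 + |t|) ^ (n * n) * P) ^ (1 / 2 + σ₁) = (1 + |t|) ^ K * P ^ (1 / 2 + σ₁) := by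
            rw [Real.mul_rpow (by positivity) hP0.le, hK, Real.rpow_mul (by positivity), Real.rpow_natCast]
          rw [h4, hB]
          calc Cl * ((1 + |t|) ^ K * P ^ (1 / 2 + σ₁)) *
                Real.exp (∑' x : PX, wX α x * Real.exp (-((1 + σ₁) * LX x))) ≤
              Cl' * ((1 + |t|) ^ K * P ^ (1 / 2 + σ₁)) * (Cd' * P ^ σ₁) := by
                refine mul_le_mul (mul_le_mul_of_nonneg_right (le_max_right _ _) (by positivity)) hdiag2
                  (Real.exp_pos _).le (by positivity)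
            _ = _ := by ring)
        (by
          have := Real.log_le_log (Real.exp_pos _) hdiag2
          rwa [Real.log_exp] at this)
        (by
          rw [hBv, hDv]
          have h1 := Real.log_nonneg h1Cl
          have h2 := Real.log_nonneg h1Cd
          have h3 := mul_nonneg hσ.le hlP
          nlinarith) ξ hη hηδ hδ) hs T
  refine hmain.trans ?_
  rw [hBv, hDv]
  nlinarith [mul_nonneg (sub_nonneg.2 hσε) hlP, mul_nonneg hσ.le hlP]

/-- **Gaussian averages over the primes.** -/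
theorem primeB (hn : 2 ≤ n) {ε : ℝ} (hε : 0 < ε) : ∃ A : ℝ, 0 ≤ A ∧
    ∀ (α : Nat.Primes → Fin n → ℂ) (μ : Fin n → ℂ), SphericalCuspForm α μ →
      (∀ (p : Nat.Primes) i, ‖α p i‖ < ((p : ℕ) : ℝ) ^ (1 / 2 : ℝ)) → (∀ i, |(μ i).re| < 1 / 2) →
      ∀ s : ℝ, 1 ≤ s → ∀ T : Finset Nat.Primes,
        ∑ p ∈ T, ‖∑ i, α p i‖ ^ 2 * (Real.log ((p : ℕ) : ℝ) / ((p : ℕ) : ℝ)) *
            Real.exp (-(Real.log ((p : ℕ) : ℝ)) ^ 2 / (2 * s ^ 2)) ≤
          √(Real.pi / 2) * s + (1 / 4 + ε) * Real.log (∏ i, ∏ j, (1 + ‖μ i - μ j‖)) + A := by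
  obtain ⟨A, hA, hB⟩ := formB hn hε
  refine ⟨A, hA, fun α μ h hα hμ s hs T => ?_⟩
  let e : Nat.Primes ↪ PX := ⟨fun p => (p, 0), fun a b hab => by simpa using hab⟩
  have h1 := hB α μ h hα hμ s hs (T.map e)
  rw [Finset.sum_map] at h1
  refine le_trans (le_of_eq ?_) h1
  refine Finset.sum_congr rfl fun p _ => ?_
  change _ = wX α (p, 0) * LX (p, 0) * Real.exp (-LX (p, 0)) * Real.exp (-(LX (p, 0)) ^ 2 / (2 * s ^ 2))
  rw [wX_prime, LX_prime, Real.exp_neg, Real.exp_log (prime_pos p)]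
  ring

end Pool.Agent.U985.UT
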