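import Pool.Agent.U985.UT.Core

/-! Mertens' theorem with Gaussian weights. -/

set_option autoImplicit false

namespace Pool.Agent.U985.UT

open MeasureTheory Filter Topology

/-- the integral of the Gaussian -/
noncomputable def II (x : ℝ) : ℝ := ∫ t in (0 : ℝ)..x, Real.exp (-t ^ 2 / 2)

theorem II_scale {s : ℝ} (hs : 0 < s) (L : ℝ) :
    ∫ t in (0 : ℝ)..L, Real.exp (-t ^ 2 / (2 * s ^ 2)) = s * II (L / s) := by
  have h1 : ∀ t : ℝ, Real.exp (-t ^ 2 / (2 * s ^ 2)) = (fun u : ℝ => Real.exp (-u ^ 2 / 2)) (t / s) := by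
    intro t
    simp only
    congr 1
    field_simp
  simp_rw [h1]
  rw [intervalIntegral.integral_comp_div (fun u : ℝ => Real.exp (-u ^ 2 / 2)) hs.ne']
  simp [II]

theorem hasDerivAt_g (s : ℝ) (hs : 0 < s) (t : ℝ) :
    HasDerivAt (fun t : ℝ => Real.exp (-t ^ 2 / (2 * s ^ 2))) (-(t / s ^ 2 * Real.exp (-t ^ 2 / (2 * s ^ 2)))) t := by
  have h1 : HasDerivAt (fun t : ℝ => -t ^ 2 / (2 * s ^ 2)) (-(2 * t) / (2 * s ^ 2)) t := by
    have h2 := ((hasDerivAt_pow 2 t).neg).div_const (2 * s ^ 2)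
    refine HasDerivAt.congr_deriv (f' := (-(((2 : ℕ) : ℝ) * t ^ (2 - 1)) / (2 * s ^ 2))) h2 ?_
    norm_num
  refine h1.exp.congr_deriv ?_
  have hs2 : s ^ 2 ≠ 0 := by positivity
  field_simp

/-- **Mertens' theorem with Gaussian weights** -/
theorem mert_gauss : ∃ A₀ : ℝ, 0 ≤ A₀ ∧ ∀ s : ℝ, 0 < s → ∀ P : ℝ, 1 ≤ P →
    (∫ t in (0 : ℝ)..Real.log P, Real.exp (-t ^ 2 / (2 * s ^ 2))) - A₀ ≤
      ∑ p ∈ pf P, Real.log ((p : ℕ) : ℝ) / ((p : ℕ) : ℝ) *
        Real.exp (-(Real.log ((p : ℕ) : ℝ)) ^ 2 / (2 * s ^ 2)) := by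
  obtain ⟨A₁, hA1, hM⟩ := mertens_pf
  refine ⟨A₁ + 1, by linarith, fun s hs P hP => ?_⟩
  set L : ℝ := Real.log P with hL
  have hL0 : 0 ≤ L := Real.log_nonneg hP
  have hP0 : 0 < P := by linarith
  set g : ℝ → ℝ := fun t => Real.exp (-t ^ 2 / (2 * s ^ 2)) with hg
  set h : ℝ → ℝ := fun t => t / s ^ 2 * g t with hh
  have hgc : Continuous g := by
    simp only [hg]
    fun_prop
  have hhc : Continuous h := by
    simp only [hh]
    fun_prop
  have hg0 : ∀ t, 0 < g t := fun t => Real.exp_pos _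
  have hh0 : ∀ t, 0 ≤ t → 0 ≤ h t := fun t ht => mul_nonneg (by positivity) (hg0 t).le
  have hgd : ∀ t, HasDerivAt g (-(h t)) t := fun t => hasDerivAt_g s hs t
  set c : Nat.Primes → ℝ := fun p => Real.log ((p : ℕ) : ℝ) / ((p : ℕ) : ℝ) with hc
  have hc0 : ∀ p, 0 ≤ c p := fun p => div_nonneg (log_prime_nonneg p) (prime_pos p).le
  set l : Nat.Primes → ℝ := fun p => Real.log ((p : ℕ) : ℝ) with hl
  have hl0 : ∀ p, 0 ≤ l p := fun p => log_prime_nonneg p
  have hii : ∀ (ℓ a b : ℝ), IntervalIntegrable ((Set.Ioi ℓ).indicator h) volume a b := by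
    intro ℓ a b
    have h1 := hhc.intervalIntegrable (μ := volume) a b
    exact ⟨h1.1.indicator measurableSet_Ioi, h1.2.indicator measurableSet_Ioi⟩
  -- the layer formula
  have hlay : ∀ ℓ, 0 ≤ ℓ → ℓ ≤ L → g ℓ = g L + ∫ t in (0 : ℝ)..L, (Set.Ioi ℓ).indicator h t := by
    intro ℓ h1 h2
    have h3 : ∫ t in (0 : ℝ)..ℓ, (Set.Ioi ℓ).indicator h t = 0 := by
      refine intervalIntegral.integral_zero_ae (Eventually.of_forall fun t ht => ?_)
      rw [Set.uIoc_of_le h1] at ht
      exact Set.indicator_of_notMem (by simpa using ht.2) _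
    have h4 : ∫ t in ℓ..L, (Set.Ioi ℓ).indicator h t = ∫ t in ℓ..L, h t := by
      refine intervalIntegral.integral_congr_ae (Eventually.of_forall fun t ht => ?_)
      rw [Set.uIoc_of_le h2] at ht
      exact Set.indicator_of_mem ht.1 _
    have h5 : ∫ t in ℓ..L, h t = g ℓ - g L := by
      have h6 : ∀ t ∈ Set.uIcc ℓ L, HasDerivAt (fun t => -g t) (h t) t := by
        intro t _
        have := (hgd t).neg
        rwa [neg_neg] at this
      rw [intervalIntegral.integral_eq_sub_of_hasDerivAt h6 (hhc.intervalIntegrable _ _)]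
      ring
    rw [← intervalIntegral.integral_add_adjacent_intervals (hii ℓ 0 ℓ) (hii ℓ ℓ L), h3, h4, h5]
    ring
  have hsum : ∑ p ∈ pf P, c p * g (l p) =
      g L * ∑ p ∈ pf P, c p + ∫ t in (0 : ℝ)..L, ∑ p ∈ pf P, c p * (Set.Ioi (l p)).indicator h t := by
    rw [intervalIntegral.integral_finsetSum fun p _ => (hii (l p) 0 L).const_mul (c p), Finset.mul_sum,
      ← Finset.sum_add_distrib]
    refine Finset.sum_congr rfl fun p hp => ?_
    rw [mem_pf] at hp
    rw [intervalIntegral.integral_const_mul, hlay (l p) (hl0 p) (Real.log_le_log (prime_pos p) hp)]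
    ring
  -- the lower bound
  have hlow : ∀ t, 0 ≤ t → t ≤ L → (t - (A₁ + 1)) * h t ≤ ∑ p ∈ pf P, c p * (Set.Ioi (l p)).indicator h t := by
    intro t ht0 htL
    have h1 : ∀ p, 0 ≤ c p * (Set.Ioi (l p)).indicator h t := by
      intro p
      refine mul_nonneg (hc0 p) ?_
      rw [Set.indicator_apply]
      split_ifs
      · exact hh0 t ht0
      · exact le_rfl
    rcases lt_or_ge t 1 with h2 | h2
    · refine le_trans ?_ (Finset.sum_nonneg fun p _ => h1 p)
      exact mul_nonpos_of_nonpos_of_nonneg (by linarith) (hh0 t ht0)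
    · have h3 : (1 : ℝ) ≤ Real.exp (t - 1) := Real.one_le_exp (by linarith)
      have h4 := (abs_le.1 (hM (Real.exp (t - 1)) h3)).1
      rw [Real.log_exp] at h4
      have hsub : pf (Real.exp (t - 1)) ⊆ pf P := by
        intro p hp
        rw [mem_pf] at hp ⊢
        refine hp.trans ?_
        rw [← Real.exp_log hP0]
        exact Real.exp_le_exp.2 (by linarith)
      calc (t - (A₁ + 1)) * h t ≤ (∑ p ∈ pf (Real.exp (t - 1)), c p) * h t :=
            mul_le_mul_of_nonneg_right (by linarith) (hh0 t ht0)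
        _ = ∑ p ∈ pf (Real.exp (t - 1)), c p * (Set.Ioi (l p)).indicator h t := by
            rw [Finset.sum_mul]
            refine Finset.sum_congr rfl fun p hp => ?_
            rw [mem_pf] at hp
            have h5 : l p ≤ t - 1 := by
              have := Real.log_le_log (prime_pos p) hp
              rwa [Real.log_exp] at this
            rw [Set.indicator_of_mem (show t ∈ Set.Ioi (l p) from by
              show l p < t
              linarith)]
        _ ≤ _ := Finset.sum_le_sum_of_subset_of_nonneg hsub fun p _ _ => h1 p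
  have hint : ∫ t in (0 : ℝ)..L, (t - (A₁ + 1)) * h t ≤
      ∫ t in (0 : ℝ)..L, ∑ p ∈ pf P, c p * (Set.Ioi (l p)).indicator h t := by
    refine intervalIntegral.integral_mono_on hL0 ((by fun_prop : Continuous fun t => (t - (A₁ + 1)) * h t).intervalIntegrable _ _)
      ?_ fun t ht => hlow t ht.1 ht.2
    have : (fun t => ∑ p ∈ pf P, c p * (Set.Ioi (l p)).indicator h t) =
        ∑ p ∈ pf P, fun t => c p * (Set.Ioi (l p)).indicator h t := by
      ext t
      simp
    rw [this]
    exact IntervalIntegrable.sum _ fun p _ => (hii (l p) 0 L).const_mul (c p)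
  have hft : ∫ t in (0 : ℝ)..L, ((t - (A₁ + 1)) * h t - g t) = -((L - (A₁ + 1)) * g L) - (A₁ + 1) * g 0 := by
    have h6 : ∀ t ∈ Set.uIcc 0 L, HasDerivAt (fun t => -((t - (A₁ + 1)) * g t)) ((t - (A₁ + 1)) * h t - g t) t := by
      intro t _
      have h7 := (((hasDerivAt_id t).sub_const (A₁ + 1)).mul (hgd t)).neg
      refine HasDerivAt.congr_deriv (f := fun t => -((t - (A₁ + 1)) * g t)) h7 ?_
      simp only [id]
      ring
    rw [intervalIntegral.integral_eq_sub_of_hasDerivAt h6 ((by fun_prop :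
      Continuous fun t => (t - (A₁ + 1)) * h t - g t).intervalIntegrable _ _)]
    ring
  rw [intervalIntegral.integral_sub ((by fun_prop : Continuous fun t => (t - (A₁ + 1)) * h t).intervalIntegrable _ _)
    (hgc.intervalIntegrable _ _)] at hft
  have hg1 : g 0 = 1 := by simp [hg]
  rw [hg1] at hft
  have h8 := (abs_le.1 (hM P hP)).1
  have h9 : g L * (L - A₁) ≤ g L * ∑ p ∈ pf P, c p :=
    mul_le_mul_of_nonneg_left (by linarith) (hg0 L).le
  rw [hsum]
  have h10 := hg0 L
  nlinarith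

end Pool.Agent.U985.UT
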