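import Pool.Agent.U985.UT.FormB
import Pool.Agent.U985.UT.Mert

/-! The least prime with a small Hecke eigenvalue. -/

set_option autoImplicit false

namespace Pool.Agent.U985.UT

open Filter Topology
open Pool.Agent.TH949.RES (SphericalCuspForm)
open Pool.Agent.N846.DT

variable {n : ℕ}

theorem one_le_C (hn : 2 ≤ n) (μ : Fin n → ℂ) : 1 ≤ ∏ i, ∏ j, (1 + ‖μ i - μ j‖) := by
  rw [← PK_eq μ ⟨0, by omega⟩]
  exact Pool.Agent.TH949.LT.one_le_PK _

/-- **Gaussian weights** -/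
theorem mainB (hn : 2 ≤ n) (M : ℝ) {ε : ℝ} (hε : 0 < ε) : ∃ A : ℝ, 0 < A ∧
    ∀ (α : Nat.Primes → Fin n → ℂ) (μ : Fin n → ℂ), SphericalCuspForm α μ →
      (∀ (p : Nat.Primes) i, ‖α p i‖ < ((p : ℕ) : ℝ) ^ (1 / 2 : ℝ)) → (∀ i, |(μ i).re| < 1 / 2) →
      ∀ P s : ℝ, 1 ≤ P → 1 ≤ s →
        M ^ 2 * (∫ t in (0 : ℝ)..Real.log P, Real.exp (-t ^ 2 / (2 * s ^ 2))) - √(Real.pi / 2) * s -
          (1 / 4 + ε) * Real.log (∏ i, ∏ j, (1 + ‖μ i - μ j‖)) - A ≤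
        ∑ p ∈ pf P, max 0 (M ^ 2 - ‖∑ i, α p i‖ ^ 2) * (Real.log ((p : ℕ) : ℝ) / ((p : ℕ) : ℝ)) *
          Real.exp (-(Real.log ((p : ℕ) : ℝ)) ^ 2 / (2 * s ^ 2)) := by
  obtain ⟨A₁, hA1, hB⟩ := primeB hn hε
  obtain ⟨A₀, hA0, hG⟩ := mert_gauss
  refine ⟨A₁ + M ^ 2 * A₀ + 1, by positivity, fun α μ h hα hμ P s hP hs => ?_⟩
  have h1 := hB α μ h hα hμ s hs (pf P)
  have h2 := mul_le_mul_of_nonneg_left (hG s (by linarith) P hP) (sq_nonneg M)
  have h3 : M ^ 2 * ∑ p ∈ pf P, Real.log ((p : ℕ) : ℝ) / ((p : ℕ) : ℝ) *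
        Real.exp (-(Real.log ((p : ℕ) : ℝ)) ^ 2 / (2 * s ^ 2)) ≤
      ∑ p ∈ pf P, ‖∑ i, α p i‖ ^ 2 * (Real.log ((p : ℕ) : ℝ) / ((p : ℕ) : ℝ)) *
            Real.exp (-(Real.log ((p : ℕ) : ℝ)) ^ 2 / (2 * s ^ 2)) +
      ∑ p ∈ pf P, max 0 (M ^ 2 - ‖∑ i, α p i‖ ^ 2) * (Real.log ((p : ℕ) : ℝ) / ((p : ℕ) : ℝ)) *
          Real.exp (-(Real.log ((p : ℕ) : ℝ)) ^ 2 / (2 * s ^ 2)) := by
    rw [Finset.mul_sum, ← Finset.sum_add_distrib]
    refine Finset.sum_le_sum fun p _ => ?_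
    have h4 : 0 ≤ Real.log ((p : ℕ) : ℝ) / ((p : ℕ) : ℝ) *
        Real.exp (-(Real.log ((p : ℕ) : ℝ)) ^ 2 / (2 * s ^ 2)) :=
      mul_nonneg (div_nonneg (log_prime_nonneg p) (prime_pos p).le) (Real.exp_pos _).le
    have h5 : M ^ 2 ≤ ‖∑ i, α p i‖ ^ 2 + max 0 (M ^ 2 - ‖∑ i, α p i‖ ^ 2) := by
      have := le_max_right 0 (M ^ 2 - ‖∑ i, α p i‖ ^ 2)
      linarith
    calc M ^ 2 * (Real.log ((p : ℕ) : ℝ) / ((p : ℕ) : ℝ) *
        Real.exp (-(Real.log ((p : ℕ) : ℝ)) ^ 2 / (2 * s ^ 2))) ≤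
        (‖∑ i, α p i‖ ^ 2 + max 0 (M ^ 2 - ‖∑ i, α p i‖ ^ 2)) *
        (Real.log ((p : ℕ) : ℝ) / ((p : ℕ) : ℝ) *
        Real.exp (-(Real.log ((p : ℕ) : ℝ)) ^ 2 / (2 * s ^ 2))) := mul_le_mul_of_nonneg_right h5 h4
      _ = _ := by ring
  linarith

/-- **The least prime with a small eigenvalue** -/
theorem least (hn : 2 ≤ n) {M x c : ℝ} (hM : 0 < M) (hx : 0 < x) (hD : 0 < M ^ 2 * II x - √(Real.pi / 2))
    (hc : x / (4 * (M ^ 2 * II x - √(Real.pi / 2))) < c) : ∃ A : ℝ, 0 < A ∧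
    ∀ (α : Nat.Primes → Fin n → ℂ) (μ : Fin n → ℂ), SphericalCuspForm α μ →
      (∀ (p : Nat.Primes) i, ‖α p i‖ < ((p : ℕ) : ℝ) ^ (1 / 2 : ℝ)) → (∀ i, |(μ i).re| < 1 / 2) →
      ∃ p : Nat.Primes, ((p : ℕ) : ℝ) ≤ A * (∏ i, ∏ j, (1 + ‖μ i - μ j‖)) ^ c ∧ ‖∑ i, α p i‖ < M := by
  set D : ℝ := M ^ 2 * II x - √(Real.pi / 2) with hDd
  have h1 : 1 / 4 < c * D / x := by
    rw [div_lt_iff₀ (by positivity)] at hc
    rw [lt_div_iff₀ hx]
    linarith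
  set ε : ℝ := c * D / x - 1 / 4 with hε
  have hε0 : 0 < ε := by linarith
  have hc0 : 0 < c := lt_trans (by positivity) hc
  obtain ⟨A₁, hA1, hB⟩ := mainB hn M hε0
  set A : ℝ := Real.exp (x * (1 + A₁ / D) + x) with hA
  refine ⟨A, Real.exp_pos _, fun α μ h hα hμ => ?_⟩
  set C : ℝ := ∏ i, ∏ j, (1 + ‖μ i - μ j‖) with hC
  have hC1 : 1 ≤ C := one_le_C hn μ
  have hC0 : 0 < C := by linarith
  have hlC : 0 ≤ Real.log C := Real.log_nonneg hC1
  by_contra hcon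
  push Not at hcon
  set P : ℝ := A * C ^ c with hP
  have hlP : Real.log P = (x * (1 + A₁ / D) + x) + c * Real.log C := by
    rw [hP, Real.log_mul (Real.exp_pos _).ne' (by positivity), Real.log_exp, Real.log_rpow hC0]
  have hlPx : x * (1 + A₁ / D) + x ≤ Real.log P := by
    rw [hlP]
    have := mul_nonneg hc0.le hlC
    linarith
  have hAD : 0 ≤ A₁ / D := by positivity
  have hlP0 : x ≤ Real.log P := by nlinarith
  have hP1 : 1 ≤ P := by
    by_contra h2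
    have h3 : 0 < P := by positivity
    have := Real.log_neg h3 (not_le.1 h2)
    linarith
  have hs : 1 ≤ Real.log P / x := by rwa [one_le_div hx]
  set s : ℝ := Real.log P / x with hsd
  have hs0 : 0 < s := by linarith
  have h2 := hB α μ h hα hμ P s hP1 hs
  have h3 : ∑ p ∈ pf P, max 0 (M ^ 2 - ‖∑ i, α p i‖ ^ 2) * (Real.log ((p : ℕ) : ℝ) / ((p : ℕ) : ℝ)) *
          Real.exp (-(Real.log ((p : ℕ) : ℝ)) ^ 2 / (2 * s ^ 2)) = 0 := by
    refine Finset.sum_eq_zero fun p hp => ?_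
    rw [mem_pf] at hp
    have h4 := hcon p hp
    have h5 : max 0 (M ^ 2 - ‖∑ i, α p i‖ ^ 2) = 0 := by
      refine max_eq_left ?_
      nlinarith [norm_nonneg (∑ i, α p i)]
    rw [h5]
    ring
  have hLs : Real.log P / s = x := by
    have : Real.log P ≠ 0 := by linarith
    rw [hsd]
    field_simp
  rw [h3, II_scale hs0, hLs] at h2
  have h4 : s * D ≤ (1 / 4 + ε) * Real.log C + A₁ := by
    rw [hDd]
    linarith
  have h5 : s * D = ((x * (1 + A₁ / D) + x) + c * Real.log C) * D / x := by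
    rw [hsd, hlP]
    ring
  have h6 : (1 / 4 + ε) = c * D / x := by rw [hε]; ring
  rw [h5, h6] at h4
  have h7 : ((x * (1 + A₁ / D) + x) + c * Real.log C) * D / x = D + A₁ + D + c * D / x * Real.log C := by
    field_simp
  rw [h7] at h4
  linarith

theorem exp_neg_ge {u : ℝ} (hu : 0 ≤ u) : 1 - u + u ^ 2 / 2 - u ^ 3 / 6 ≤ Real.exp (-u) := by
  have hd : ∀ v : ℝ, HasDerivAt (fun v : ℝ => Real.exp v * (1 - v + v ^ 2 / 2 - v ^ 3 / 6))
      (Real.exp v * (-(v ^ 3 / 6))) v := by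
    intro v
    have h1 : HasDerivAt (fun v : ℝ => 1 - v + v ^ 2 / 2 - v ^ 3 / 6) (-1 + v - v ^ 2 / 2) v := by
      have h2 := (((hasDerivAt_id v).const_sub 1).add ((hasDerivAt_pow 2 v).div_const 2)).sub
        ((hasDerivAt_pow 3 v).div_const 6)
      refine HasDerivAt.congr_deriv (f := fun v : ℝ => 1 - v + v ^ 2 / 2 - v ^ 3 / 6) h2 ?_
      norm_num
      ring
    refine ((Real.hasDerivAt_exp v).mul h1).congr_deriv ?_
    ring
  have hanti : AntitoneOn (fun v : ℝ => Real.exp v * (1 - v + v ^ 2 / 2 - v ^ 3 / 6)) (Set.Ici 0) := by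
    refine antitoneOn_of_deriv_nonpos (convex_Ici 0) (by fun_prop)
      (fun v _ => (hd v).differentiableAt.differentiableWithinAt) fun v hv => ?_
    rw [interior_Ici] at hv
    rw [(hd v).deriv]
    have : 0 < v := hv
    have h3 : 0 ≤ Real.exp v * (v ^ 3 / 6) := by positivity
    linarith
  have h1 := hanti (Set.mem_Ici.2 le_rfl) (Set.mem_Ici.2 hu) hu
  simp only [Real.exp_zero] at h1
  norm_num at h1
  have h2 : Real.exp u * Real.exp (-u) = 1 := by rw [← Real.exp_add, add_neg_cancel, Real.exp_zero]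
  have h3 : 0 < Real.exp u := Real.exp_pos u
  refine le_of_mul_le_mul_left (h1.trans (le_of_eq h2.symm)) h3

theorem II_ge {x : ℝ} (hx : 0 ≤ x) : x - x ^ 3 / 6 + x ^ 5 / 40 - x ^ 7 / 336 ≤ II x := by
  have h1 : ∫ t in (0 : ℝ)..x, (1 - t ^ 2 / 2 + (t ^ 2 / 2) ^ 2 / 2 - (t ^ 2 / 2) ^ 3 / 6) ≤ II x := by
    unfold II
    refine intervalIntegral.integral_mono_on hx ((by fun_prop :
      Continuous fun t : ℝ => 1 - t ^ 2 / 2 + (t ^ 2 / 2) ^ 2 / 2 - (t ^ 2 / 2) ^ 3 / 6).intervalIntegrable _ _)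
      ((by fun_prop : Continuous fun t : ℝ => Real.exp (-t ^ 2 / 2)).intervalIntegrable _ _) fun t _ => ?_
    have := exp_neg_ge (show 0 ≤ t ^ 2 / 2 by positivity)
    rwa [← neg_div] at this
  refine le_trans (le_of_eq ?_) h1
  have h2 : ∀ t ∈ Set.uIcc 0 x, HasDerivAt (fun t : ℝ => t - t ^ 3 / 6 + t ^ 5 / 40 - t ^ 7 / 336)
      (1 - t ^ 2 / 2 + (t ^ 2 / 2) ^ 2 / 2 - (t ^ 2 / 2) ^ 3 / 6) t := by
    intro t _
    have h3 := ((((hasDerivAt_id t).sub ((hasDerivAt_pow 3 t).div_const 6)).add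
      ((hasDerivAt_pow 5 t).div_const 40)).sub ((hasDerivAt_pow 7 t).div_const 336))
    refine HasDerivAt.congr_deriv (f := fun t : ℝ => t - t ^ 3 / 6 + t ^ 5 / 40 - t ^ 7 / 336) h3 ?_
    norm_num
    ring
  rw [intervalIntegral.integral_eq_sub_of_hasDerivAt h2 ((by fun_prop :
      Continuous fun t : ℝ => 1 - t ^ 2 / 2 + (t ^ 2 / 2) ^ 2 / 2 - (t ^ 2 / 2) ^ 3 / 6).intervalIntegrable _ _)]
  ring

theorem II_ge' {x : ℝ} (hx : 0 ≤ x) : x - x ^ 3 / 6 ≤ II x := by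
  have h1 : ∫ t in (0 : ℝ)..x, (1 - t ^ 2 / 2) ≤ II x := by
    unfold II
    refine intervalIntegral.integral_mono_on hx ((by fun_prop :
      Continuous fun t : ℝ => 1 - t ^ 2 / 2).intervalIntegrable _ _)
      ((by fun_prop : Continuous fun t : ℝ => Real.exp (-t ^ 2 / 2)).intervalIntegrable _ _) fun t _ => ?_
    have := Real.add_one_le_exp (-(t ^ 2 / 2))
    rw [← neg_div] at this
    linarith
  refine le_trans (le_of_eq ?_) h1
  have h2 : ∀ t ∈ Set.uIcc 0 x, HasDerivAt (fun t : ℝ => t - t ^ 3 / 6) (1 - t ^ 2 / 2) t := by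
    intro t _
    have h3 := ((hasDerivAt_id t).sub ((hasDerivAt_pow 3 t).div_const 6))
    refine HasDerivAt.congr_deriv (f := fun t : ℝ => t - t ^ 3 / 6) h3 ?_
    norm_num
    ring
  rw [intervalIntegral.integral_eq_sub_of_hasDerivAt h2 ((by fun_prop :
      Continuous fun t : ℝ => 1 - t ^ 2 / 2).intervalIntegrable _ _)]
  ring

theorem sqrt_pi_half : √(Real.pi / 2) < 1.2534 := by
  rw [Real.sqrt_lt' (by norm_num)]
  have := Real.pi_lt_d4
  norm_num at this ⊢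
  linarith

/-- **The least prime with `|λ(p)| < M`** -/
theorem leastM (hn : 2 ≤ n) {M : ℝ} (hM : 16 / 9 ≤ M) : ∃ A : ℝ, 0 < A ∧
    ∀ (α : Nat.Primes → Fin n → ℂ) (μ : Fin n → ℂ), SphericalCuspForm α μ →
      (∀ (p : Nat.Primes) i, ‖α p i‖ < ((p : ℕ) : ℝ) ^ (1 / 2 : ℝ)) → (∀ i, |(μ i).re| < 1 / 2) →
      ∃ p : Nat.Primes, ((p : ℕ) : ℝ) ≤ A * (∏ i, ∏ j, (1 + ‖μ i - μ j‖)) ^ (1 / (4 * M * (M - 1))) ∧
        ‖∑ i, α p i‖ < M := by
  have hM0 : 0 < M := by linarith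
  set r : ℝ := √(2 * M) with hr
  have hr2 : r ^ 2 = 2 * M := Real.sq_sqrt (by positivity)
  have hr0 : 0 < r := Real.sqrt_pos.2 (by positivity)
  have hr1 : 1.8801 < r * 1 := by
    rw [mul_one, hr]
    refine Real.lt_sqrt_of_sq_lt ?_
    norm_num
    linarith
  set x : ℝ := r / M with hx
  have hx0 : 0 < x := by positivity
  have h1 := II_ge' hx0.le
  have h2 : M ^ 2 * (x - x ^ 3 / 6) = M * r - r / 3 := by
    have h3 : x ^ 3 = 2 * r / M ^ 2 := by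
      rw [hx, div_pow]
      have : r ^ 3 = 2 * M * r := by rw [pow_succ, hr2]
      rw [this]
      field_simp
    rw [h3, hx]
    field_simp
    ring
  have h3 : M * r - r / 3 ≤ M ^ 2 * II x := by
    rw [← h2]
    exact mul_le_mul_of_nonneg_left h1 (by positivity)
  have h4 := sqrt_pi_half
  have h5 : (M - 1) * r < M ^ 2 * II x - √(Real.pi / 2) := by
    have : (M - 1) * r + 2 / 3 * r = M * r - r / 3 := by ring
    linarith
  have h6 : 0 < M - 1 := by linarith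
  have h7 : 0 < M ^ 2 * II x - √(Real.pi / 2) := lt_trans (by positivity) h5
  refine least hn hM0 hx0 h7 ?_
  rw [div_lt_div_iff₀ (by positivity) (by positivity), one_mul]
  have h8 : x * (4 * M * (M - 1)) = 4 * ((M - 1) * r) := by
    rw [hx]
    field_simp
  rw [h8]
  linarith

/-- **the least prime at which the Ramanujan bound `|λ(p)| < n` holds** -/
theorem leastN (hn : 2 ≤ n) : ∃ A : ℝ, 0 < A ∧
    ∀ (α : Nat.Primes → Fin n → ℂ) (μ : Fin n → ℂ), SphericalCuspForm α μ →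
      (∀ (p : Nat.Primes) i, ‖α p i‖ < ((p : ℕ) : ℝ) ^ (1 / 2 : ℝ)) → (∀ i, |(μ i).re| < 1 / 2) →
      ∀ T : ℝ, (∀ i j, 1 + ‖μ i - μ j‖ ≤ T) →
      ∃ p : Nat.Primes, ((p : ℕ) : ℝ) ≤ A * T ^ (1 / 4 : ℝ) ∧ ‖∑ i, α p i‖ < n := by
  have hn' : (2 : ℝ) ≤ n := by exact_mod_cast hn
  obtain ⟨A, hA, h1⟩ := leastM hn (M := n) (by linarith)
  refine ⟨A, hA, fun α μ h hα hμ T hT => ?_⟩
  obtain ⟨p, hp1, hp2⟩ := h1 α μ h hα hμ
  refine ⟨p, hp1.trans (mul_le_mul_of_nonneg_left ?_ hA.le), hp2⟩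
  have hT1 : 1 ≤ T := by
    have := hT ⟨0, by omega⟩ ⟨0, by omega⟩
    simpa using this
  have h2 : ∏ i, ∏ j, (1 + ‖μ i - μ j‖) ≤ T ^ (n * (n - 1)) := by
    have h3 : ∀ i : Fin n, ∏ j, (1 + ‖μ i - μ j‖) ≤ T ^ (n - 1) := by
      intro i
      rw [← Finset.mul_prod_erase _ _ (Finset.mem_univ i), sub_self, norm_zero, add_zero, one_mul]
      refine (Finset.prod_le_prod (fun j _ => by positivity) fun j _ => hT i j).trans (le_of_eq ?_)
      rw [Finset.prod_const, Finset.card_erase_of_mem (Finset.mem_univ i), Finset.card_univ, Fintype.card_fin]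
    refine (Finset.prod_le_prod (fun i _ => Finset.prod_nonneg fun j _ => by positivity) fun i _ => h3 i).trans
      (le_of_eq ?_)
    rw [Finset.prod_const, Finset.card_univ, Fintype.card_fin, ← pow_mul, mul_comm]
  have h4 : 0 < (n : ℝ) - 1 := by linarith
  calc (∏ i, ∏ j, (1 + ‖μ i - μ j‖)) ^ (1 / (4 * (n : ℝ) * ((n : ℝ) - 1))) ≤
        (T ^ (n * (n - 1))) ^ (1 / (4 * (n : ℝ) * ((n : ℝ) - 1))) :=
        Real.rpow_le_rpow (Finset.prod_nonneg fun i _ => Finset.prod_nonneg fun j _ => by positivity) h2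
          (by positivity)
    _ = T ^ (1 / 4 : ℝ) := by
        rw [← Real.rpow_natCast, ← Real.rpow_mul (by linarith)]
        congr 1
        have h5 : ((n * (n - 1) : ℕ) : ℝ) = (n : ℝ) * ((n : ℝ) - 1) := by
          rw [Nat.cast_mul, Nat.cast_sub (by omega), Nat.cast_one]
        rw [h5]
        have : (n : ℝ) ≠ 0 := by linarith
        field_simp

end Pool.Agent.U985.UT
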