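import Pool.Agent.U985.UT.Least
import Mathlib.MeasureTheory.Integral.IntegralEqImproper

/-! `n = 2` (with the symmetric square) and `n = 3`. -/

set_option autoImplicit false

namespace Pool.Agent.U985.UT

open Filter Topology
open Pool.Agent.TH949.RES (SphericalCuspForm)
open Pool.Agent.N846.DT

/-! ### the parameters -/

theorem norm_pair {z : ℂ} (hz : z ≠ 0) : ‖z + ((starRingEnd ℂ) z)⁻¹‖ = ‖z‖ + 1 / ‖z‖ := by
  have hn : 0 < ‖z‖ := norm_pos_iff.2 hz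
  have hc : (starRingEnd ℂ) z ≠ 0 := by simpa using hz
  have h1 : z + ((starRingEnd ℂ) z)⁻¹ = z * ((1 + 1 / ‖z‖ ^ 2 : ℝ) : ℂ) := by
    have h2 : z * (starRingEnd ℂ) z = ((‖z‖ ^ 2 : ℝ) : ℂ) := by
      rw [Complex.mul_conj, Complex.normSq_eq_norm_sq]
    have h3 : ((starRingEnd ℂ) z)⁻¹ = z / ((‖z‖ ^ 2 : ℝ) : ℂ) := by
      rw [← h2]
      field_simp
    rw [h3]
    push_cast
    ring
  rw [h1, norm_mul, Complex.norm_real, Real.norm_of_nonneg (by positivity)]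
  field_simp

theorem two_case {a : Fin 2 → ℂ} (h0 : ∀ i, a i ≠ 0)
    (hU : ∃ τ : Equiv.Perm (Fin 2), ∀ i, a (τ i) = ((starRingEnd ℂ) (a i))⁻¹) (hd : a 0 * a 1 = 1) :
    (∀ i, ‖a i‖ = 1) ∨ ∃ r : ℝ, r ≠ 0 ∧ a 0 = r ∧ a 1 = ((1 / r : ℝ) : ℂ) := by
  obtain ⟨τ, hτ⟩ := hU
  have h1 : τ 0 = 0 ∨ τ 0 = 1 := by
    rcases Fin.exists_fin_two.1 ⟨τ 0, rfl⟩ with h | h
    · exact Or.inl h
    · exact Or.inr h
  have hn0 : 0 < ‖a 0‖ := norm_pos_iff.2 (h0 0)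
  rcases h1 with h1 | h1
  · left
    have h2 := hτ 0
    rw [h1] at h2
    have h3 : ‖a 0‖ = 1 := by
      have := congrArg norm h2
      rw [norm_inv, RCLike.norm_conj] at this
      have h4 : ‖a 0‖ * ‖a 0‖ = 1 := by
        nth_rewrite 1 [this]
        exact inv_mul_cancel₀ hn0.ne'
      nlinarith
    have h4 := congrArg norm hd
    rw [norm_mul, h3, one_mul, norm_one] at h4
    intro i
    fin_cases i
    · exact h3
    · exact h4
  · right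
    have h2 := hτ 0
    rw [h1] at h2
    have h3 : a 1 = (a 0)⁻¹ := eq_inv_of_mul_eq_one_left (by rw [mul_comm]; exact hd)
    have h4 : (starRingEnd ℂ) (a 0) = a 0 := by
      have := h2.symm.trans h3
      exact inv_injective this
    have h5 : a 0 = ((a 0).re : ℂ) := (Complex.conj_eq_iff_re.1 h4).symm
    refine ⟨(a 0).re, fun h6 => h0 0 (by rw [h5, h6]; simp), h5, ?_⟩
    rw [h3]
    conv_lhs => rw [h5]
    push_cast
    rw [one_div]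

theorem two_real {a : Fin 2 → ℂ} (h0 : ∀ i, a i ≠ 0)
    (hU : ∃ τ : Equiv.Perm (Fin 2), ∀ i, a (τ i) = ((starRingEnd ℂ) (a i))⁻¹) (hd : a 0 * a 1 = 1) :
    ∃ t : ℝ, a 0 + a 1 = t := by
  rcases two_case h0 hU hd with h | ⟨r, hr, h1, h2⟩
  · refine ⟨2 * (a 0).re, ?_⟩
    have h3 : a 1 = (starRingEnd ℂ) (a 0) := by
      have h4 : (starRingEnd ℂ) (a 0) * a 0 = 1 := by
        rw [mul_comm, Complex.mul_conj, Complex.normSq_eq_norm_sq, h 0]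
        simp
      have h5 : a 1 = (a 0)⁻¹ := eq_inv_of_mul_eq_one_left (by rw [mul_comm]; exact hd)
      rw [h5]
      exact (eq_inv_of_mul_eq_one_left h4).symm
    rw [h3, Complex.add_conj]
  · exact ⟨r + 1 / r, by rw [h1, h2]; push_cast; rfl⟩

theorem two_tempered {a : Fin 2 → ℂ} (h0 : ∀ i, a i ≠ 0)
    (hU : ∃ τ : Equiv.Perm (Fin 2), ∀ i, a (τ i) = ((starRingEnd ℂ) (a i))⁻¹) (hd : a 0 * a 1 = 1)
    (hs : ‖a 0 + a 1‖ < 2) : ∀ i, ‖a i‖ = 1 := by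
  rcases two_case h0 hU hd with h | ⟨r, hr, h1, h2⟩
  · exact h
  · exfalso
    rw [h1, h2, ← Complex.ofReal_add, Complex.norm_real, Real.norm_eq_abs] at hs
    have h3 : (r + 1 / r) ^ 2 < 2 ^ 2 := by
      rw [← sq_abs]
      have := abs_nonneg (r + 1 / r)
      nlinarith
    have h4 : (r + 1 / r) ^ 2 = (r - 1 / r) ^ 2 + 4 := by
      field_simp
      ring
    nlinarith [sq_nonneg (r - 1 / r)]

theorem prod_norm_one {n : ℕ} {a : Fin n → ℂ} (h0 : ∀ i, a i ≠ 0)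
    (hU : ∃ τ : Equiv.Perm (Fin n), ∀ i, a (τ i) = ((starRingEnd ℂ) (a i))⁻¹) : ∏ i, ‖a i‖ = 1 := by
  obtain ⟨τ, hτ⟩ := hU
  have h1 : ∏ i, ‖a i‖ = (∏ i, ‖a i‖)⁻¹ := by
    rw [← Equiv.prod_comp τ fun i => ‖a i‖, ← Finset.prod_inv_distrib]
    conv_rhs => rw [Equiv.prod_comp τ fun i => ‖a i‖⁻¹]
    refine Finset.prod_congr rfl fun i _ => ?_
    rw [hτ, norm_inv, RCLike.norm_conj]
  have h2 : 0 < ∏ i, ‖a i‖ := Finset.prod_pos fun i _ => norm_pos_iff.2 (h0 i)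
  have h3 : (∏ i, ‖a i‖) * (∏ i, ‖a i‖) = 1 := by
    nth_rewrite 1 [h1]
    exact inv_mul_cancel₀ h2.ne'
  nlinarith

theorem three_lower {a : Fin 3 → ℂ} (h0 : ∀ i, a i ≠ 0)
    (hU : ∃ τ : Equiv.Perm (Fin 3), ∀ i, a (τ i) = ((starRingEnd ℂ) (a i))⁻¹) {i : Fin 3} (hi : ‖a i‖ ≠ 1) :
    ‖a i‖ + 1 / ‖a i‖ - 1 ≤ ‖∑ i, a i‖ := by
  have hp := prod_norm_one h0 hU
  obtain ⟨τ, hτ⟩ := hU
  have hn : 0 < ‖a i‖ := norm_pos_iff.2 (h0 i)
  have hne : τ i ≠ i := by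
    intro h
    have h1 := hτ i
    rw [h] at h1
    have h2 := congrArg norm h1
    rw [norm_inv, RCLike.norm_conj] at h2
    have h3 : ‖a i‖ * ‖a i‖ = 1 := by
      nth_rewrite 1 [h2]
      exact inv_mul_cancel₀ hn.ne'
    exact hi (by nlinarith)
  -- the third index
  obtain ⟨k, hki, hkj⟩ : ∃ k : Fin 3, k ≠ i ∧ k ≠ τ i := by
    have : ∀ i j : Fin 3, ∃ k : Fin 3, k ≠ i ∧ k ≠ j := by decide
    exact this _ _
  have huniv : (Finset.univ : Finset (Fin 3)) = {i, τ i, k} := by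
    have : ∀ i j k : Fin 3, j ≠ i → k ≠ i → k ≠ j → (Finset.univ : Finset (Fin 3)) = {i, j, k} := by decide
    exact this _ _ _ hne hki hkj
  have hs : ∑ i, a i = (a i + a (τ i)) + a k := by
    rw [huniv, Finset.sum_insert (by
      simp only [Finset.mem_insert, Finset.mem_singleton, not_or]
      exact ⟨hne.symm, hki.symm⟩), Finset.sum_pair hkj.symm]
    ring
  have hpr : ∏ i, ‖a i‖ = ‖a i‖ * (‖a (τ i)‖ * ‖a k‖) := by
    rw [huniv, Finset.prod_insert (by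
      simp only [Finset.mem_insert, Finset.mem_singleton, not_or]
      exact ⟨hne.symm, hki.symm⟩), Finset.prod_pair hkj.symm]
  have hk : ‖a k‖ = 1 := by
    rw [hpr, hτ i, norm_inv, RCLike.norm_conj] at hp
    field_simp at hp
    exact hp
  rw [hs, hτ i]
  have h1 := norm_pair (h0 i)
  have h2 : ‖a i + ((starRingEnd ℂ) (a i))⁻¹‖ ≤ ‖a i + ((starRingEnd ℂ) (a i))⁻¹ + a k‖ + ‖a k‖ := by
    have := norm_sub_le (a i + ((starRingEnd ℂ) (a i))⁻¹ + a k) (a k)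
    rwa [add_sub_cancel_right] at this
  rw [h1, hk] at h2
  linarith

theorem three_near {a : Fin 3 → ℂ} (h0 : ∀ i, a i ≠ 0)
    (hU : ∃ τ : Equiv.Perm (Fin 3), ∀ i, a (τ i) = ((starRingEnd ℂ) (a i))⁻¹) {X : ℝ} (hX : 1 < X)
    (hs : ‖∑ i, a i‖ < X + 1 / X - 1) (i : Fin 3) : 1 / X < ‖a i‖ ∧ ‖a i‖ < X := by
  have hX0 : 0 < X := by linarith
  by_cases hi : ‖a i‖ = 1
  · rw [hi]
    exact ⟨(div_lt_one hX0).2 hX, hX⟩
  · have h1 := (three_lower h0 hU hi).trans_lt hs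
    have hn : 0 < ‖a i‖ := norm_pos_iff.2 (h0 i)
    have h2 : ‖a i‖ + 1 / ‖a i‖ < X + 1 / X := by linarith
    have h3 : (‖a i‖ - X) * (‖a i‖ - 1 / X) < 0 := by
      have h4 : (‖a i‖ - X) * (‖a i‖ - 1 / X) = ‖a i‖ * (‖a i‖ + 1 / ‖a i‖ - (X + 1 / X)) := by
        field_simp
        ring
      rw [h4]
      exact mul_neg_of_pos_of_neg hn (by linarith)
    have h5 : 1 / X < X := ((div_lt_one hX0).2 hX).trans hX
    rcases mul_neg_iff.1 h3 with ⟨h6, h7⟩ | ⟨h6, h7⟩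
    · exfalso
      linarith
    · constructor <;> linarith

end Pool.Agent.U985.UT
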