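import Mathlib

/-! Marking one entry of a multi-index: an identity for exponentials of Dirichlet series, in `ENNReal`. -/

set_option autoImplicit false

namespace Pool.Agent.U985.UT

open scoped ENNReal

variable {X : Type}

/-- multi-indices of length `k` -/
noncomputable def IK (a : X → ℝ≥0∞) (L : X → ℝ) (k : ℕ) (g : ℝ → ℝ≥0∞) : ℝ≥0∞ :=
  ∑' x : Fin k → X, (∏ i, a (x i)) * g (∑ i, L (x i))

/-- the same with the weight `∑ ℓ` -/
noncomputable def JJ (a ℓ : X → ℝ≥0∞) (L : X → ℝ) (k : ℕ) (g : ℝ → ℝ≥0∞) : ℝ≥0∞ :=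
  ∑' x : Fin k → X, (∏ i, a (x i)) * (∑ i, ℓ (x i)) * g (∑ i, L (x i))

theorem cons_tsum {k : ℕ} (f : (Fin (k + 1) → X) → ℝ≥0∞) :
    ∑' x : Fin (k + 1) → X, f x = ∑' x : X, ∑' y : Fin k → X, f (Fin.cons x y) := by
  rw [← (Fin.consEquiv fun _ => X).tsum_eq f]
  exact ENNReal.tsum_prod (f := fun x (y : Fin k → X) => f (Fin.cons x y))

theorem IK_succ (a : X → ℝ≥0∞) (L : X → ℝ) (k : ℕ) (g : ℝ → ℝ≥0∞) :
    IK a L (k + 1) g = ∑' x, a x * IK a L k (fun t => g (L x + t)) := by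
  unfold IK
  rw [cons_tsum]
  refine tsum_congr fun x => ?_
  rw [← ENNReal.tsum_mul_left]
  refine tsum_congr fun y => ?_
  rw [Fin.prod_univ_succ, Fin.sum_univ_succ]
  simp only [Fin.cons_zero, Fin.cons_succ]
  ring

theorem JJ_succ (a ℓ : X → ℝ≥0∞) (L : X → ℝ) (k : ℕ) (g : ℝ → ℝ≥0∞) :
    JJ a ℓ L (k + 1) g = (∑' x, a x * ℓ x * IK a L k (fun t => g (L x + t))) +
      ∑' x, a x * JJ a ℓ L k (fun t => g (L x + t)) := by
  unfold JJ IK
  rw [cons_tsum, ← ENNReal.tsum_add]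
  refine tsum_congr fun x => ?_
  rw [← ENNReal.tsum_mul_left, ← ENNReal.tsum_mul_left, ← ENNReal.tsum_add]
  refine tsum_congr fun y => ?_
  rw [Fin.prod_univ_succ, Fin.sum_univ_succ, Fin.sum_univ_succ]
  simp only [Fin.cons_zero, Fin.cons_succ]
  ring

theorem JJ_zero (a ℓ : X → ℝ≥0∞) (L : X → ℝ) (g : ℝ → ℝ≥0∞) : JJ a ℓ L 0 g = 0 := by
  unfold JJ
  simp

theorem JJ_eq (a ℓ : X → ℝ≥0∞) (L : X → ℝ) (k : ℕ) : ∀ g : ℝ → ℝ≥0∞,
    JJ a ℓ L (k + 1) g = ((k + 1 : ℕ) : ℝ≥0∞) * ∑' x, a x * ℓ x * IK a L k (fun t => g (L x + t)) := by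
  induction k with
  | zero =>
    intro g
    rw [JJ_succ]
    simp only [JJ_zero, mul_zero, tsum_zero, add_zero]
    simp
  | succ k ih =>
    intro g
    rw [JJ_succ]
    have h1 : ∑' x, a x * JJ a ℓ L (k + 1) (fun t => g (L x + t)) =
        ((k + 1 : ℕ) : ℝ≥0∞) * ∑' x, a x * ℓ x * IK a L (k + 1) (fun t => g (L x + t)) := by
      have h2 : ∀ x, a x * JJ a ℓ L (k + 1) (fun t => g (L x + t)) =
          ((k + 1 : ℕ) : ℝ≥0∞) * ∑' x', a x * (a x' * ℓ x' * IK a L k (fun t => g (L x + (L x' + t)))) := by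
        intro x
        rw [ih, ENNReal.tsum_mul_left]
        ring
      simp_rw [h2]
      rw [ENNReal.tsum_mul_left, ENNReal.tsum_comm]
      congr 1
      refine tsum_congr fun x' => ?_
      rw [IK_succ, ← ENNReal.tsum_mul_left]
      refine tsum_congr fun x => ?_
      have h3 : (fun t => g (L x + (L x' + t))) = fun t => g (L x' + (L x + t)) := by
        ext t
        congr 1
        ring
      rw [h3]
      ring
    rw [h1]
    push_cast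
    ring

/-- **marking** -/
theorem mark (a ℓ : X → ℝ≥0∞) (L : X → ℝ) (g : ℝ → ℝ≥0∞) :
    ∑' l : (Σ k : ℕ, (Fin k → X)), (∏ i, a (l.2 i)) / (l.1.factorial : ℝ≥0∞) * (∑ i, ℓ (l.2 i)) *
        g (∑ i, L (l.2 i)) =
      ∑' x, a x * ℓ x * ∑' l : (Σ k : ℕ, (Fin k → X)), (∏ i, a (l.2 i)) / (l.1.factorial : ℝ≥0∞) *
        g (L x + ∑ i, L (l.2 i)) := by
  have hL : ∑' l : (Σ k : ℕ, (Fin k → X)), (∏ i, a (l.2 i)) / (l.1.factorial : ℝ≥0∞) * (∑ i, ℓ (l.2 i)) *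
        g (∑ i, L (l.2 i)) = ∑' k : ℕ, (k.factorial : ℝ≥0∞)⁻¹ * JJ a ℓ L k g := by
    rw [ENNReal.tsum_sigma']
    refine tsum_congr fun k => ?_
    unfold JJ
    rw [← ENNReal.tsum_mul_left]
    refine tsum_congr fun x => ?_
    rw [div_eq_mul_inv]
    ring
  have hR : ∀ x, ∑' l : (Σ k : ℕ, (Fin k → X)), (∏ i, a (l.2 i)) / (l.1.factorial : ℝ≥0∞) *
        g (L x + ∑ i, L (l.2 i)) = ∑' k : ℕ, (k.factorial : ℝ≥0∞)⁻¹ * IK a L k (fun t => g (L x + t)) := by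
    intro x
    rw [ENNReal.tsum_sigma']
    refine tsum_congr fun k => ?_
    unfold IK
    rw [← ENNReal.tsum_mul_left]
    refine tsum_congr fun y => ?_
    rw [div_eq_mul_inv]
    ring
  rw [hL]
  simp_rw [hR]
  rw [tsum_eq_zero_add' ENNReal.summable, JJ_zero, mul_zero, zero_add]
  have h1 : ∀ k : ℕ, ((k + 1).factorial : ℝ≥0∞)⁻¹ * JJ a ℓ L (k + 1) g =
      ∑' x, a x * ℓ x * ((k.factorial : ℝ≥0∞)⁻¹ * IK a L k (fun t => g (L x + t))) := by
    intro k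
    rw [JJ_eq, ← mul_assoc]
    have h2 : ((k + 1).factorial : ℝ≥0∞)⁻¹ * ((k + 1 : ℕ) : ℝ≥0∞) = (k.factorial : ℝ≥0∞)⁻¹ := by
      rw [Nat.factorial_succ, Nat.cast_mul, ENNReal.mul_inv (Or.inl (by positivity)) (Or.inl (ENNReal.natCast_ne_top _)),
        mul_comm, ← mul_assoc, ENNReal.mul_inv_cancel (by positivity) (ENNReal.natCast_ne_top _), one_mul]
    rw [h2, ← ENNReal.tsum_mul_left]
    refine tsum_congr fun x => ?_
    ring
  simp_rw [h1]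
  rw [ENNReal.tsum_comm]
  refine tsum_congr fun x => ?_
  rw [ENNReal.tsum_mul_left]

end Pool.Agent.U985.UT
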